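import Pool.Agent.H37.UK.Df

/-!
# Row Eg: sums of generalised eigenspaces

`G f i` is the generalised eigenspace of `f` for the integer `i`, `Gs f S` the sum of the `G f i`,
`i ∈ S` (see Df: `mem_G`, `G_map`).

* `Gs_mono`, `G_le_Gs`: clear.  `G_stable`: `f` commutes with `f - i`.  `Gs_stable`, `Gs_map`: from
  `G_stable`, `G_map` (`Submodule.iSup_induction` or `iSup_le` with a `comap`).
* `Gs_exists`: `Submodule.mem_iSup_iff_exists_finsupp` or an induction: the set of the `x` with such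
  a presentation is a submodule which contains the `G f i`, `i ∈ S` (take the sum with
  `y i := 0` outside of the finite set).
* `G_indep`: `Module.End.independent_maxGenEigenspace` composed with the injective map
  `Int.cast : ℤ → k` (`iSupIndep.comp`).
* `G_unique`: `iSupIndep` applied to the family `y i - z i` (for example by
  `iSupIndep_iff_finset_sum_eq_zero...` or `DFinsupp`/`Finset.sum_eq_zero` versions in Mathlib).
* `Gs_disj`: `iSupIndep.disjoint_biSup`.  `Gs_sup`: `iSup_union`.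
* `sat`: write `f y - c y = ∑_{i ∈ s} y i` by `Gs_exists`.  For `i ≠ c` the map `f - c` is bijective on
  `G f i` (if `(f - i)^n z = 0`, then `(X - i)^n` and `X - c` are coprime polynomials,
  `1 = u (X - i)^n + v (X - c)`, so `z = (f - c) (v(f) z)` with `v(f) z ∈ G f i`).  So for `i ∈ s`,
  `i ≠ c` there is `w i ∈ G f i` with `(f - c) (w i) = y i`, and `(f - c) (y - ∑_{i ≠ c} w i) = y c`
  (or `0` if `c ∉ s`) is in `G f c`, so `y - ∑ w i ∈ G f c`.
* `sat_pow`: induction on `n`.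
* `Gs_surj`: `Gs_map` and surjectivity.
* `G_lift`: let `g x0 = y`, `x0 = ∑_{i ∈ s} x i` by `Gs_exists`.  Then `y = ∑ g (x i)` and
  `g (x i) ∈ G f' i`; by `G_unique` (for the finite set `s ∪ {i}`) `g (x i) = y` (`x i := 0` if
  `i ∉ s`).
* `G_mod`: `G_lift` for `R.mkQ : M → M ⧸ R` and the induced map `R.mapQ R f hR` (the class of `y` is in
  `G _ i` by `mem_G`).
* `G_eq_bot`: `Gs_disj` for `{i}` and `S`, and `Gs f S = ⊤`.
-/

universe u

namespace H37.UK

open CategoryTheory H60.KZ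

variable {k : Type u} [Field k] {M N : Type u} [AddCommGroup M] [Module k M] [AddCommGroup N]
  [Module k N] {f : M →ₗ[k] M} {f' : N →ₗ[k] N}

theorem Gs_mono {S S' : Set ℤ} (h : S ⊆ S') : Gs f S ≤ Gs f S' :=
  biSup_mono h

theorem G_le_Gs {S : Set ℤ} {i : ℤ} (hi : i ∈ S) : G f i ≤ Gs f S :=
  le_iSup₂_of_le i hi le_rfl

theorem G_stable {i : ℤ} {x : M} (hx : x ∈ G f i) : f x ∈ G f i :=
  G_map f (fun _ => rfl) hx

theorem Gs_map (g : M →ₗ[k] N) (h : ∀ x, g (f x) = f' (g x)) {S : Set ℤ} {x : M}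
    (hx : x ∈ Gs f S) : g x ∈ Gs f' S := by
  have h1 : Gs f S ≤ (Gs f' S).comap g := by
    refine iSup₂_le fun i hi => ?_
    intro y hy
    exact G_le_Gs hi (G_map g h hy)
  exact h1 hx

theorem Gs_stable {S : Set ℤ} {x : M} (hx : x ∈ Gs f S) : f x ∈ Gs f S :=
  Gs_map f (fun _ => rfl) hx

theorem Gs_exists {S : Set ℤ} {x : M} (hx : x ∈ Gs f S) :
    ∃ (s : Finset ℤ) (y : ℤ → M), (∀ i ∈ s, i ∈ S) ∧ (∀ i, y i ∈ G f i) ∧ x = ∑ i ∈ s, y i := by
  obtain ⟨y, hy, hyx⟩ := (Submodule.mem_iSup_iff_exists_finsupp _ _).1 hx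
  have h1 : ∀ i, y i ∈ G f i := by
    intro i
    have h2 : (⨆ (_ : i ∈ S), G f i) ≤ G f i := iSup_le fun _ => le_rfl
    exact h2 (hy i)
  refine ⟨y.support, y, ?_, h1, hyx.symm⟩
  intro i hi
  by_contra h
  have h3 : (⨆ (_ : i ∈ S), G f i) = ⊥ := iSup_neg h
  have h4 := hy i
  rw [h3] at h4
  exact (Finsupp.mem_support_iff.1 hi) ((Submodule.mem_bot k).1 h4)

theorem Gs_sup {S S' : Set ℤ} : Gs f (S ∪ S') = Gs f S ⊔ Gs f S' :=
  iSup_union

theorem Eg_key (g : M →ₗ[k] N) (h : ∀ x, g (f x) = f' (g x)) (c : k) (m : ℕ) (y : M) :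
    g (((f - c • (1 : Module.End k M)) ^ m) y) =
      ((f' - c • (1 : Module.End k N)) ^ m) (g y) := by
  induction m generalizing y with
  | zero => rfl
  | succ m ih =>
    rw [pow_succ, Module.End.mul_apply, ih, pow_succ, Module.End.mul_apply]
    congr 1
    simp [h]

theorem Eg_inv {i c : k} (hic : i ≠ c) (n : ℕ) (z : M)
    (hz : ((f - i • (1 : Module.End k M)) ^ n) z = 0) :
    ∃ w : M, ((f - i • (1 : Module.End k M)) ^ n) w = 0 ∧ f w - c • w = z := by
  induction n generalizing z with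
  | zero =>
    refine ⟨0, by simp, ?_⟩
    have : z = 0 := hz
    rw [this]; simp
  | succ n ih =>
    rw [pow_succ, Module.End.mul_apply] at hz
    obtain ⟨w, hw, hwz⟩ := ih _ hz
    have hic' : i - c ≠ 0 := sub_ne_zero.2 hic
    refine ⟨(i - c)⁻¹ • (z - w), ?_, ?_⟩
    · rw [map_smul, map_sub]
      have h1 : ((f - i • (1 : Module.End k M)) ^ (n + 1)) z = 0 := by
        rw [pow_succ, Module.End.mul_apply]; exact hz
      have h2 : ((f - i • (1 : Module.End k M)) ^ (n + 1)) w = 0 := by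
        rw [pow_succ', Module.End.mul_apply, hw, map_zero]
      rw [h1, h2, sub_zero, smul_zero]
    · have h3 : f w = (f z - i • z) + c • w := by
        rw [sub_eq_iff_eq_add] at hwz
        rw [hwz]; simp
      rw [map_smul, map_sub, h3, smul_comm c (i - c)⁻¹, ← smul_sub]
      have h4 : f z - (f z - i • z + c • w) - c • (z - w) = (i - c) • z := by
        rw [smul_sub, sub_smul]; abel
      rw [h4, smul_smul, inv_mul_cancel₀ hic', one_smul]

variable [CharZero k]

theorem G_indep (f : M →ₗ[k] M) : iSupIndep (G f) :=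
  (Module.End.independent_maxGenEigenspace f).comp Int.cast_injective

theorem G_unique {s : Finset ℤ} {y z : ℤ → M} (hy : ∀ i, y i ∈ G f i) (hz : ∀ i, z i ∈ G f i)
    (h : ∑ i ∈ s, y i = ∑ i ∈ s, z i) {i : ℤ} (hi : i ∈ s) : y i = z i := by
  have hd : ∀ j, y j - z j ∈ G f j := fun j => Submodule.sub_mem _ (hy j) (hz j)
  have hsum : ∑ j ∈ s, (y j - z j) = 0 := by rw [Finset.sum_sub_distrib, h, sub_self]
  have h1 : (y i - z i) = - ∑ j ∈ s.erase i, (y j - z j) := by
    rw [← Finset.add_sum_erase _ _ hi] at hsum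
    exact eq_neg_of_add_eq_zero_left hsum
  have h2 : y i - z i ∈ ⨆ (j) (_ : j ≠ i), G f j := by
    rw [h1]
    refine Submodule.neg_mem _ (Submodule.sum_mem _ fun j hj => ?_)
    exact (le_iSup₂_of_le (f := fun j (_ : j ≠ i) => G f j) j (Finset.ne_of_mem_erase hj) le_rfl)
      (hd j)
  have h3 := (Submodule.disjoint_def.1 (G_indep f i)) _ (hd i) h2
  exact sub_eq_zero.1 h3

theorem Gs_disj {S S' : Set ℤ} (h : Disjoint S S') : Disjoint (Gs f S) (Gs f S') := by
  rw [Submodule.disjoint_def]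
  intro x hx hx'
  obtain ⟨s, y, hs, hy, hxy⟩ := Gs_exists hx
  obtain ⟨s', y', hs', hy', hxy'⟩ := Gs_exists hx'
  have hY : ∀ i, (if i ∈ s then y i else 0) ∈ G f i := by
    intro i
    split_ifs
    · exact hy i
    · exact Submodule.zero_mem _
  have hZ : ∀ i, (if i ∈ s' then y' i else 0) ∈ G f i := by
    intro i
    split_ifs
    · exact hy' i
    · exact Submodule.zero_mem _
  have h1 : ∑ i ∈ s ∪ s', (if i ∈ s then y i else 0) = x := by
    rw [hxy, ← Finset.sum_filter]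
    congr 1
    ext i
    simp only [Finset.mem_filter, Finset.mem_union]
    tauto
  have h2 : ∑ i ∈ s ∪ s', (if i ∈ s' then y' i else 0) = x := by
    rw [hxy', ← Finset.sum_filter]
    congr 1
    ext i
    simp only [Finset.mem_filter, Finset.mem_union]
    tauto
  rw [hxy]
  refine Finset.sum_eq_zero fun i hi => ?_
  have h3 := G_unique (f := f) hY hZ (h1.trans h2.symm) (Finset.mem_union_left s' hi)
  have h4 : i ∉ s' := fun h5 => (Set.disjoint_left.1 h) (hs i hi) (hs' i h5)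
  rw [if_pos hi, if_neg h4] at h3
  exact h3

theorem sat {S : Set ℤ} {c : ℤ} (hc : c ∈ S) {y : M} (h : f y - (c : k) • y ∈ Gs f S) :
    y ∈ Gs f S := by
  obtain ⟨s, z, hs, hz, hyz⟩ := Gs_exists h
  have hw : ∀ i : ℤ, ∃ w ∈ G f i, i ≠ c → f w - (c : k) • w = z i := by
    intro i
    by_cases hi : i = c
    · exact ⟨0, Submodule.zero_mem _, fun h => absurd hi h⟩
    · obtain ⟨n, hn⟩ := mem_G.1 (hz i)
      have hic : (i : k) ≠ (c : k) := fun h => hi (Int.cast_injective h)
      obtain ⟨w, hw1, hw2⟩ := Eg_inv hic n (z i) hn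
      exact ⟨w, mem_G.2 ⟨n, hw1⟩, fun _ => hw2⟩
  choose w hw1 hw2 using hw
  have h1 : f (y - ∑ i ∈ s.erase c, w i) - (c : k) • (y - ∑ i ∈ s.erase c, w i) ∈ G f c := by
    have h2 : f (y - ∑ i ∈ s.erase c, w i) - (c : k) • (y - ∑ i ∈ s.erase c, w i) =
        (f y - (c : k) • y) - ∑ i ∈ s.erase c, z i := by
      have h3 : ∑ i ∈ s.erase c, z i = ∑ i ∈ s.erase c, (f (w i) - (c : k) • w i) :=
        Finset.sum_congr rfl fun i hi => (hw2 i (Finset.ne_of_mem_erase hi)).symm
      rw [h3, Finset.sum_sub_distrib, ← Finset.smul_sum, ← map_sum, map_sub, smul_sub]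
      abel
    rw [h2, hyz]
    by_cases hcs : c ∈ s
    · rw [← Finset.add_sum_erase _ _ hcs, add_sub_cancel_right]
      exact hz c
    · rw [Finset.erase_eq_of_notMem hcs, sub_self]
      exact Submodule.zero_mem _
  have h4 : y - ∑ i ∈ s.erase c, w i ∈ G f c := by
    obtain ⟨n, hn⟩ := mem_G.1 h1
    refine mem_G.2 ⟨n + 1, ?_⟩
    rw [pow_succ, Module.End.mul_apply]
    exact hn
  have h5 : y = (y - ∑ i ∈ s.erase c, w i) + ∑ i ∈ s.erase c, w i := by abel
  rw [h5]
  refine Submodule.add_mem _ (G_le_Gs hc h4) (Submodule.sum_mem _ fun i hi => ?_)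
  exact G_le_Gs (hs i (Finset.mem_of_mem_erase hi)) (hw1 i)

theorem sat_pow {S : Set ℤ} {c : ℤ} (hc : c ∈ S) {y : M} (n : ℕ)
    (h : ((f - (c : k) • (1 : Module.End k M)) ^ n) y ∈ Gs f S) : y ∈ Gs f S := by
  induction n generalizing y with
  | zero => exact h
  | succ n ih =>
    rw [pow_succ, Module.End.mul_apply] at h
    exact sat hc (ih h)

omit [CharZero k] in
theorem Gs_surj {g : M →ₗ[k] N} (hg : Function.Surjective g) (h : ∀ x, g (f x) = f' (g x))
    {S : Set ℤ} (hS : Gs f S = ⊤) : Gs f' S = ⊤ := by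
  rw [eq_top_iff]
  intro y _
  obtain ⟨x, rfl⟩ := hg y
  exact Gs_map g h (by rw [hS]; exact Submodule.mem_top)

theorem G_lift {g : M →ₗ[k] N} (hg : Function.Surjective g) (h : ∀ x, g (f x) = f' (g x))
    (hS : Gs f Set.univ = ⊤) {i : ℤ} {y : N} (hy : y ∈ G f' i) : ∃ x ∈ G f i, g x = y := by
  obtain ⟨x0, hx0⟩ := hg y
  obtain ⟨s, x, -, hx, hxs⟩ := Gs_exists (f := f) (S := Set.univ) (x := x0)
    (by rw [hS]; exact Submodule.mem_top)
  have hX : ∀ j, (if j ∈ s then x j else 0) ∈ G f j := by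
    intro j
    split_ifs
    · exact hx j
    · exact Submodule.zero_mem _
  have hY : ∀ j, (if j = i then y else 0) ∈ G f' j := by
    intro j
    split_ifs with hj
    · rw [hj]; exact hy
    · exact Submodule.zero_mem _
  refine ⟨if i ∈ s then x i else 0, hX i, ?_⟩
  have h1 : ∑ j ∈ insert i s, g (if j ∈ s then x j else 0) =
      ∑ j ∈ insert i s, (if j = i then y else 0) := by
    rw [Finset.sum_ite_eq' (insert i s) i (fun _ => y), if_pos (Finset.mem_insert_self i s),
      ← map_sum, ← hx0, hxs]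
    congr 1
    rw [← Finset.sum_filter]
    congr 1
    ext j
    simp only [Finset.mem_filter, Finset.mem_insert]
    tauto
  have h2 := G_unique (f := f') (y := fun j => g (if j ∈ s then x j else 0))
    (z := fun j => if j = i then y else 0) (fun j => G_map g h (hX j)) hY h1
    (Finset.mem_insert_self i s)
  simpa using h2

theorem G_mod (R : Submodule k M) (hR : ∀ x ∈ R, f x ∈ R) (hS : Gs f Set.univ = ⊤) {i : ℤ}
    {y : M} (n : ℕ) (hy : ((f - (i : k) • (1 : Module.End k M)) ^ n) y ∈ R) :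
    ∃ x ∈ G f i, y - x ∈ R := by
  have hq : ∀ x, R.mkQ (f x) = R.mapQ R f hR (R.mkQ x) := fun x => rfl
  have h1 : R.mkQ y ∈ G (R.mapQ R f hR) i := by
    refine mem_G.2 ⟨n, ?_⟩
    rw [← Eg_key R.mkQ hq]
    exact (Submodule.Quotient.mk_eq_zero R).2 hy
  obtain ⟨x, hx, hxy⟩ := G_lift (Submodule.mkQ_surjective R) hq hS h1
  refine ⟨x, hx, ?_⟩
  rw [← Submodule.Quotient.eq]
  exact hxy.symm

theorem G_eq_bot {S : Set ℤ} (hS : Gs f S = ⊤) {i : ℤ} (hi : i ∉ S) : G f i = ⊥ := by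
  have h1 : Disjoint (Gs f {i}) (Gs f S) := Gs_disj (Set.disjoint_singleton_left.2 hi)
  rw [hS, disjoint_top] at h1
  rw [eq_bot_iff, ← h1]
  exact G_le_Gs rfl

end H37.UK
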