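import Pool.Agent.H37.UK.Rd
import Pool.Agent.H37.UK.Eg

/-!
# Row An: the eigenvalues of `nu 0`

`ν = D.nu 𝒜 0`, `D = eul 𝒜` the Euler derivation of `A`.

* `an_W`: put `W j = {∑_q a_q * ι b_q | a_q ∈ A, b_q ∈ Jp j}` (span) and
  `W' j = ` the span of the `a * ι b`, `a ∈ ge 𝒜 1`, `b ∈ Jp j`.
  (1) `eul` maps `W' j` into `W' j`: `eul (a ι b) = eul a ι b + a ∑ x_l ι (nu l b)` (`eul_der`, `eul_ι`), where
  `a x_l ∈ ge 𝒜 1` (`ge_right`) and `nu l b ∈ Jp j` (`nu_Jp`), `eul a ∈ ge 𝒜 1` (`eul_ge_one`).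
  (2) for `b ∈ Jp j`: `eul (ι b) - ι (ν b) ∈ W' j`: it is `∑_{l ≠ 0} x_l ι (nu l b)` (`x_zero`, `one_ι`,
  `x_ge`, `nu_Jp`).
  (3) if `b : B` and `ι b ∈ W' j`, then `b ∈ Jp (j + 1)`: `b = co 0 (ι b)` (`co_ι_zero`), and
  `co 0 (a ι b') = co 0 a * b' ∈ J * Jp j` for `a ∈ ge 𝒜 1`, `b' ∈ Jp j` (`co_mul`, `co_ge`).
* `ann_step`: let `b ∈ Jp j`, and let `i_1, …, i_r` be the integers `j, j + 1, …, s`.  By (1), (2) and
  induction on the number of factors,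
  `∏ (eul - i_q) (ι b) - ι (∏ (ν - i_q) b) ∈ W' j` (note that `ν` maps `Jp j` into `Jp j`, `nu_Jp`).
  As `ι b ∈ ge 𝒜 j` (`Jp_ι`) and `(eul - i)` maps `ge 𝒜 i` into `ge 𝒜 (i + 1)` (`eul_sub_ge`), the first term
  is in `ge 𝒜 (s + 1) = ⊥` (apply the factors in the order `j, j + 1, …`).  So
  `ι (∏ (ν - i_q) b) ∈ W' j` and `∏ (ν - i_q) b ∈ Jp (j + 1)` by (3).
  The statement is given as: there is a list `L` of integers `≥ j` such that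
  `L.foldl (fun y i => ν y - i • y) b ∈ Jp (j + 1)`, for all `b ∈ Jp j`.
* `an_J'`: by `Jp_nil`, `Jp N = ⊥`.  Descending induction: `Jp j ≤ Gs ν (Ici j)` for all `j : ℕ`
  (`N - j` is the induction variable): for `b ∈ Jp j` the element `L.foldl … b` is in
  `Jp (j + 1) ≤ Gs ν (Ici (j + 1)) ≤ Gs ν (Ici j)`; by induction on the list `L` (whose members are `≥ j`)
  and `sat`, `b ∈ Gs ν (Ici j)`.
* `an_top`: `an_J'` for `j = 0`.
* `an_J`: `≤` is `an_J'` for `j = 1` (`Jp_one`).  `≥`: let `b ∈ G ν i`, `i ≥ 1`, `(ν - i)^r b = 0`.  By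
  induction on `r`: `b ∈ J`: for `r = 0`, `b = 0`.  `(ν - i) b ∈ J` by induction and `ν b ∈ J`
  (`nu_zero_J`), so `i b ∈ J`, `b ∈ J`.
-/

universe u

namespace H37.UK

open CategoryTheory H60.KZ

variable {k : Type u} [Field k] [CharZero k]

namespace Desc

variable {A B : Type u} [Ring A] [Algebra k A] [Ring B] [Algebra k B] {m n : ℕ}
  (D : Desc k A B m n) {𝒜 : ℤ → Submodule k A} [GradedAlgebra 𝒜] [PosGr 𝒜]
  [IsSemisimpleRing (𝒜 0)] [Module.Finite k A]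

omit [CharZero k] [PosGr 𝒜] [IsSemisimpleRing (𝒜 0)] [Module.Finite k A] [GradedAlgebra 𝒜] in
variable (𝒜) in
/-- the span of the `a * ι b`, `a ∈ ge 𝒜 1`, `b ∈ Jp j` -/
def An_W (j : ℕ) : Submodule k A :=
  Submodule.span k {z | ∃ a ∈ ge 𝒜 1, ∃ b ∈ D.Jp 𝒜 j, z = a * D.ι b}

theorem An_gen {j : ℕ} {a : A} (ha : a ∈ ge 𝒜 1) {b : B} (hb : b ∈ D.Jp 𝒜 j) :
    a * D.ι b ∈ D.An_W 𝒜 j :=
  Submodule.subset_span ⟨a, ha, b, hb, rfl⟩

theorem An_eul (he : D.ι 1 ∈ 𝒜 0) {j : ℕ} {z : A} (hz : z ∈ D.An_W 𝒜 j) :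
    eul 𝒜 z ∈ D.An_W 𝒜 j := by
  have h1 : D.An_W 𝒜 j ≤ (D.An_W 𝒜 j).comap (eul 𝒜) := by
    refine Submodule.span_le.2 ?_
    rintro _ ⟨a, ha, b, hb, rfl⟩
    change eul 𝒜 (a * D.ι b) ∈ D.An_W 𝒜 j
    rw [eul_der 𝒜, D.eul_ι 𝒜 he, Finset.mul_sum]
    refine Submodule.add_mem _ (D.An_gen (eul_ge_one a) hb) (Submodule.sum_mem _ fun l _ => ?_)
    rw [← mul_assoc]
    exact D.An_gen (ge_right _ ha) (D.nu_Jp he l j hb)
  exact h1 hz

theorem An_two (he : D.ι 1 ∈ 𝒜 0) {j : ℕ} {b : B} (hb : b ∈ D.Jp 𝒜 j) :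
    eul 𝒜 (D.ι b) - D.ι (D.nu 𝒜 0 b) ∈ D.An_W 𝒜 j := by
  rw [D.eul_ι 𝒜 he, ← Finset.add_sum_erase _ _ (Finset.mem_univ 0), D.x_zero, D.one_ι,
    add_sub_cancel_left]
  refine Submodule.sum_mem _ fun l hl => ?_
  exact D.An_gen (D.x_ge (Finset.ne_of_mem_erase hl)) (D.nu_Jp he l j hb)

theorem An_three {j : ℕ} {b : B} (hb : D.ι b ∈ D.An_W 𝒜 j) : b ∈ D.Jp 𝒜 (j + 1) := by
  have h1 : D.An_W 𝒜 j ≤ (D.Jp 𝒜 (j + 1)).comap (D.co 0) := by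
    refine Submodule.span_le.2 ?_
    rintro _ ⟨a, ha, b, hb, rfl⟩
    change D.co 0 (a * D.ι b) ∈ D.Jp 𝒜 (j + 1)
    rw [D.co_mul]
    exact Submodule.mul_mem_mul (D.co_ge ha) hb
  have h2 : D.co 0 (D.ι b) ∈ D.Jp 𝒜 (j + 1) := h1 hb
  rwa [D.co_ι_zero] at h2

theorem An_fold (he : D.ι 1 ∈ 𝒜 0) (j : ℕ) (L : List ℤ) (y : A) (b : B)
    (hb : b ∈ D.Jp 𝒜 j) (hy : y - D.ι b ∈ D.An_W 𝒜 j) :
    L.foldl (fun (y : A) (i : ℤ) => eul 𝒜 y - (i : k) • y) y -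
      D.ι (L.foldl (fun (y : B) (i : ℤ) => D.nu 𝒜 0 y - (i : k) • y) b) ∈ D.An_W 𝒜 j := by
  induction L generalizing y b with
  | nil => exact hy
  | cons i L ih =>
    rw [List.foldl_cons, List.foldl_cons]
    refine ih _ _ (Submodule.sub_mem _ (D.nu_Jp he 0 j hb) (Submodule.smul_mem _ _ hb)) ?_
    have h1 : eul 𝒜 y - (i : k) • y - D.ι (D.nu 𝒜 0 b - (i : k) • b) =
        (eul 𝒜 (y - D.ι b) - (i : k) • (y - D.ι b)) +
          (eul 𝒜 (D.ι b) - D.ι (D.nu 𝒜 0 b)) := by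
      rw [map_sub, map_sub, map_smul, smul_sub]
      abel
    rw [h1]
    exact Submodule.add_mem _ (Submodule.sub_mem _ (D.An_eul he hy) (Submodule.smul_mem _ _ hy))
      (D.An_two he hb)

omit [CharZero k] [PosGr 𝒜] [IsSemisimpleRing (𝒜 0)] [Module.Finite k A] in
theorem An_ge (i0 : ℤ) {y : A} (hy : y ∈ ge 𝒜 i0) (r : ℕ) :
    ((List.range r).map (fun q : ℕ => i0 + q)).foldl
      (fun (y : A) (i : ℤ) => eul 𝒜 y - (i : k) • y) y ∈ ge 𝒜 (i0 + r) := by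
  induction r with
  | zero =>
    rw [Nat.cast_zero, add_zero]
    exact hy
  | succ r ih =>
    rw [List.range_succ, List.map_append, List.foldl_append, List.map_cons, List.map_nil,
      List.foldl_cons, List.foldl_nil]
    have h1 := eul_sub_ge ih
    rw [Nat.cast_succ, ← add_assoc]
    exact h1

theorem ann_step (he : D.ι 1 ∈ 𝒜 0) (j : ℕ) : ∃ L : List ℤ, (∀ i ∈ L, (j : ℤ) ≤ i) ∧
    ∀ b ∈ D.Jp 𝒜 j, L.foldl (fun (y : B) (i : ℤ) => D.nu 𝒜 0 y - (i : k) • y) b ∈ D.Jp 𝒜 (j + 1) := by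
  obtain ⟨s, hs⟩ := ge_top (𝒞 := 𝒜)
  refine ⟨(List.range (s + 1)).map (fun q : ℕ => (j : ℤ) + q), ?_, ?_⟩
  · intro i hi
    obtain ⟨q, -, rfl⟩ := List.mem_map.1 hi
    omega
  · intro b hb
    apply D.An_three
    have h1 := D.An_fold he j ((List.range (s + 1)).map (fun q : ℕ => (j : ℤ) + q)) (D.ι b) b hb
      (by rw [sub_self]; exact Submodule.zero_mem _)
    have h2 := An_ge (j : ℤ) (D.Jp_ι j hb) (s + 1)
    have h3 : ge 𝒜 ((j : ℤ) + ((s + 1 : ℕ) : ℤ)) ≤ ge 𝒜 ((s : ℤ) + 1) :=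
      ge_anti (by push_cast; omega)
    have h4 := h3 h2
    rw [hs, Submodule.mem_bot] at h4
    rw [h4, zero_sub] at h1
    have h5 := Submodule.neg_mem _ h1
    rwa [neg_neg] at h5

omit [PosGr 𝒜] [IsSemisimpleRing (𝒜 0)] [Module.Finite k A] in
theorem An_sat (S : Set ℤ) (L : List ℤ) (hL : ∀ i ∈ L, i ∈ S) (b : B)
    (h : L.foldl (fun (y : B) (i : ℤ) => D.nu 𝒜 0 y - (i : k) • y) b ∈ Gs (D.nu 𝒜 0) S) :
    b ∈ Gs (D.nu 𝒜 0) S := by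
  induction L generalizing b with
  | nil => exact h
  | cons i L ih =>
    rw [List.foldl_cons] at h
    have h1 := ih (fun i hi => hL i (List.mem_cons_of_mem _ hi)) _ h
    exact sat (hL i List.mem_cons_self) h1

theorem an_Jp (he : D.ι 1 ∈ 𝒜 0) (j : ℕ) : D.Jp 𝒜 j ≤ Gs (D.nu 𝒜 0) (Set.Ici (j : ℤ)) := by
  obtain ⟨N, hN⟩ := D.Jp_nil (𝒜 := 𝒜)
  have hanti : Antitone (D.Jp 𝒜) := antitone_nat_of_succ_le fun j => D.Jp_anti j
  have key : ∀ d j : ℕ, N ≤ j + d → D.Jp 𝒜 j ≤ Gs (D.nu 𝒜 0) (Set.Ici (j : ℤ)) := by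
    intro d
    induction d with
    | zero =>
      intro j hj
      have h1 : D.Jp 𝒜 j ≤ D.Jp 𝒜 N := hanti (by omega)
      rw [hN] at h1
      exact h1.trans bot_le
    | succ d ih =>
      intro j hj b hb
      obtain ⟨L, hL, hLb⟩ := D.ann_step he j
      have h1 := ih (j + 1) (by omega) (hLb b hb)
      have h2 : Set.Ici (((j + 1 : ℕ)) : ℤ) ⊆ Set.Ici (j : ℤ) := by
        intro i hi
        rw [Set.mem_Ici] at hi ⊢
        push_cast at hi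
        omega
      exact D.An_sat (Set.Ici (j : ℤ)) L hL b (Gs_mono h2 h1)
  exact key N j (by omega)

theorem an_top (he : D.ι 1 ∈ 𝒜 0) : Gs (D.nu 𝒜 0) (Set.Ici 0) = ⊤ := by
  rw [eq_top_iff]
  have h1 := D.an_Jp he 0
  rw [Nat.cast_zero] at h1
  exact h1

theorem an_J (he : D.ι 1 ∈ 𝒜 0) : D.J 𝒜 = Gs (D.nu 𝒜 0) (Set.Ici 1) := by
  apply le_antisymm
  · have h1 := D.an_Jp he 1
    rw [Nat.cast_one, D.Jp_one] at h1
    exact h1
  · refine iSup₂_le fun i hi => ?_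
    intro b hb
    obtain ⟨r, hr⟩ := mem_G.1 hb
    clear hb
    have hi0 : (i : k) ≠ 0 := by
      rw [Set.mem_Ici] at hi
      exact Int.cast_ne_zero.2 (by omega)
    induction r generalizing b with
    | zero =>
      have h0 : b = 0 := hr
      rw [h0]
      exact Submodule.zero_mem _
    | succ r ih =>
      rw [pow_succ, Module.End.mul_apply] at hr
      have h1 := ih hr
      have h2 := D.nu_zero_J (𝒜 := 𝒜) b
      have h3 : (i : k) • b ∈ D.J 𝒜 := by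
        have h4 := Submodule.sub_mem _ h2 h1
        have h5 : D.nu 𝒜 0 b - (D.nu 𝒜 0 - (i : k) • (1 : Module.End k B)) b = (i : k) • b := by
          simp
        rwa [h5] at h4
      have h6 := Submodule.smul_mem _ (i : k)⁻¹ h3
      rwa [smul_smul, inv_mul_cancel₀ hi0, one_smul] at h6

end Desc

end H37.UK
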