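import Pool.Agent.H37.UK.Eh
import Pool.Agent.H60.KZ.GmB

/-!
# Row Cg: the functor `gr` is exact

Recall `cmp (gr h) i = G δ i` by definition (so elements of `cmp (gr h) i` are pairs), `grMap_cm`, `gr_act`, and
`hom_ext_cm`, `shortExact_iff_cm`, `cm_comp` of Pool.Agent.H60.KZ.GmB.

* `gr_ses`: the composite is zero (`hom_ext_cm`).  `shortExact_iff_cm`: injectivity is clear.
  Middle: `y ∈ G δM i`, `g y = 0`, so `y = f x`; `x ∈ G δL i` since
  `f ((δL - i)^n x) = (δM - i)^n (f x) = 0` and `f` is injective (`mem_G`).  Surjectivity: `G_lift`.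
* `gr_fd`: the components are subspaces of `M`; `G_bdd`.
* `gr_supp`: `G_eq_bot`.
-/

universe u

namespace H37.UK

open CategoryTheory H60.KZ

variable {k : Type u} [Field k] [CharZero k] {C : Type u} [Ring C] [Algebra k C]
  {𝒞 : ℤ → Submodule k C} [GradedAlgebra 𝒞]
  {L M N : Type u} [AddCommGroup L] [Module k L] [Module C L] [IsScalarTower k C L]
  [AddCommGroup M] [Module k M] [Module C M] [IsScalarTower k C M]
  [AddCommGroup N] [Module k N] [Module C N] [IsScalarTower k C N]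
  {δL : L →ₗ[k] L} {δM : M →ₗ[k] M} {δN : N →ₗ[k] N}

theorem gr_ses (hL : IsGm 𝒞 δL) (hM : IsGm 𝒞 δM) (hN : IsGm 𝒞 δN) (f : L →ₗ[C] M)
    (g : M →ₗ[C] N) (hf : ∀ x, f (δL x) = δM (f x)) (hg : ∀ x, g (δM x) = δN (g x))
    (h1 : Function.Injective f) (h2 : ∀ y, g y = 0 ↔ ∃ x, f x = y)
    (h3 : Function.Surjective g) (htop : Gs δM Set.univ = ⊤) :
    ∃ w : grMap hL hM f hf ≫ grMap hM hN g hg = 0,
      (ShortComplex.mk (grMap hL hM f hf) (grMap hM hN g hg) w).ShortExact := by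
  have w : grMap hL hM f hf ≫ grMap hM hN g hg = 0 := by
    refine hom_ext_cm fun i (x : G δL i) => ?_
    rw [cm_comp, cm_zero]
    exact Subtype.ext ((h2 (f x.1)).2 ⟨x.1, rfl⟩)
  refine ⟨w, ?_⟩
  rw [shortExact_iff_cm]
  refine ⟨fun i => ?_, fun i => ?_, fun i => ?_⟩
  · intro (x : G δL i) (y : G δL i) hxy
    have h4 : f x.1 = f y.1 := congrArg (fun z : G δM i => z.1) hxy
    exact Subtype.ext (h1 h4)
  · intro (y : G δM i) hy
    have h4 : g y.1 = 0 := congrArg (fun z : G δN i => z.1) hy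
    obtain ⟨x, hx⟩ := (h2 y.1).1 h4
    have hxG : x ∈ G δL i := by
      obtain ⟨n, hn⟩ := mem_G.1 y.2
      refine mem_G.2 ⟨n, h1 ?_⟩
      rw [map_zero]
      have h5 := Eg_key (f := δL) (f' := δM) (f.restrictScalars k) hf (i : k) n x
      have h6 : (f.restrictScalars k) x = y.1 := hx
      rw [h6, hn] at h5
      exact h5
    exact ⟨(⟨x, hxG⟩ : G δL i), Subtype.ext hx⟩
  · intro (y : G δN i)
    obtain ⟨x, hx, hxy⟩ := G_lift (f := δM) (f' := δN) (g := g.restrictScalars k) h3 hg htop y.2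
    exact ⟨(⟨x, hx⟩ : G δM i), Subtype.ext hxy⟩

theorem gr_fd [Module.Finite k M] (hM : IsGm 𝒞 δM) : Fd (gr hM) := by
  refine ⟨fun i => ?_, ?_⟩
  · change Module.Finite k (G δM i)
    infer_instance
  · obtain ⟨a, b, hab⟩ := G_bdd δM
    refine ⟨a, b, fun i hi (x : G δM i) => ?_⟩
    have h1 : x.1 ∈ (⊥ : Submodule k M) := (hab i hi).le x.2
    exact Subtype.ext ((Submodule.mem_bot k).1 h1)

theorem gr_supp (hM : IsGm 𝒞 δM) {a b : ℤ} (h : Gs δM (Set.Icc a b) = ⊤) :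
    Supp (gr hM) a b := by
  intro i hi (x : G δM i)
  have h2 : i ∉ Set.Icc a b := by
    intro h3
    rcases hi with hi | hi
    · exact absurd h3.1 (not_le.2 hi)
    · exact absurd h3.2 (not_le.2 hi)
  have h1 : x.1 ∈ (⊥ : Submodule k M) := (G_eq_bot h h2).le x.2
  exact Subtype.ext ((Submodule.mem_bot k).1 h1)

end H37.UK
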