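import Pool.Agent.H37.UK.Df

/-!
# Ungraded descent of Koszulity: definitions (2)

The functor `T M = A e ⊗_B M`, connections on `T M` and on `B ⊗ V`.
-/

universe u

namespace H37.UK

open CategoryTheory H60.KZ TensorProduct

variable {k : Type u} [Field k]

section mulS

variable {C : Type u} [Ring C] [Algebra k C] {M : Type u} [AddCommGroup M] [Module k M]
  [Module C M]

variable (M) in
/-- The subspace `S M`. -/
def mulS (S : Submodule k C) : Submodule k M :=
  Submodule.span k {y | ∃ c ∈ S, ∃ x : M, y = c • x}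

end mulS

section nap

variable {B : Type u} [Ring B] [Algebra k B] {V : Type u} [AddCommGroup V] [Module k V]
  {M : Type u} [AddCommGroup M] [Module k M] [Module B M] [IsScalarTower k B M]

/-- The multiplication `B ⊗ V → M`, `b ⊗ v ↦ b • ψ v`. -/
noncomputable def piP (ψ : V →ₗ[k] M) : B ⊗[k] V →ₗ[B] M :=
  AlgebraTensorModule.lift (LinearMap.toSpanSingleton B (V →ₗ[k] M) ψ)

theorem piP_tmul (ψ : V →ₗ[k] M) (b : B) (v : V) : piP ψ (b ⊗ₜ[k] v) = b • ψ v := rfl

/-- The connection `b ⊗ v ↦ ν b ⊗ v + b • θ v` on `B ⊗ V`. -/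
noncomputable def naP (ν : B →ₗ[k] B) (θ : V →ₗ[k] B ⊗[k] V) : B ⊗[k] V →ₗ[k] B ⊗[k] V :=
  TensorProduct.map ν LinearMap.id + (piP θ).restrictScalars k

theorem naP_tmul (ν : B →ₗ[k] B) (θ : V →ₗ[k] B ⊗[k] V) (b : B) (v : V) :
    naP ν θ (b ⊗ₜ[k] v) = ν b ⊗ₜ[k] v + b • θ v := rfl

end nap

namespace Desc

variable {A B : Type u} [Ring A] [Algebra k A] [Ring B] [Algebra k B] {m n : ℕ}
  (D : Desc k A B m n)

/-- The coordinates of `e a e`. -/
noncomputable def coF (a : A) : Fin (m + 1) → B := (D.coord a).choose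

theorem coF_spec (a : A) : D.ι 1 * a * D.ι 1 = ∑ l, D.x l * D.ι (D.coF a l) :=
  (D.coord a).choose_spec.1

theorem coF_uniq {a : A} {b : Fin (m + 1) → B}
    (h : D.ι 1 * a * D.ι 1 = ∑ l, D.x l * D.ι (b l)) : D.coF a = b :=
  ((D.coord a).choose_spec.2 b h).symm

/-- The coordinate number `l` of `e a e`, as a linear function of `a`. -/
noncomputable def co (l : Fin (m + 1)) : A →ₗ[k] B where
  toFun a := D.coF a l
  map_add' a a' := by
    have : D.coF (a + a') = fun l => D.coF a l + D.coF a' l := by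
      apply D.coF_uniq
      simp only [map_add, mul_add, add_mul, Finset.sum_add_distrib]
      rw [D.coF_spec, D.coF_spec]
    rw [this]
  map_smul' r a := by
    have : D.coF (r • a) = fun l => r • D.coF a l := by
      apply D.coF_uniq
      simp only [map_smul, mul_smul_comm, smul_mul_assoc]
      rw [D.coF_spec, Finset.smul_sum]
    rw [this]
    rfl

theorem co_spec (a : A) : D.ι 1 * a * D.ι 1 = ∑ l, D.x l * D.ι (D.co l a) := D.coF_spec a

theorem co_uniq {a : A} {b : Fin (m + 1) → B}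
    (h : D.ι 1 * a * D.ι 1 = ∑ l, D.x l * D.ι (b l)) (l : Fin (m + 1)) : D.co l a = b l :=
  congrFun (D.coF_uniq h) l

section grading

variable (𝒜 : ℤ → Submodule k A) [GradedAlgebra 𝒜]

/-- The derivations `ν l` of `B`: `eul (ι b) = ∑ x l * ι (ν l b)`. -/
noncomputable def nu (l : Fin (m + 1)) : B →ₗ[k] B := D.co l ∘ₗ eul 𝒜 ∘ₗ D.ι

omit [GradedAlgebra 𝒜] in

/-- The radical of `B`: the elements which are mapped into positive degrees. -/
def J : Submodule k B := (ge 𝒜 1).comap D.ι

/-- The powers of `J`; the zeroth power is `B`. -/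
def Jp : ℕ → Submodule k B
  | 0 => ⊤
  | j + 1 => D.J 𝒜 * Jp j

end grading

section T

variable (M : Type u) [AddCommGroup M] [Module k M] [Module B M]

/-- The relations of `T M`. -/
def Trel : Submodule A (A ⊗[k] M) :=
  Submodule.span A (Set.range fun p : B × M => D.ι p.1 ⊗ₜ[k] p.2 - 1 ⊗ₜ[k] (p.1 • p.2))

/-- The `A`-module `A e ⊗_B M`. -/
def T : Type u := (A ⊗[k] M) ⧸ D.Trel M

noncomputable instance : AddCommGroup (D.T M) :=
  inferInstanceAs (AddCommGroup ((A ⊗[k] M) ⧸ D.Trel M))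

noncomputable instance : Module A (D.T M) :=
  inferInstanceAs (Module A ((A ⊗[k] M) ⧸ D.Trel M))

noncomputable instance : Module k (D.T M) :=
  inferInstanceAs (Module k ((A ⊗[k] M) ⧸ D.Trel M))

instance : IsScalarTower k A (D.T M) :=
  inferInstanceAs (IsScalarTower k A ((A ⊗[k] M) ⧸ D.Trel M))

instance [Module.Finite k A] [Module.Finite k M] : Module.Finite k (D.T M) :=
  inferInstanceAs (Module.Finite k ((A ⊗[k] M) ⧸ D.Trel M))

variable {M}

/-- The class of `a ⊗ x`. -/
noncomputable def tm (a : A) (x : M) : D.T M := Submodule.Quotient.mk (a ⊗ₜ[k] x)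

theorem tm_add (a : A) (x y : M) : D.tm a (x + y) = D.tm a x + D.tm a y :=
  congrArg Submodule.Quotient.mk (tmul_add a x y)

theorem tm_smul (r : k) (a : A) (x : M) : D.tm a (r • x) = r • D.tm a x :=
  congrArg Submodule.Quotient.mk (tmul_smul r a x)

theorem add_tm (a b : A) (x : M) : D.tm (a + b) x = D.tm a x + D.tm b x :=
  congrArg Submodule.Quotient.mk (add_tmul a b x)

theorem smul_tm (r : k) (a : A) (x : M) : D.tm (r • a) x = r • D.tm a x :=
  congrArg Submodule.Quotient.mk (smul_tmul' r a x)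

theorem mul_tm (a b : A) (x : M) : D.tm (a * b) x = a • D.tm b x :=
  rfl

/-- `a ⊗ x` as a bilinear map. -/
noncomputable def tmL : A →ₗ[k] M →ₗ[k] D.T M :=
  LinearMap.mk₂ k D.tm D.add_tm D.smul_tm D.tm_add (fun r a x => D.tm_smul r a x)

theorem tm_rel (a : A) (b : B) (x : M) : D.tm (a * D.ι b) x = D.tm a (b • x) := by
  have h : (D.ι b ⊗ₜ[k] x - 1 ⊗ₜ[k] (b • x) : A ⊗[k] M) ∈ D.Trel M :=
    Submodule.subset_span ⟨(b, x), rfl⟩
  have h2 : a • (D.ι b ⊗ₜ[k] x - 1 ⊗ₜ[k] (b • x) : A ⊗[k] M) ∈ D.Trel M :=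
    Submodule.smul_mem _ a h
  rw [smul_sub, smul_tmul', smul_tmul', smul_eq_mul, smul_eq_mul, mul_one] at h2
  exact (Submodule.Quotient.eq _).2 h2

theorem T_induction {p : D.T M → Prop} (y : D.T M) (h0 : p 0) (ht : ∀ a x, p (D.tm a x))
    (ha : ∀ y z, p y → p z → p (y + z)) : p y := by
  obtain ⟨z, rfl⟩ := Submodule.Quotient.mk_surjective _ y
  induction z using TensorProduct.induction_on with
  | zero => exact h0
  | tmul a x => exact ht a x
  | add y z hy hz => exact ha _ _ hy hz

variable {N : Type u} [AddCommGroup N] [Module k N]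

/-- The universal property of `T M`. -/
noncomputable def Tlift (F : A →ₗ[k] M →ₗ[k] N) (hF : ∀ a b x, F (a * D.ι b) x = F a (b • x)) :
    D.T M →ₗ[k] N :=
  Submodule.liftQ ((D.Trel M).restrictScalars k) (TensorProduct.lift F) (by
    have key : ∀ y ∈ D.Trel M, ∀ a : A, TensorProduct.lift F (a • y) = 0 := by
      intro y hy
      induction hy using Submodule.span_induction with
      | mem y hy =>
        obtain ⟨⟨b, x⟩, rfl⟩ := hy
        intro a
        rw [smul_sub, smul_tmul', smul_tmul', smul_eq_mul, smul_eq_mul, mul_one, map_sub,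
          TensorProduct.lift.tmul, TensorProduct.lift.tmul, hF, sub_self]
      | zero => intro a; rw [smul_zero, map_zero]
      | add y z _ _ hy hz => intro a; rw [smul_add, map_add, hy, hz, add_zero]
      | smul c y _ hy => intro a; rw [smul_smul]; exact hy _
    intro y hy
    have := key y hy 1
    rwa [one_smul] at this)

theorem Tlift_tm (F : A →ₗ[k] M →ₗ[k] N) (hF : ∀ a b x, F (a * D.ι b) x = F a (b • x))
    (a : A) (x : M) : D.Tlift F hF (D.tm a x) = F a x := rfl

end T

end Desc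

end H37.UK
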