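import Pool.Agent.H37.UK.Df

/-!
# The Euler derivation
-/

universe u

namespace H37.UK

open CategoryTheory H60.KZ

variable {k : Type u} [Field k] {C : Type u} [Ring C] [Algebra k C]

theorem eul_mem (𝒞 : ℤ → Submodule k C) [GradedAlgebra 𝒞] {i : ℤ} {c : C} (hc : c ∈ 𝒞 i) :
    eul 𝒞 c = (i : k) • c := by
  unfold eul
  rw [LinearMap.comp_apply]
  change (DirectSum.toModule k ℤ C fun i => (i : k) • (𝒞 i).subtype)
    (DirectSum.decompose 𝒞 c) = _
  rw [DirectSum.decompose_of_mem 𝒞 hc]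
  exact DirectSum.toModule_lof (R := k) (ι := ℤ) (M := fun i => 𝒞 i)
    (φ := fun i => (i : k) • (𝒞 i).subtype) i ⟨c, hc⟩

theorem gr_ind (𝒞 : ℤ → Submodule k C) [GradedAlgebra 𝒞] {p : C → Prop} (h0 : p 0)
    (hm : ∀ i, ∀ c ∈ 𝒞 i, p c) (ha : ∀ a b, p a → p b → p (a + b)) (c : C) : p c :=
  DirectSum.Decomposition.inductionOn 𝒞 h0 (fun {i} m => hm i m.1 m.2)
    (fun a b ha' hb' => ha a b ha' hb') c

theorem eul_der (𝒞 : ℤ → Submodule k C) [GradedAlgebra 𝒞] : IsDer (eul 𝒞) := by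
  intro a b
  induction a using gr_ind (𝒞 := 𝒞) with
  | h0 => simp
  | ha a a' h h' => rw [add_mul, map_add, h, h', map_add, add_mul, add_mul]; abel
  | hm i a ha =>
    induction b using gr_ind (𝒞 := 𝒞) with
    | h0 => simp
    | ha b b' h h' => rw [mul_add, map_add, h, h', map_add, mul_add, mul_add]; abel
    | hm j b hb =>
      rw [eul_mem 𝒞 (SetLike.mul_mem_graded ha hb), eul_mem 𝒞 ha, eul_mem 𝒞 hb, smul_mul_assoc,
        mul_smul_comm, ← add_smul, Int.cast_add]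

end H37.UK
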