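import Pool.Agent.H37.UK.Eg
import Pool.Agent.H37.UK.Dg
import Pool.Agent.H37.UK.Ea

/-!
# Row Eh: generalised eigenspaces (2)

* `Gs_inj`: let `x : M`, `g x = ∑_{i ∈ s} y i`, `s ⊆ S`, `y i ∈ G f' i` (`Gs_exists`).  We show by
  induction on the finite set `s` (for all `x`) that `x ∈ Gs f S`: if `s = ∅`, then `g x = 0`, `x = 0`.
  If `s = insert c s'`, let `(f' - c)^n (y c) = 0` (`mem_G`).  Then
  `g ((f - c)^n x) = (f' - c)^n (g x) = ∑_{i ∈ s'} (f' - c)^n (y i)`, the terms are in `G f' i`
  (`G_stable`), so `(f - c)^n x ∈ Gs f S` by induction, and `x ∈ Gs f S` by `sat_pow`.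
* `G_bdd`: only finitely many `G f i` are nonzero: `G_indep` and
  `WellFoundedGT.finite_ne_bot_of_iSupIndep` (see `GmD_bdd` in Pool.Agent.H60.KZ.GmD).
* `con_G`: by induction on `p + q` (generalising `c`, `x`), if `(ν - i)^p c = 0` and `(δ - j)^q x = 0`
  then `c • x ∈ G δ (i + j)`: if `p = 0` or `q = 0`, then `c • x = 0`.  Otherwise
  `(δ - (i + j)) (c • x) = ((ν - i) c) • x + c • ((δ - j) x)` (by `IsCon`), both terms are in
  `G δ (i + j)` by induction, and `G δ (i + j)` contains `y` if it contains `(δ - (i + j)) y`.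
* `gm_of`: `con_G`.
* `con_mulS`: for a generator `c • x`: `δ (c • x) = ν c • x + c • δ x` (span_induction).
* `eul_G`: `eul 𝒞 c = i c` for `c ∈ 𝒞 i` (`eul_mem`), so `(eul - i) c = 0`.
* `eul_top`: the `𝒞 i` span `C`; `G_le_Gs`.
* `mem_of_G`: (the converse) if `c ∈ G (eul 𝒞) i`, then `c ∈ 𝒞 i`: write `c` as the sum of its
  components `c_j ∈ 𝒞 j ≤ G (eul 𝒞) j`; by `G_unique`, `c = c_i`.
-/

universe u

namespace H37.UK

open CategoryTheory H60.KZ

variable {k : Type u} [Field k] [CharZero k]

section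

variable {M N : Type u} [AddCommGroup M] [Module k M] [AddCommGroup N]
  [Module k N] {f : M →ₗ[k] M} {f' : N →ₗ[k] N}

omit [CharZero k] in
private theorem Eh_key (g : M →ₗ[k] N) (h : ∀ x, g (f x) = f' (g x)) (c : k) (m : ℕ) (y : M) :
    g (((f - c • (1 : Module.End k M)) ^ m) y) =
      ((f' - c • (1 : Module.End k N)) ^ m) (g y) := by
  induction m generalizing y with
  | zero => rfl
  | succ m ih =>
    rw [pow_succ, Module.End.mul_apply, ih, pow_succ, Module.End.mul_apply]
    congr 1
    simp [h]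

omit [CharZero k] in
private theorem Eh_pow_mem {i : ℤ} (c : k) (n : ℕ) {x : M} (hx : x ∈ G f i) :
    ((f - c • (1 : Module.End k M)) ^ n) x ∈ G f i := by
  induction n generalizing x with
  | zero => exact hx
  | succ n ih =>
    rw [pow_succ, Module.End.mul_apply]
    refine ih ?_
    have h1 : (f - c • (1 : Module.End k M)) x = f x - c • x := rfl
    rw [h1]
    exact Submodule.sub_mem _ (G_stable hx) (Submodule.smul_mem _ _ hx)

theorem Gs_inj {g : M →ₗ[k] N} (hg : Function.Injective g) (h : ∀ x, g (f x) = f' (g x))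
    {S : Set ℤ} (hS : Gs f' S = ⊤) : Gs f S = ⊤ := by
  have key : ∀ (s : Finset ℤ), (∀ i ∈ s, i ∈ S) → ∀ (x : M) (y : ℤ → N), (∀ i, y i ∈ G f' i) →
      g x = ∑ i ∈ s, y i → x ∈ Gs f S := by
    intro s
    induction s using Finset.induction_on with
    | empty =>
      intro _ x y _ hx
      rw [Finset.sum_empty] at hx
      have h1 : x = 0 := hg (by rw [hx, map_zero])
      rw [h1]
      exact Submodule.zero_mem _
    | insert c s' hc ih =>
      intro hsS x y hy hx
      obtain ⟨n, hn⟩ := mem_G.1 (hy c)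
      refine sat_pow (f := f) (hsS c (Finset.mem_insert_self c s')) n ?_
      refine ih (fun i hi => hsS i (Finset.mem_insert_of_mem hi)) _
        (fun i => ((f' - (c : k) • (1 : Module.End k N)) ^ n) (y i))
        (fun i => Eh_pow_mem (c : k) n (hy i)) ?_
      rw [Eh_key g h, hx, Finset.sum_insert hc, map_add, hn, zero_add, map_sum]
  rw [eq_top_iff]
  intro x _
  obtain ⟨s, y, hs, hy, hxy⟩ := Gs_exists (f := f') (S := S) (x := g x)
    (by rw [hS]; exact Submodule.mem_top)
  exact key s hs x y hy hxy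

theorem G_bdd [Module.Finite k M] (f : M →ₗ[k] M) :
    ∃ a b : ℤ, ∀ i, (i < a ∨ b < i) → G f i = ⊥ := by
  have hf : {i | G f i ≠ ⊥}.Finite := WellFoundedGT.finite_ne_bot_of_iSupIndep (G_indep f)
  obtain ⟨a, ha⟩ := hf.bddBelow
  obtain ⟨b, hb⟩ := hf.bddAbove
  refine ⟨a, b, fun i h => ?_⟩
  by_contra hne
  rcases h with h | h
  · exact absurd (ha hne) (not_le.2 h)
  · exact absurd (hb hne) (not_le.2 h)

end

variable {C : Type u} [Ring C] [Algebra k C] {M : Type u} [AddCommGroup M] [Module k M]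
  [Module C M] [IsScalarTower k C M] {ν : C →ₗ[k] C} {δ : M →ₗ[k] M}
  {𝒞 : ℤ → Submodule k C}

omit [CharZero k] in
theorem con_G (h : IsCon ν δ) {i j : ℤ} {c : C} {x : M} (hc : c ∈ G ν i) (hx : x ∈ G δ j) :
    c • x ∈ G δ (i + j) := by
  have key : ∀ (m p q : ℕ), p + q = m → ∀ (c : C) (x : M),
      ((ν - (i : k) • (1 : Module.End k C)) ^ p) c = 0 →
      ((δ - (j : k) • (1 : Module.End k M)) ^ q) x = 0 → c • x ∈ G δ (i + j) := by
    intro m
    induction m with
    | zero =>
      intro p q hpq c x hc _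
      have hp : p = 0 := by omega
      subst hp
      have hc0 : c = 0 := hc
      rw [hc0, zero_smul]
      exact Submodule.zero_mem _
    | succ m ih =>
      intro p q hpq c x hc hx
      rcases p with _ | p
      · have hc0 : c = 0 := hc
        rw [hc0, zero_smul]
        exact Submodule.zero_mem _
      rcases q with _ | q
      · have hx0 : x = 0 := hx
        rw [hx0, smul_zero]
        exact Submodule.zero_mem _
      have hc1 : ((ν - (i : k) • (1 : Module.End k C)) ^ p) (ν c - (i : k) • c) = 0 := by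
        rw [pow_succ, Module.End.mul_apply] at hc
        exact hc
      have hx1 : ((δ - (j : k) • (1 : Module.End k M)) ^ q) (δ x - (j : k) • x) = 0 := by
        rw [pow_succ, Module.End.mul_apply] at hx
        exact hx
      have h1 : (ν c - (i : k) • c) • x ∈ G δ (i + j) :=
        ih p (q + 1) (by omega) _ _ hc1 hx
      have h2 : c • (δ x - (j : k) • x) ∈ G δ (i + j) :=
        ih (p + 1) q (by omega) _ _ hc hx1
      have h3 : (δ - ((i + j : ℤ) : k) • (1 : Module.End k M)) (c • x) =
          (ν c - (i : k) • c) • x + c • (δ x - (j : k) • x) := by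
        have h4 : (δ - ((i + j : ℤ) : k) • (1 : Module.End k M)) (c • x) =
            δ (c • x) - ((i + j : ℤ) : k) • (c • x) := rfl
        rw [h4, h c x, Int.cast_add, add_smul, sub_smul, smul_sub, smul_assoc,
          smul_comm c (j : k) x]
        abel
      obtain ⟨n, hn⟩ := mem_G.1 (Submodule.add_mem _ h1 h2)
      refine mem_G.2 ⟨n + 1, ?_⟩
      rw [pow_succ, Module.End.mul_apply, h3]
      exact hn
  obtain ⟨p, hp⟩ := mem_G.1 hc
  obtain ⟨q, hq⟩ := mem_G.1 hx
  exact key (p + q) p q rfl c x hp hq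

omit [CharZero k] in
theorem gm_of (h : IsCon ν δ) (hC : ∀ i, 𝒞 i ≤ G ν i) : IsGm 𝒞 δ := by
  intro i j c x hc hx
  exact con_G h (hC i hc) hx

omit [CharZero k] [IsScalarTower k C M] in
theorem con_mulS (h : IsCon ν δ) {S : Submodule k C} (hS : ∀ c ∈ S, ν c ∈ S) {x : M}
    (hx : x ∈ mulS M S) : δ x ∈ mulS M S := by
  induction hx using Submodule.span_induction with
  | mem y hy =>
    obtain ⟨c, hc, z, rfl⟩ := hy
    rw [h c z]
    exact Submodule.add_mem _ (Submodule.subset_span ⟨ν c, hS c hc, z, rfl⟩)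
      (Submodule.subset_span ⟨c, hc, δ z, rfl⟩)
  | zero => rw [map_zero]; exact Submodule.zero_mem _
  | add y z _ _ hy hz => rw [map_add]; exact Submodule.add_mem _ hy hz
  | smul r y _ hy => rw [map_smul]; exact Submodule.smul_mem _ _ hy

omit [CharZero k] in
theorem eul_G [GradedAlgebra 𝒞] (i : ℤ) : 𝒞 i ≤ G (eul 𝒞) i := by
  intro c hc
  refine mem_G.2 ⟨1, ?_⟩
  rw [pow_one]
  have h1 : (eul 𝒞 - (i : k) • (1 : Module.End k C)) c = eul 𝒞 c - (i : k) • c := rfl
  rw [h1, eul_mem 𝒞 hc, sub_self]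

omit [CharZero k] in
theorem eul_top [GradedAlgebra 𝒞] : Gs (eul 𝒞) Set.univ = ⊤ := by
  rw [eq_top_iff]
  intro c _
  induction c using gr_ind (𝒞 := 𝒞) with
  | h0 => exact Submodule.zero_mem _
  | hm i c hc => exact G_le_Gs (Set.mem_univ i) (eul_G i hc)
  | ha a b ha hb => exact Submodule.add_mem _ (ha trivial) (hb trivial)

theorem mem_of_G [GradedAlgebra 𝒞] {i : ℤ} {c : C} (hc : c ∈ G (eul 𝒞) i) : c ∈ 𝒞 i := by
  classical
  have h1 : ∑ j ∈ insert i (DirectSum.decompose 𝒞 c).support, (DirectSum.decompose 𝒞 c j : C) =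
      ∑ j ∈ insert i (DirectSum.decompose 𝒞 c).support, (if j = i then c else 0) := by
    rw [Finset.sum_ite_eq' _ i (fun _ => c), if_pos (Finset.mem_insert_self i _)]
    have h2 := DirectSum.sum_support_decompose 𝒞 c
    rw [← Finset.sum_subset (Finset.subset_insert i (DirectSum.decompose 𝒞 c).support)]
    · exact h2
    · intro j _ hj
      rw [DFinsupp.notMem_support_iff] at hj
      rw [hj]
      rfl
  have h2 := G_unique (f := eul 𝒞) (y := fun j => (DirectSum.decompose 𝒞 c j : C))
    (z := fun j => if j = i then c else 0)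
    (fun j => eul_G j (DirectSum.decompose 𝒞 c j).2)
    (fun j => by
      by_cases hj : j = i
      · rw [if_pos hj, hj]
        exact hc
      · rw [if_neg hj]
        exact Submodule.zero_mem _) h1 (Finset.mem_insert_self i _)
  have h3 : (DirectSum.decompose 𝒞 c i : C) = c := by
    have h4 : (DirectSum.decompose 𝒞 c i : C) = if i = i then c else 0 := h2
    rwa [if_pos rfl] at h4
  rw [← h3]
  exact (DirectSum.decompose 𝒞 c i).2

end H37.UK
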