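import Pool.Agent.H37.UK.Rd
import Pool.Agent.H37.UK.Eh

/-!
# Row Ts: the eigenvalues of the connection of `T M`

`e = ι 1`, `TD = D.TD he hna`; `TD_tm : TD (tm a x) = tm (eul a) x + ∑ l, tm (a * x l) (na l x)`,
`tm (a * x 0) y = tm a y` (`x_zero`, `tm_rel` with `b = 1`).

* `td_Gs`: let `S = Icc p (q + s)`.  Claim: for `i : ℤ`, `0 ≤ i ≤ s + 1`, `a ∈ ge 𝒜 i` and all `x : M`,
  `tm a x ∈ Gs TD S`.  Descending induction on `i`; for `i = s + 1` `a = 0`.  Step: by `ge_split` and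
  induction we may assume `a ∈ 𝒜 i` (`i ≤ s`), and by `htop`, `Gs_exists` that `x ∈ G (na 0) r`,
  `p ≤ r ≤ q`.  Let `(na 0 - r)^n x = 0` (`mem_G`); induction on `n` (for all such `x`): for `n = 0`,
  `x = 0`.  `TD (tm a x) - (i + r) tm a x = tm a (na 0 x - r x) + ∑_{l ≠ 0} tm (a * x l) (na l x)`
  (`eul_mem`).  The first term is in `Gs TD S` by the induction on `n` (`(na 0 - r) x ∈ G (na 0) r`), the
  others by the descending induction as `a * x l ∈ ge 𝒜 (i + 1)` (`x_ge`, `ge_mul`).  `i + r ∈ S`, so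
  `sat` applies.  Finally `ge 𝒜 0 = ⊤` (`ge_zero`) and `T_induction`.
* `td_top`: `G_bdd` for `na 0` gives `p`, `q` with `Gs (na 0) (Icc p q) = ⊤`; `ge_top`; `td_Gs`; `Gs_mono`.
* `te_one`: let `R = mulS (D.T M) (ge 𝒜 1)`.  `R` is stable under `TD` (`con_mulS`, `TD_con`, `eul_ge`).
  For all `y : M`: `TD (tm 1 y) - tm 1 (na 0 y) ∈ R`: it is `∑_{l ≠ 0} tm (x l) (na l y)`,
  `tm (x l) z = x l • tm 1 z` (`mul_tm`), `x_ge`, and `eul 1 = 0` (`1 ∈ 𝒜 0`).  So by induction on `n`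
  `(TD - j)^n (tm 1 x) - tm 1 ((na 0 - j)^n x) ∈ R`, which for large `n` gives
  `(TD - j)^n (tm 1 x) ∈ R`.  `G_mod`.
* `tau`: let `F : A → M → M ⧸ mulS M J`, `F a x = [co 0 a • x]` (bilinear).
  `F (a * ι b) x = F a (b • x)` by `co_mul`.  So `F` induces `τ : D.T M →ₗ[k] M ⧸ mulS M J` (`Tlift`), and
  `τ (c • tm a x) = [co 0 (c * a) • x] = 0` for `c ∈ ge 𝒜 1` (`ge_right`, `co_ge`, `mulS_mem`), so `τ` kills
  `mulS (D.T M) (ge 𝒜 1)` (`T_induction`).  `τ (tm 1 x) = [co 0 1 • x] = [x]`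
  (`co 0 1 = co 0 (ι 1 * 1) = co 0 (ι 1) = 1` by `co_one_mul`, `co_ι_zero`).
* `tau_G`: let `x ∈ G (na 0) j`, `z` as in `te_one`.  `z ∈ G TD j` is in `R` by hypothesis, so
  `tm 1 x ∈ R`; `tau`.
-/

universe u

namespace H37.UK

open CategoryTheory H60.KZ

variable {k : Type u} [Field k] [CharZero k]

namespace Desc

variable {A B : Type u} [Ring A] [Algebra k A] [Ring B] [Algebra k B] {m n : ℕ}
  (D : Desc k A B m n) {𝒜 : ℤ → Submodule k A} [GradedAlgebra 𝒜] [PosGr 𝒜]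
  [IsSemisimpleRing (𝒜 0)] [Module.Finite k A]
  {M : Type u} [AddCommGroup M] [Module k M] [Module B M] [IsScalarTower k B M]
  {na : Fin (m + 1) → M →ₗ[k] M}

omit [IsScalarTower k B M] [GradedAlgebra 𝒜] [PosGr 𝒜] [IsSemisimpleRing (𝒜 0)]
  [Module.Finite k A] [CharZero k] in
private theorem Ts_tm_zero_left (x : M) : D.tm (0 : A) x = 0 := by
  change D.tmL _ _ = 0
  rw [map_zero, LinearMap.zero_apply]

omit [CharZero k] [Module.Finite k A] [IsScalarTower k B M] in
private theorem Ts_tm_zero_right (a : A) : D.tm a (0 : M) = 0 := by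
  change D.tmL _ _ = 0
  rw [map_zero]

omit [CharZero k] [Module.Finite k A] [IsScalarTower k B M] in
private theorem Ts_x0 (a : A) (y : M) : D.tm (a * D.x 0) y = D.tm a y := by
  rw [D.x_zero, D.tm_rel, one_smul]

omit [CharZero k] [Module.Finite k A] [IsScalarTower k B M] [PosGr 𝒜]
  [IsSemisimpleRing (𝒜 0)] in
private theorem Ts_sum (he : D.ι 1 ∈ 𝒜 0) (hna : ∀ l, IsCon (D.nu 𝒜 l) (na l)) (a : A) (x : M) :
    D.TD he hna (D.tm a x) = D.tm (eul 𝒜 a) x + (D.tm a (na 0 x) +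
      ∑ l ∈ Finset.univ.erase 0, D.tm (a * D.x l) (na l x)) := by
  rw [D.TD_tm, ← Finset.add_sum_erase _ _ (Finset.mem_univ (0 : Fin (m + 1))), D.Ts_x0]

theorem td_Gs (he : D.ι 1 ∈ 𝒜 0) (hna : ∀ l, IsCon (D.nu 𝒜 l) (na l)) {s : ℕ}
    (hs : ge 𝒜 (s + 1) = ⊥) {p q : ℤ} (htop : Gs (na 0) (Set.Icc p q) = ⊤) :
    Gs (D.TD he hna) (Set.Icc p (q + s)) = ⊤ := by
  have claim : ∀ t : ℕ, ∀ i : ℤ, 0 ≤ i → i + t = s + 1 → ∀ a ∈ ge 𝒜 i, ∀ x : M,
      D.tm a x ∈ Gs (D.TD he hna) (Set.Icc p (q + s)) := by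
    intro t
    induction t with
    | zero =>
      intro i _ hi a ha x
      have hi' : i = s + 1 := by simpa using hi
      rw [hi', hs, Submodule.mem_bot] at ha
      rw [ha, D.Ts_tm_zero_left]
      exact Submodule.zero_mem _
    | succ t ih =>
      intro i hi0 hi a ha x
      obtain ⟨a0, ha0, b, hb, rfl⟩ := ge_split ha
      rw [D.add_tm]
      refine Submodule.add_mem _ ?_ (ih (i + 1) (by omega) (by push_cast at hi; omega) b hb x)
      obtain ⟨s', y, hs', hy, hxy⟩ := Gs_exists (f := na 0) (S := Set.Icc p q) (x := x)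
        (by rw [htop]; exact Submodule.mem_top)
      have h1 : D.tm a0 x = ∑ r ∈ s', D.tm a0 (y r) := by
        rw [hxy]
        change D.tmL _ _ = ∑ r ∈ s', D.tmL _ _
        rw [map_sum]
      rw [h1]
      refine Submodule.sum_mem _ fun r hr => ?_
      obtain ⟨n, hn⟩ := mem_G.1 (hy r)
      have hr' := hs' r hr
      rw [Set.mem_Icc] at hr'
      have key : ∀ n : ℕ, ∀ z : M, ((na 0 - (r : k) • (1 : Module.End k M)) ^ n) z = 0 →
          D.tm a0 z ∈ Gs (D.TD he hna) (Set.Icc p (q + s)) := by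
        intro n
        induction n with
        | zero =>
          intro z hz
          have hz0 : z = 0 := hz
          rw [hz0, D.Ts_tm_zero_right]
          exact Submodule.zero_mem _
        | succ n ihn =>
          intro z hz
          rw [pow_succ, Module.End.mul_apply] at hz
          have h2 := ihn _ hz
          have h3 : (na 0 - (r : k) • (1 : Module.End k M)) z = na 0 z + (-(r : k)) • z := by
            rw [neg_smul, ← sub_eq_add_neg]
            rfl
          rw [h3, D.tm_add, D.tm_smul] at h2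
          have hc : i + r ∈ Set.Icc p (q + s) := by
            rw [Set.mem_Icc]
            push_cast at hi
            constructor <;> omega
          refine sat hc ?_
          have h4 : D.TD he hna (D.tm a0 z) - ((i + r : ℤ) : k) • D.tm a0 z =
              (D.tm a0 (na 0 z) + (-(r : k)) • D.tm a0 z) +
              ∑ l ∈ Finset.univ.erase 0, D.tm (a0 * D.x l) (na l z) := by
            rw [D.Ts_sum, eul_mem 𝒜 ha0, D.smul_tm, Int.cast_add, add_smul, neg_smul]
            abel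
          rw [h4]
          refine Submodule.add_mem _ h2 (Submodule.sum_mem _ fun l hl => ?_)
          refine ih (i + 1) (by omega) (by push_cast at hi; omega) _ ?_ _
          exact ge_mul (mem_ge le_rfl ha0) (D.x_ge (Finset.ne_of_mem_erase hl))
      exact key n (y r) hn
  rw [eq_top_iff]
  intro w _
  induction w using D.T_induction with
  | h0 => exact Submodule.zero_mem _
  | ht a x =>
    refine claim (s + 1) 0 le_rfl (by push_cast; ring) a ?_ x
    rw [ge_zero]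
    exact Submodule.mem_top
  | ha y z hy hz => exact Submodule.add_mem _ (hy trivial) (hz trivial)

theorem td_top [Module.Finite k M] (he : D.ι 1 ∈ 𝒜 0)
    (hna : ∀ l, IsCon (D.nu 𝒜 l) (na l)) (htop : Gs (na 0) Set.univ = ⊤) :
    Gs (D.TD he hna) Set.univ = ⊤ := by
  obtain ⟨a, b, hab⟩ := G_bdd (na 0)
  obtain ⟨s, hs⟩ := ge_top (𝒞 := 𝒜)
  have h1 : Gs (na 0) (Set.Icc a b) = ⊤ := by
    rw [eq_top_iff, ← htop]
    refine iSup₂_le fun i _ => ?_
    by_cases hi : i ∈ Set.Icc a b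
    · exact G_le_Gs hi
    · rw [Set.mem_Icc] at hi
      rw [hab i (by omega)]
      exact bot_le
  rw [eq_top_iff, ← D.td_Gs he hna hs h1]
  exact Gs_mono (Set.subset_univ _)

omit [CharZero k] [Module.Finite k A] [IsScalarTower k B M] in
private theorem Ts_R (y : M) (l : Fin (m + 1)) (hl : l ≠ 0) :
    D.tm (D.x l) y ∈ mulS (D.T M) (ge 𝒜 1) := by
  have h1 : D.tm (D.x l) y = D.x l • D.tm 1 y := by
    rw [← D.mul_tm, mul_one]
  rw [h1]
  exact mulS_mem (D.x_ge hl) _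

omit [CharZero k] [Module.Finite k A] [IsScalarTower k B M] in
private theorem Ts_step (he : D.ι 1 ∈ 𝒜 0) (hna : ∀ l, IsCon (D.nu 𝒜 l) (na l)) (y : M) :
    D.TD he hna (D.tm 1 y) - D.tm 1 (na 0 y) ∈ mulS (D.T M) (ge 𝒜 1) := by
  have h1 : eul 𝒜 (1 : A) = 0 := by
    rw [eul_mem 𝒜 (SetLike.GradedOne.one_mem : (1 : A) ∈ 𝒜 0), Int.cast_zero, zero_smul]
  rw [D.Ts_sum, h1, D.Ts_tm_zero_left, zero_add, add_sub_cancel_left]
  refine Submodule.sum_mem _ fun l hl => ?_
  rw [one_mul]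
  exact D.Ts_R _ l (Finset.ne_of_mem_erase hl)

theorem te_one [Module.Finite k M] (he : D.ι 1 ∈ 𝒜 0)
    (hna : ∀ l, IsCon (D.nu 𝒜 l) (na l)) (htop : Gs (na 0) Set.univ = ⊤) {j : ℤ} {x : M}
    (hx : x ∈ G (na 0) j) :
    ∃ z ∈ G (D.TD he hna) j, D.tm 1 x - z ∈ mulS (D.T M) (ge 𝒜 1) := by
  have hR : ∀ w ∈ mulS (D.T M) (ge 𝒜 1), D.TD he hna w ∈ mulS (D.T M) (ge 𝒜 1) := fun w hw =>
    con_mulS (D.TD_con 𝒜 he hna) (fun c hc => eul_ge hc) hw
  have key : ∀ n : ℕ, ((D.TD he hna - (j : k) • (1 : Module.End k (D.T M))) ^ n) (D.tm 1 x) -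
      D.tm 1 (((na 0 - (j : k) • (1 : Module.End k M)) ^ n) x) ∈ mulS (D.T M) (ge 𝒜 1) := by
    intro n
    induction n with
    | zero =>
      rw [pow_zero, pow_zero]
      change D.tm 1 x - D.tm 1 x ∈ _
      rw [sub_self]
      exact Submodule.zero_mem _
    | succ n ih =>
      rw [pow_succ', Module.End.mul_apply, pow_succ', Module.End.mul_apply]
      set w := ((D.TD he hna - (j : k) • (1 : Module.End k (D.T M))) ^ n) (D.tm 1 x) with hw
      set v := ((na 0 - (j : k) • (1 : Module.End k M)) ^ n) x with hv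
      have h1 := hR _ ih
      have h2 := Submodule.smul_mem _ (j : k) ih
      have h3 := D.Ts_step he hna v
      have h4 : (D.TD he hna - (j : k) • (1 : Module.End k (D.T M))) w -
          D.tm 1 ((na 0 - (j : k) • (1 : Module.End k M)) v) =
          (D.TD he hna (w - D.tm 1 v) - (j : k) • (w - D.tm 1 v)) +
            (D.TD he hna (D.tm 1 v) - D.tm 1 (na 0 v)) := by
        have h5 : (na 0 - (j : k) • (1 : Module.End k M)) v = na 0 v + (-(j : k)) • v := by
          rw [neg_smul, ← sub_eq_add_neg]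
          rfl
        have h6 : (D.TD he hna - (j : k) • (1 : Module.End k (D.T M))) w =
            D.TD he hna w - (j : k) • w := rfl
        rw [h5, h6, D.tm_add, D.tm_smul, map_sub, smul_sub, neg_smul]
        abel
      rw [h4]
      exact Submodule.add_mem _ (Submodule.sub_mem _ h1 h2) h3
  obtain ⟨n, hn⟩ := mem_G.1 hx
  have h1 := key n
  rw [hn, D.Ts_tm_zero_right, sub_zero] at h1
  exact G_mod _ hR (D.td_top he hna htop) n h1

/-- The bilinear map `a, x ↦ [co 0 a • x]`. -/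
private noncomputable def TsF (𝒜 : ℤ → Submodule k A) :
    A →ₗ[k] M →ₗ[k] (M ⧸ mulS M (D.J 𝒜)) :=
  (LinearMap.mk₂ k (fun a x => D.co 0 a • x) (fun _ _ _ => by rw [map_add, add_smul])
      (fun _ _ _ => by rw [map_smul, smul_assoc]) (fun _ _ _ => smul_add _ _ _)
      (fun r a x => by
        rw [← algebraMap_smul B r x, ← algebraMap_smul B r (_ : M), smul_smul, smul_smul,
          Algebra.commutes])).compr₂ (mulS M (D.J 𝒜)).mkQ

omit [CharZero k] [Module.Finite k A] in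
private theorem TsF_apply (𝒜 : ℤ → Submodule k A) (a : A) (x : M) :
    D.TsF 𝒜 a x = (mulS M (D.J 𝒜)).mkQ (D.co 0 a • x) := rfl

omit [CharZero k] in
theorem tau {x : M} (hx : D.tm 1 x ∈ mulS (D.T M) (ge 𝒜 1)) : x ∈ mulS M (D.J 𝒜) := by
  have hF : ∀ (a : A) (b : B) (x : M), D.TsF 𝒜 (a * D.ι b) x = D.TsF 𝒜 a (b • x) := by
    intro a b x
    rw [D.TsF_apply, D.TsF_apply, D.co_mul, mul_smul]
  have h1 : mulS (D.T M) (ge 𝒜 1) ≤ LinearMap.ker (D.Tlift (D.TsF 𝒜) hF) := by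
    refine mulS_le fun c hc y => ?_
    rw [LinearMap.mem_ker]
    induction y using D.T_induction with
    | h0 => rw [smul_zero, map_zero]
    | ht a x =>
      rw [← D.mul_tm, D.Tlift_tm, D.TsF_apply, Submodule.mkQ_apply,
        Submodule.Quotient.mk_eq_zero]
      exact mulS_mem (D.co_ge (ge_right a hc)) x
    | ha y z hy hz => rw [smul_add, map_add, hy, hz, add_zero]
  have h2 := h1 hx
  have h3 : D.co 0 (1 : A) = 1 := by
    rw [← D.co_one_mul, mul_one, D.co_ι_zero]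
  rw [LinearMap.mem_ker, D.Tlift_tm, D.TsF_apply, h3, one_smul, Submodule.mkQ_apply,
    Submodule.Quotient.mk_eq_zero] at h2
  exact h2

theorem tau_G [Module.Finite k M] (he : D.ι 1 ∈ 𝒜 0)
    (hna : ∀ l, IsCon (D.nu 𝒜 l) (na l)) (htop : Gs (na 0) Set.univ = ⊤) {j : ℤ}
    (hj : ∀ z ∈ G (D.TD he hna) j, z ∈ mulS (D.T M) (ge 𝒜 1)) :
    ∀ x ∈ G (na 0) j, x ∈ mulS M (D.J 𝒜) := by
  intro x hx
  obtain ⟨z, hz, hxz⟩ := D.te_one he hna htop hx
  have h1 := Submodule.add_mem _ hxz (hj z hz)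
  rw [sub_add_cancel] at h1
  exact D.tau h1

end Desc

end H37.UK
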