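import Pool.Agent.H37.UK.Gr
import Pool.Agent.H37.UK.Ts
import Pool.Agent.H37.UK.Cg
import Pool.Agent.H60.KZ.GmF

/-!
# Row Bs: the semisimple module

Let `J = D.J 𝒜` (a two-sided ideal: `J_left`, `J_right`), `S = B ⧸ J` as a left `B`-module (make a
`Submodule B B` with carrier `J`; the structure over `k` is the one of the quotient), `na l` the map
induced by `nu l` (`nu_J`).

* `IsCon (nu l) (na l)` from `nu_der`.  `na 0 = 0` by `nu_zero_J`.  So `G (na 0) 0 = ⊤`, and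
  `Gs (na 0) (Icc 0 0) = ⊤`, `Gs (na 0) univ = ⊤`.  `IsGm`: `gm_of` (twice; `TD_con`, `eul_G`).
* `Supp (gr hT) 0 s` if `ge 𝒜 (s + 1) = ⊥`: `td_Gs` for `p = q = 0`, `gr_supp` (`0 + s = s`).
* The isomorphism `Sj ℬ 0 ≅ gr hS`: `gr hS` is concentrated in degree `0` (`G_eq_bot`), so it is `Sem`
  (`sem_of_supp`) and by `exists_yonS` there is `f : Sj ℬ 0 ⟶ gr hS` which maps `onesS ℬ 0` to the class of
  `1`.  It is an isomorphism by `isIso_iff_cm`: for `i ≠ 0` both components are zero (`Sj_supp`).  For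
  `i = 0`: the elements of `cmp (Sj ℬ 0) 0` are the classes of the `b ∈ ℬ (0 - 0)` (the submodule
  `(geG (Pj ℬ 0) 1).N 0` is `⊥`), and the class of `b` is `act b (onesS ℬ 0)`, which is mapped to
  `b • [1] = [b]` (`cm_act`, `gr_act`).  Injective: `b ∈ ℬ 0 ∩ J = ℬ 0 ∩ ge ℬ 1 = 0` (`hJ`, `mem_ge_iff`).
  Surjective: `B = ℬ 0 + ge ℬ 1` (`ge_zero`, `ge_split`).
-/

universe u

namespace H37.UK

open CategoryTheory H60.KZ TensorProduct

variable {k : Type u} [Field k] [CharZero k]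

namespace Desc

variable {A B : Type u} [Ring A] [Algebra k A] [Ring B] [Algebra k B] {m n : ℕ}
  (D : Desc k A B m n) {𝒜 : ℤ → Submodule k A} [GradedAlgebra 𝒜] [PosGr 𝒜]
  [IsSemisimpleRing (𝒜 0)] [Module.Finite k A] [Module.Finite k B]
  {ℬ : ℤ → Submodule k B} [GradedAlgebra ℬ] [PosGr ℬ]

variable (𝒜) in
omit [CharZero k] [IsSemisimpleRing (𝒜 0)] [Module.Finite k A] [Module.Finite k B] in
/-- the ideal `J` as a left ideal -/
def Bs_J : Submodule B B where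
  carrier := {b | b ∈ D.J 𝒜}
  add_mem' := fun {a b} (ha : a ∈ D.J 𝒜) (hb : b ∈ D.J 𝒜) => Submodule.add_mem _ ha hb
  zero_mem' := Submodule.zero_mem (D.J 𝒜)
  smul_mem' := fun c b (hb : b ∈ D.J 𝒜) => D.J_left c hb

omit [CharZero k] [IsSemisimpleRing (𝒜 0)] [Module.Finite k A] [Module.Finite k B] in
theorem Bs_mem {b : B} : b ∈ D.Bs_J 𝒜 ↔ b ∈ D.J 𝒜 := Iff.rfl

/-- the map induced by `nu l` -/
noncomputable def Bs_na (he : D.ι 1 ∈ 𝒜 0) (l : Fin (m + 1)) :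
    (B ⧸ D.Bs_J 𝒜) →ₗ[k] (B ⧸ D.Bs_J 𝒜) :=
  (Submodule.Quotient.restrictScalarsEquiv k (D.Bs_J 𝒜)).toLinearMap ∘ₗ
    (((D.Bs_J 𝒜).restrictScalars k).mapQ ((D.Bs_J 𝒜).restrictScalars k) (D.nu 𝒜 l)
      (fun _ hb => D.nu_J he l hb)) ∘ₗ
    (Submodule.Quotient.restrictScalarsEquiv k (D.Bs_J 𝒜)).symm.toLinearMap

omit [Module.Finite k B] in
theorem Bs_na_mk (he : D.ι 1 ∈ 𝒜 0) (l : Fin (m + 1)) (x : B) :
    D.Bs_na he l (Submodule.Quotient.mk x) = Submodule.Quotient.mk (D.nu 𝒜 l x) := rfl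

omit [Module.Finite k B] in
theorem Bs_con (he : D.ι 1 ∈ 𝒜 0) (l : Fin (m + 1)) : IsCon (D.nu 𝒜 l) (D.Bs_na he l) := by
  intro c y
  obtain ⟨x, rfl⟩ := Submodule.Quotient.mk_surjective _ y
  rw [← Submodule.Quotient.mk_smul, Bs_na_mk, Bs_na_mk, ← Submodule.Quotient.mk_smul,
    ← Submodule.Quotient.mk_smul, ← Submodule.Quotient.mk_add, smul_eq_mul, smul_eq_mul,
    smul_eq_mul, D.nu_der 𝒜 he l]

omit [Module.Finite k B] in
theorem Bs_zero (he : D.ι 1 ∈ 𝒜 0) (y : B ⧸ D.Bs_J 𝒜) : D.Bs_na he 0 y = 0 := by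
  obtain ⟨x, rfl⟩ := Submodule.Quotient.mk_surjective _ y
  rw [Bs_na_mk]
  exact (Submodule.Quotient.mk_eq_zero _).2 (D.nu_zero_J x)

omit [Module.Finite k B] in
theorem Bs_G (he : D.ι 1 ∈ 𝒜 0) (y : B ⧸ D.Bs_J 𝒜) : y ∈ G (D.Bs_na he 0) 0 := by
  refine mem_G.2 ⟨1, ?_⟩
  rw [pow_one, LinearMap.sub_apply, D.Bs_zero he, LinearMap.smul_apply, Int.cast_zero, zero_smul,
    sub_self]

omit [Module.Finite k B] in
theorem Bs_Gs (he : D.ι 1 ∈ 𝒜 0) {S : Set ℤ} (hS : (0 : ℤ) ∈ S) :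
    Gs (D.Bs_na he 0) S = ⊤ := by
  rw [eq_top_iff]
  intro y _
  exact G_le_Gs hS (D.Bs_G he y)

omit [Module.Finite k A] [Module.Finite k B] [CharZero k] [IsSemisimpleRing (𝒜 0)] [PosGr 𝒜]
  [GradedAlgebra 𝒜] in
theorem Bs_iso {M : Type u} [AddCommGroup M] [Module k M] [Module B M] [IsScalarTower k B M]
    {δ : M →ₗ[k] M} (hS : IsGm ℬ δ) (hsupp : Supp (gr hS) 0 0) (x : M) (hx : x ∈ G δ 0)
    (hinj : ∀ b ∈ ℬ 0, b • x = 0 → b = 0) (hsurj : ∀ y ∈ G δ 0, ∃ b ∈ ℬ 0, b • x = y) :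
    Nonempty (Sj ℬ 0 ≅ gr hS) := by
  obtain ⟨f, hf⟩ := exists_yonS (sem_of_supp hsupp) (j := 0) (⟨x, hx⟩ : G δ 0)
  have hcl : ∀ b : ℬ (0 - 0), cm f 0 (cm (geG (Pj ℬ 0) (0 + 1)).pr 0 (b : cmp (Pj ℬ 0) 0)) =
      (⟨b.1 • x, gr_aux hS b.2 hx⟩ : G δ 0) := by
    intro b
    have h1 : cm (geG (Pj ℬ 0) (0 + 1)).pr 0 (b : cmp (Pj ℬ 0) 0) =
        act (Sj ℬ 0) b (onesS ℬ 0) := by
      have h2 := congrArg (fun z => cm (geG (Pj ℬ 0) (0 + 1)).pr 0 z) (GmD_act_one (ℬ := ℬ) 0 0 b)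
      have h3 := cm_act (geG (Pj ℬ 0) (0 + 1)).pr b (onep ℬ 0)
      exact h2.symm.trans h3
    rw [h1, cm_act, hf]
    exact gr_act hS b _
  have hmem : ∀ b : ℬ (0 - 0), b.1 ∈ ℬ 0 := fun b =>
    (congrArg ℬ (sub_self (0 : ℤ))).le b.2
  have hiso : IsIso f := by
    rw [isIso_iff_cm]
    intro i
    by_cases hi : i = 0
    · subst hi
      constructor
      · rw [injective_iff_map_eq_zero]
        intro y hy
        obtain ⟨b, hb⟩ := Submodule.mkQ_surjective _ y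
        change cm (geG (Pj ℬ 0) (0 + 1)).pr 0 b = y at hb
        have h3 := hcl b
        rw [← hb] at hy ⊢
        rw [h3] at hy
        have h4 : (b : ℬ (0 - 0)).1 • x = 0 := congrArg (fun z : G δ 0 => z.1) hy
        have h5 : (b : ℬ (0 - 0)) = 0 := Subtype.ext (hinj _ (hmem b) h4)
        rw [h5]
        exact map_zero _
      · intro z
        obtain ⟨b, hb, hbz⟩ := hsurj (z : G δ 0).1 (z : G δ 0).2
        refine ⟨cm (geG (Pj ℬ 0) (0 + 1)).pr 0 (⟨b, by rwa [sub_self]⟩ : ℬ (0 - 0)), ?_⟩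
        rw [hcl]
        exact Subtype.ext hbz
    · have h1 : ∀ y : cmp (Sj ℬ 0) i, y = 0 := fun y =>
        Sj_supp 0 i (lt_or_gt_of_ne hi) y
      have h2 : ∀ y : cmp (gr hS) i, y = 0 := fun y => hsupp i (lt_or_gt_of_ne hi) y
      exact ⟨fun a b _ => (h1 a).trans (h1 b).symm, fun z => ⟨0, (h2 _).trans (h2 z).symm⟩⟩
  exact ⟨asIso f⟩

theorem base (he : D.ι 1 ∈ 𝒜 0) (hB : ∀ i, ℬ i ≤ G (D.nu 𝒜 0) i) (hJ : ge ℬ 1 = D.J 𝒜) :
    ∃ (S : Type u) (_ : AddCommGroup S) (_ : Module k S) (_ : Module B S)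
      (_ : IsScalarTower k B S) (_ : Module.Finite k S) (na : Fin (m + 1) → S →ₗ[k] S)
      (hna : ∀ l, IsCon (D.nu 𝒜 l) (na l)) (_ : Gs (na 0) Set.univ = ⊤)
      (hS : IsGm ℬ (na 0)) (hT : IsGm 𝒜 (D.TD he hna)),
      Nonempty (Sj ℬ 0 ≅ gr hS) ∧ ∀ s : ℕ, ge 𝒜 (s + 1) = ⊥ → Supp (gr hT) 0 s := by
  have hfin : Module.Finite k (B ⧸ D.Bs_J 𝒜) :=
    Module.Finite.of_surjective ((D.Bs_J 𝒜).mkQ.restrictScalars k)
      (Submodule.mkQ_surjective (D.Bs_J 𝒜))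
  have hS : IsGm ℬ (D.Bs_na he 0) := gm_of (D.Bs_con he 0) hB
  have hT : IsGm 𝒜 (D.TD he (D.Bs_con he)) := gm_of (D.TD_con 𝒜 he (D.Bs_con he)) eul_G
  refine ⟨B ⧸ D.Bs_J 𝒜, inferInstance, inferInstance, inferInstance, inferInstance, hfin,
    D.Bs_na he, D.Bs_con he, D.Bs_Gs he (Set.mem_univ 0), hS, hT, ?_, ?_⟩
  · refine Bs_iso hS (gr_supp hS (D.Bs_Gs he (Set.mem_Icc.2 ⟨le_rfl, le_rfl⟩)))
      (Submodule.Quotient.mk 1) (D.Bs_G he _) ?_ ?_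
    · intro b hb h
      rw [← Submodule.Quotient.mk_smul, smul_eq_mul, mul_one] at h
      have h1 : b ∈ ge ℬ 1 := by
        rw [hJ]
        exact (Submodule.Quotient.mk_eq_zero _).1 h
      have h2 := mem_ge_iff.1 h1 0 zero_lt_one
      rwa [DirectSum.decompose_of_mem_same ℬ hb] at h2
    · intro y _
      obtain ⟨c, rfl⟩ := Submodule.Quotient.mk_surjective _ y
      obtain ⟨a, ha, b, hb, hc⟩ := ge_split (𝒞 := ℬ) (i := 0) (c := c)
        (by rw [ge_zero]; exact Submodule.mem_top)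
      refine ⟨a, ha, ?_⟩
      rw [← Submodule.Quotient.mk_smul, smul_eq_mul, mul_one]
      rw [Submodule.Quotient.eq]
      have h3 : a - c = -b := by rw [hc]; abel
      rw [h3]
      refine Submodule.neg_mem _ ?_
      rw [zero_add, hJ] at hb
      exact hb
  · intro s hs
    have h1 := D.td_Gs he (D.Bs_con he) hs (p := 0) (q := 0)
      (D.Bs_Gs he (Set.mem_Icc.2 ⟨le_rfl, le_rfl⟩))
    have h2 := gr_supp hT h1
    rwa [zero_add] at h2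

end Desc

end H37.UK
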