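import Pool.Agent.H60.KZ.Gm1

/-!
# Ungraded descent of Koszulity: definitions
-/

universe u

namespace H37.UK

open CategoryTheory H60.KZ

variable {k : Type u} [Field k]

section eig

variable {M N : Type u} [AddCommGroup M] [Module k M] [AddCommGroup N] [Module k N]

/-- The generalised eigenspace of `f` for the integer `i`. -/
def G (f : M →ₗ[k] M) (i : ℤ) : Submodule k M := Module.End.maxGenEigenspace f (i : k)

/-- The sum of the generalised eigenspaces of `f` for the integers in `S`. -/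
def Gs (f : M →ₗ[k] M) (S : Set ℤ) : Submodule k M := ⨆ i ∈ S, G f i

theorem mem_G {f : M →ₗ[k] M} {i : ℤ} {x : M} :
    x ∈ G f i ↔ ∃ n : ℕ, ((f - (i : k) • (1 : Module.End k M)) ^ n) x = 0 :=
  Module.End.mem_maxGenEigenspace f (i : k) x

theorem G_map {f : M →ₗ[k] M} {f' : N →ₗ[k] N} (g : M →ₗ[k] N) (h : ∀ x, g (f x) = f' (g x))
    {i : ℤ} {x : M} (hx : x ∈ G f i) : g x ∈ G f' i := by
  obtain ⟨n, hn⟩ := mem_G.1 hx
  refine mem_G.2 ⟨n, ?_⟩
  have key : ∀ (m : ℕ) (y : M), g (((f - (i : k) • (1 : Module.End k M)) ^ m) y) =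
      ((f' - (i : k) • (1 : Module.End k N)) ^ m) (g y) := by
    intro m
    induction m with
    | zero => intro y; rfl
    | succ m ih =>
      intro y
      rw [pow_succ, Module.End.mul_apply, ih, pow_succ, Module.End.mul_apply]
      congr 1
      simp [h]
  rw [← key, hn, map_zero]

end eig

section alg

variable {C : Type u} [Ring C] [Algebra k C]

/-- `ν` is a derivation. -/
def IsDer (ν : C →ₗ[k] C) : Prop := ∀ a b, ν (a * b) = ν a * b + a * ν b

variable (𝒞 : ℤ → Submodule k C)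

/-- The sum of the components of degree at least `j`. -/
def ge (j : ℤ) : Submodule k C := ⨆ i ∈ Set.Ici j, 𝒞 i

/-- The Euler derivation: multiplication by `i` on the component of degree `i`. -/
noncomputable def eul [GradedAlgebra 𝒞] : C →ₗ[k] C :=
  (DirectSum.toModule k ℤ C fun i => (i : k) • (𝒞 i).subtype) ∘ₗ
    (DirectSum.decomposeLinearEquiv 𝒞).toLinearMap

variable {M N : Type u} [AddCommGroup M] [Module k M] [Module C M] [IsScalarTower k C M]
  [AddCommGroup N] [Module k N] [Module C N] [IsScalarTower k C N]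

/-- `δ` is a connection over `ν`. -/
def IsCon (ν : C →ₗ[k] C) (δ : M →ₗ[k] M) : Prop := ∀ c m, δ (c • m) = ν c • m + c • δ m

/-- `𝒞 i` maps the eigenspace of `j` into the eigenspace of `i + j`. -/
def IsGm (δ : M →ₗ[k] M) : Prop :=
  ∀ (i j : ℤ) (c : C) (x : M), c ∈ 𝒞 i → x ∈ G δ j → c • x ∈ G δ (i + j)

variable {𝒞}

omit [IsScalarTower k C M] in
theorem gr_aux {δ : M →ₗ[k] M} (h : IsGm 𝒞 δ) {i j : ℤ} {c : C} (hc : c ∈ 𝒞 (j - i)) {x : M}
    (hx : x ∈ G δ i) : c • x ∈ G δ j := by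
  have h1 := h (j - i) i c x hc hx
  rwa [sub_add_cancel] at h1

variable [GradedAlgebra 𝒞]

/-- The graded module of the eigenspaces of `δ`. -/
def gr {δ : M →ₗ[k] M} (h : IsGm 𝒞 δ) : GrMod 𝒞 :=
  mkGr (fun i => G δ i)
    (fun _ _ => LinearMap.mk₂ k (fun c x => ⟨c.1 • x.1, gr_aux h c.2 x.2⟩)
      (fun _ _ _ => Subtype.ext (add_smul _ _ _)) (fun _ _ _ => Subtype.ext (smul_assoc _ _ _))
      (fun _ _ _ => Subtype.ext (smul_add _ _ _))
      (fun r c x => Subtype.ext (by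
        change c.1 • (r • x.1) = r • (c.1 • x.1)
        rw [← algebraMap_smul C r (x.1), ← algebraMap_smul C r (c.1 • x.1), smul_smul, smul_smul,
          Algebra.commutes])))
    (fun _ _ _ => Subtype.ext (one_smul _ _))
    (fun _ _ _ _ _ _ _ => Subtype.ext (mul_smul _ _ _))

theorem gr_act {δ : M →ₗ[k] M} (h : IsGm 𝒞 δ) {i j : ℤ} (c : 𝒞 (j - i)) (x : G δ i) :
    (act (gr h) c x : G δ j) = ⟨c.1 • x.1, gr_aux h c.2 x.2⟩ := rfl

/-- A `C`-linear map commuting with the connections induces a morphism of graded modules. -/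
def grMap {δ : M →ₗ[k] M} (h : IsGm 𝒞 δ) {δ' : N →ₗ[k] N} (h' : IsGm 𝒞 δ') (f : M →ₗ[C] N)
    (hf : ∀ x, f (δ x) = δ' (f x)) : gr h ⟶ gr h' :=
  mkHom (M := gr h) (N := gr h')
    (fun i => ((f.restrictScalars k).restrict
      (fun x (hx : x ∈ G δ i) => G_map (f.restrictScalars k) hf hx) : G δ i →ₗ[k] G δ' i))
    (fun _ _ c x => Subtype.ext (map_smul f c.1 (x : G δ _).1))

theorem grMap_cm {δ : M →ₗ[k] M} (h : IsGm 𝒞 δ) {δ' : N →ₗ[k] N} (h' : IsGm 𝒞 δ')
    (f : M →ₗ[C] N) (hf : ∀ x, f (δ x) = δ' (f x)) (i : ℤ) (x : G δ i) :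
    (cm (grMap h h' f hf) i x : G δ' i) =
      ⟨f x.1, G_map (f.restrictScalars k) hf x.2⟩ := rfl

end alg

/-- The algebra `B` and the corner `e A e`, `e = ι 1`: `e A e` is the direct sum of the
`x l * ι B`, and `A e` is a finitely generated projective right `B`-module with the dual basis
`u`, `φ`. -/
structure Desc (k : Type u) [Field k] (A B : Type u) [Ring A] [Algebra k A] [Ring B]
    [Algebra k B] (m n : ℕ) where
  /-- the embedding of `B` into `A` -/
  ι : B →ₗ[k] A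
  mul : ∀ a b, ι (a * b) = ι a * ι b
  /-- the basis of `e A e` over `B` -/
  x : Fin (m + 1) → A
  x_zero : x 0 = ι 1
  x_left : ∀ l, ι 1 * x l = x l
  x_comm : ∀ l r, x l * (ι 1 * r * ι 1) = (ι 1 * r * ι 1) * x l
  x_nil : ∀ l, l ≠ 0 → IsNilpotent (x l)
  coord : ∀ r : A, ∃! b : Fin (m + 1) → B, ι 1 * r * ι 1 = ∑ l, x l * ι (b l)
  /-- the generators of `A e` over `B` -/
  u : Fin n → A
  /-- the dual basis -/
  φ : Fin n → A →ₗ[k] B
  φ_mul : ∀ i a b, φ i (a * ι b) = φ i a * b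
  dual : ∀ a, a * ι 1 = ∑ i, u i * ι (φ i a)

end H37.UK
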