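import Pool.Agent.H37.UK.Dg
import Pool.Agent.H37.UK.Ea

/-!
# Ungraded descent of Koszulity: definitions (3)

The corner `e A e`, the connection on `T M`, functoriality of `T`.
-/

universe u

namespace H37.UK

open CategoryTheory H60.KZ TensorProduct

variable {k : Type u} [Field k]

namespace Desc

variable {A B : Type u} [Ring A] [Algebra k A] [Ring B] [Algebra k B] {m n : ℕ}
  (D : Desc k A B m n)

theorem one_ι (b : B) : D.ι 1 * D.ι b = D.ι b := by rw [← D.mul, one_mul]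

theorem ι_one (b : B) : D.ι b * D.ι 1 = D.ι b := by rw [← D.mul, mul_one]

theorem x_ι (l : Fin (m + 1)) (b : B) : D.x l * D.ι b = D.ι b * D.x l := by
  have h := D.x_comm l (D.ι b)
  rwa [D.one_ι, D.ι_one] at h

theorem x_right (l : Fin (m + 1)) : D.x l * D.ι 1 = D.x l := by
  rw [D.x_ι, D.x_left]

theorem co_ι_zero (b : B) : D.co 0 (D.ι b) = b := by
  have := D.co_uniq (a := D.ι b) (b := fun l => if l = 0 then b else 0) (by
    rw [D.one_ι, D.ι_one, Finset.sum_eq_single 0]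
    · rw [if_pos rfl, D.x_zero, D.one_ι]
    · intro l _ hl
      rw [if_neg hl, map_zero, mul_zero]
    · intro h
      exact absurd (Finset.mem_univ _) h) 0
  rw [this, if_pos rfl]

theorem co_ι_ne {l : Fin (m + 1)} (hl : l ≠ 0) (b : B) : D.co l (D.ι b) = 0 := by
  have := D.co_uniq (a := D.ι b) (b := fun l => if l = 0 then b else 0) (by
    rw [D.one_ι, D.ι_one, Finset.sum_eq_single 0]
    · rw [if_pos rfl, D.x_zero, D.one_ι]
    · intro l _ hl
      rw [if_neg hl, map_zero, mul_zero]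
    · intro h
      exact absurd (Finset.mem_univ _) h) l
  rw [this, if_neg hl]

theorem ι_inj : Function.Injective D.ι := by
  intro b c h
  rw [← D.co_ι_zero b, h, D.co_ι_zero]

theorem co_mul (l : Fin (m + 1)) (a : A) (b : B) : D.co l (a * D.ι b) = D.co l a * b := by
  refine D.co_uniq (b := fun l => D.co l a * b) ?_ l
  have h1 : D.ι 1 * (a * D.ι b) * D.ι 1 = (D.ι 1 * a * D.ι 1) * D.ι b := by
    rw [mul_assoc, mul_assoc a, D.ι_one, mul_assoc (D.ι 1 * a), D.one_ι, mul_assoc]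
  rw [h1, D.co_spec, Finset.sum_mul]
  exact Finset.sum_congr rfl fun l _ => by rw [D.mul, mul_assoc]

theorem mul_co (l : Fin (m + 1)) (a : A) (b : B) : D.co l (D.ι b * a) = b * D.co l a := by
  refine D.co_uniq (b := fun l => b * D.co l a) ?_ l
  have h1 : D.ι 1 * (D.ι b * a) * D.ι 1 = D.ι b * (D.ι 1 * a * D.ι 1) := by
    rw [← mul_assoc (D.ι 1), D.one_ι, mul_assoc (D.ι 1), ← mul_assoc (D.ι b), D.ι_one,
      mul_assoc]
  rw [h1, D.co_spec, Finset.mul_sum]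
  exact Finset.sum_congr rfl fun l _ => by rw [D.mul, ← mul_assoc, ← mul_assoc, D.x_ι]

theorem co_one_mul (l : Fin (m + 1)) (a : A) : D.co l (D.ι 1 * a) = D.co l a := by
  rw [D.mul_co, one_mul]

theorem co_mul_one (l : Fin (m + 1)) (a : A) : D.co l (a * D.ι 1) = D.co l a := by
  rw [D.co_mul, mul_one]

section grading

variable (𝒜 : ℤ → Submodule k A) [GradedAlgebra 𝒜]

theorem eul_one (he : D.ι 1 ∈ 𝒜 0) : eul 𝒜 (D.ι 1) = 0 := by
  rw [eul_mem 𝒜 he, Int.cast_zero, zero_smul]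

theorem eul_ι (he : D.ι 1 ∈ 𝒜 0) (b : B) :
    eul 𝒜 (D.ι b) = ∑ l, D.x l * D.ι (D.nu 𝒜 l b) := by
  have h : eul 𝒜 (D.ι b) = D.ι 1 * eul 𝒜 (D.ι b) * D.ι 1 := by
    conv_lhs => rw [← D.ι_one b, ← D.one_ι b]
    rw [eul_der 𝒜, eul_der 𝒜, D.eul_one 𝒜 he, zero_mul, mul_zero, zero_add, add_zero]
  rw [h, D.co_spec]
  rfl

theorem nu_der (he : D.ι 1 ∈ 𝒜 0) (l : Fin (m + 1)) : IsDer (D.nu 𝒜 l) := by
  intro b c
  refine D.co_uniq (b := fun l => D.nu 𝒜 l b * c + b * D.nu 𝒜 l c) ?_ l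
  change D.ι 1 * eul 𝒜 (D.ι (b * c)) * D.ι 1 = _
  rw [D.mul, eul_der 𝒜, mul_add, add_mul]
  have h1 : D.ι 1 * (eul 𝒜 (D.ι b) * D.ι c) * D.ι 1 = eul 𝒜 (D.ι b) * D.ι c := by
    rw [D.eul_ι 𝒜 he, mul_assoc, mul_assoc _ (D.ι c), D.ι_one, ← mul_assoc, Finset.mul_sum]
    congr 1
    exact Finset.sum_congr rfl fun l _ => by rw [← mul_assoc, D.x_left]
  have h2 : D.ι 1 * (D.ι b * eul 𝒜 (D.ι c)) * D.ι 1 = D.ι b * eul 𝒜 (D.ι c) := by
    rw [← mul_assoc, D.one_ι, mul_assoc, D.eul_ι 𝒜 he, Finset.sum_mul]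
    congr 1
    exact Finset.sum_congr rfl fun l _ => by rw [mul_assoc, D.ι_one]
  rw [h1, h2, D.eul_ι 𝒜 he, D.eul_ι 𝒜 he, Finset.sum_mul, Finset.mul_sum,
    ← Finset.sum_add_distrib]
  refine Finset.sum_congr rfl fun l _ => ?_
  rw [map_add, mul_add, D.mul, D.mul, mul_assoc, ← mul_assoc (D.ι b), ← D.x_ι, mul_assoc]

section con

variable {M : Type u} [AddCommGroup M] [Module k M] [Module B M] [IsScalarTower k B M]

omit [IsScalarTower k B M] in
theorem tdF_rel (he : D.ι 1 ∈ 𝒜 0) (na : Fin (m + 1) → M →ₗ[k] M)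
    (hna : ∀ l, IsCon (D.nu 𝒜 l) (na l)) (a : A) (b : B) (x : M) :
    D.tm (eul 𝒜 (a * D.ι b)) x + ∑ l, D.tm (a * D.ι b * D.x l) (na l x) =
      D.tm (eul 𝒜 a) (b • x) + ∑ l, D.tm (a * D.x l) (na l (b • x)) := by
  rw [eul_der 𝒜, D.add_tm, D.tm_rel, add_assoc]
  congr 1
  have h1 : D.tm (a * eul 𝒜 (D.ι b)) x = ∑ l, D.tm (a * D.x l) (D.nu 𝒜 l b • x) := by
    rw [D.eul_ι 𝒜 he, Finset.mul_sum]
    have h2 : D.tm (∑ l, a * (D.x l * D.ι (D.nu 𝒜 l b))) x =
        ∑ l, D.tm (a * (D.x l * D.ι (D.nu 𝒜 l b))) x := by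
      change D.tmL _ _ = ∑ l, D.tmL _ _
      rw [map_sum, LinearMap.sum_apply]
    rw [h2]
    exact Finset.sum_congr rfl fun l _ => by rw [← mul_assoc, D.tm_rel]
  rw [h1, ← Finset.sum_add_distrib]
  refine Finset.sum_congr rfl fun l _ => ?_
  rw [hna l b x, D.tm_add, mul_assoc, ← D.x_ι, ← mul_assoc, D.tm_rel]

variable {𝒜} in
/-- The connection on `T M`. -/
noncomputable def TD (he : D.ι 1 ∈ 𝒜 0) {na : Fin (m + 1) → M →ₗ[k] M}
    (hna : ∀ l, IsCon (D.nu 𝒜 l) (na l)) : D.T M →ₗ[k] D.T M :=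
  D.Tlift (D.tmL ∘ₗ eul 𝒜 + ∑ l, (D.tmL ∘ₗ LinearMap.mulRight k (D.x l)).compl₂ (na l)) (by
    intro a b x
    have := D.tdF_rel 𝒜 he na hna a b x
    simpa [tmL] using this)

omit [IsScalarTower k B M] in
theorem TD_tm (he : D.ι 1 ∈ 𝒜 0) {na : Fin (m + 1) → M →ₗ[k] M}
    (hna : ∀ l, IsCon (D.nu 𝒜 l) (na l)) (a : A) (x : M) :
    D.TD he hna (D.tm a x) = D.tm (eul 𝒜 a) x + ∑ l, D.tm (a * D.x l) (na l x) := by
  unfold TD
  rw [D.Tlift_tm]
  simp [tmL]

omit [IsScalarTower k B M] in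
theorem TD_con (he : D.ι 1 ∈ 𝒜 0) {na : Fin (m + 1) → M →ₗ[k] M}
    (hna : ∀ l, IsCon (D.nu 𝒜 l) (na l)) : IsCon (eul 𝒜) (D.TD he hna) := by
  intro c y
  induction y using D.T_induction with
  | h0 => simp
  | ha y z hy hz => rw [smul_add, map_add, hy, hz, map_add, smul_add, smul_add]; abel
  | ht a x =>
    rw [← D.mul_tm, D.TD_tm, D.TD_tm, eul_der 𝒜, D.add_tm, D.mul_tm, D.mul_tm, smul_add,
      Finset.smul_sum, add_assoc]
    congr 2
    exact Finset.sum_congr rfl fun l _ => by rw [mul_assoc, D.mul_tm]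

end con

end grading

section map

variable {M N : Type u} [AddCommGroup M] [Module k M] [Module B M] [IsScalarTower k B M]
  [AddCommGroup N] [Module k N] [Module B N] [IsScalarTower k B N]

/-- Functoriality of `T`. -/
noncomputable def Tmap (f : M →ₗ[B] N) : D.T M →ₗ[A] D.T N where
  toFun := D.Tlift (D.tmL.compl₂ (f.restrictScalars k)) (by
    intro a b x
    have := D.tm_rel a b (f x)
    rw [← map_smul] at this
    exact this)
  map_add' := map_add _
  map_smul' c y := by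
    induction y using D.T_induction with
    | h0 => simp
    | ha y z hy hz => rw [smul_add, map_add, hy, hz, map_add, smul_add]
    | ht a x => rfl

theorem Tmap_tm (f : M →ₗ[B] N) (a : A) (x : M) : D.Tmap f (D.tm a x) = D.tm a (f x) := rfl

/-- The coordinates of `T M`. -/
noncomputable def Psi (i : Fin n) : D.T M →ₗ[k] M :=
  D.Tlift (LinearMap.mk₂ k (fun a x => D.φ i a • x) (fun _ _ _ => by rw [map_add, add_smul])
      (fun _ _ _ => by rw [map_smul, smul_assoc]) (fun _ _ _ => smul_add _ _ _)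
      (fun r a x => by
        rw [← algebraMap_smul B r x, ← algebraMap_smul B r (_ : M), smul_smul, smul_smul,
          Algebra.commutes])) (by
    intro a b x
    change D.φ i (a * D.ι b) • x = D.φ i a • b • x
    rw [D.φ_mul, mul_smul])

theorem Psi_tm (i : Fin n) (a : A) (x : M) : D.Psi i (D.tm a x) = D.φ i a • x := rfl

end map

end Desc

end H37.UK
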