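import Pool.Agent.H37.UK.Df

/-!
# Row Dn: a derivation maps a nilpotent ideal into elements nilpotent modulo the ideal

`δ` is a derivation of `B`, `J` a two-sided ideal with `J^N = 0` (all products of `N` elements of `J`
vanish), `k` of characteristic `0`.

* `dn_leib`: `δ^p (a b) = ∑_{q ≤ p} choose p q • (δ^q a) (δ^(p-q) b)` (induction on `p`, as for
  derivatives; or avoid it: see below).
* `dn_main`: for a list `L` of elements of `J` of length `n`:
  (a) `δ^p (L.prod) ∈ J` for `p < n`;  (b) `δ^n (L.prod) - n! • (L.map δ).prod ∈ J`.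
  Induction on `L = j :: L'`, with `w = L'.prod`, `n = n' + 1`:
  `δ^p (j w) = ∑_q choose p q • (δ^q j) (δ^(p-q) w)`.  The term `q = 0` is in `J` as `j ∈ J`.  For `p < n`
  the terms with `q ≥ 1` have `p - q < n'`, so `δ^(p-q) w ∈ J` by (a).  For `p = n` the terms with
  `q ≥ 2` are in `J` by (a), and the term `q = 1` is
  `n • δ j * δ^(n') w ≡ n • δ j * (n'! • (L'.map δ).prod) = n! • (L.map δ).prod` modulo `J`.
* `der_nil`: let `L` be a list of length `N`.  Each `c δ(y)` is congruent to `δ (c y)` modulo `J` (as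
  `δ (c y) = δ c * y + c δ y`), so modulo the ideal `J`
  `(L.map (fun c => c * δ y)).prod ≡ (L.map (fun c => δ (c * y))).prod = ((L.map (· * y)).map δ).prod`.
  By (b) and `(L.map (· * y)).prod = 0` (it is a product of `N` elements of `J`) we get
  `N! • ((L.map (· * y)).map δ).prod ∈ J`, and `N!` is invertible in `k`.
-/

universe u

namespace H37.UK

open CategoryTheory H60.KZ

variable {k : Type u} [Field k] [CharZero k] {B : Type u} [Ring B] [Algebra k B]

omit [CharZero k] in
theorem Dn_leib {δ : B →ₗ[k] B} (hδ : IsDer δ) (p : ℕ) (a b : B) :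
    (δ ^ p) (a * b) = ∑ ij ∈ Finset.HasAntidiagonal.antidiagonal p,
      p.choose ij.1 • ((δ ^ ij.1) a * (δ ^ ij.2) b) := by
  induction p with
  | zero => simp
  | succ p ih =>
    rw [pow_succ', Module.End.mul_apply, ih, map_sum,
      Finset.sum_antidiagonal_choose_succ_nsmul (fun i j => (δ ^ i) a * (δ ^ j) b) p,
      ← Finset.sum_add_distrib]
    refine Finset.sum_congr rfl fun ij hij => ?_
    rw [map_nsmul, hδ, pow_succ', pow_succ', Module.End.mul_apply, Module.End.mul_apply,
      nsmul_add, add_comm]
    have h1 : ij.1 + ij.2 = p := Finset.HasAntidiagonal.mem_antidiagonal.1 hij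
    have h2 : p.choose ij.1 = p.choose ij.2 := by
      rw [← h1]
      exact Nat.choose_symm_add
    rw [h2]

omit [CharZero k] in
theorem Dn_main {δ : B →ₗ[k] B} (hδ : IsDer δ) (J : Submodule k B)
    (hl : ∀ c b, b ∈ J → c * b ∈ J) (hr : ∀ c b, b ∈ J → b * c ∈ J) (L : List B)
    (hL : ∀ b ∈ L, b ∈ J) : (∀ p < L.length, (δ ^ p) L.prod ∈ J) ∧
      (δ ^ L.length) L.prod - L.length.factorial • (L.map δ).prod ∈ J := by
  induction L with
  | nil =>
    refine ⟨fun p hp => absurd hp (Nat.not_lt_zero p), ?_⟩
    simp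
  | cons j L ih =>
    obtain ⟨ha, hb⟩ := ih (fun b hb => hL b (List.mem_cons_of_mem j hb))
    have hj : j ∈ J := hL j List.mem_cons_self
    refine ⟨?_, ?_⟩
    · intro p hp
      rw [List.length_cons] at hp
      rw [List.prod_cons, Dn_leib hδ]
      refine J.sum_mem fun ij hij => J.nsmul_mem ?_ _
      have h1 : ij.1 + ij.2 = p := Finset.HasAntidiagonal.mem_antidiagonal.1 hij
      rcases Nat.eq_zero_or_pos ij.1 with h0 | h0
      · rw [h0, pow_zero]
        exact hr _ _ hj
      · exact hl _ _ (ha _ (by omega))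
    · rw [List.length_cons, List.prod_cons, Dn_leib hδ, List.map_cons, List.prod_cons]
      have hmem : ((1, L.length) : ℕ × ℕ) ∈ Finset.HasAntidiagonal.antidiagonal (L.length + 1) := by
        rw [Finset.HasAntidiagonal.mem_antidiagonal]
        omega
      rw [← Finset.add_sum_erase _ _ hmem]
      have hrest : ∑ x ∈ (Finset.HasAntidiagonal.antidiagonal (L.length + 1)).erase (1, L.length),
          (L.length + 1).choose x.1 • ((δ ^ x.1) j * (δ ^ x.2) L.prod) ∈ J := by
        refine J.sum_mem fun ij hij => J.nsmul_mem ?_ _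
        rw [Finset.mem_erase, Finset.HasAntidiagonal.mem_antidiagonal] at hij
        obtain ⟨hne, h1⟩ := hij
        rcases Nat.eq_zero_or_pos ij.1 with h0 | h0
        · rw [h0, pow_zero]
          exact hr _ _ hj
        · refine hl _ _ (ha _ ?_)
          have h2 : ij.1 ≠ 1 := by
            intro h3
            apply hne
            ext
            · exact h3
            · change ij.2 = L.length
              omega
          omega
      have hmain : (L.length + 1).choose 1 • ((δ ^ 1) j * (δ ^ L.length) L.prod) -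
          (L.length + 1).factorial • (δ j * (L.map δ).prod) =
          (L.length + 1) • (δ j * ((δ ^ L.length) L.prod -
            L.length.factorial • (L.map δ).prod)) := by
        rw [Nat.choose_one_right, pow_one, mul_sub, nsmul_sub, Nat.factorial_succ, mul_smul,
          mul_smul_comm]
      have h4 : (L.length + 1) • (δ j * ((δ ^ L.length) L.prod -
            L.length.factorial • (L.map δ).prod)) ∈ J := J.nsmul_mem (hl _ _ hb) _
      rw [← hmain] at h4
      have h5 := J.add_mem h4 hrest
      rw [sub_add_eq_add_sub] at h5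
      exact h5

omit [CharZero k] in
theorem Dn_cong (J : Submodule k B) (hl : ∀ c b, b ∈ J → c * b ∈ J)
    (hr : ∀ c b, b ∈ J → b * c ∈ J) (f g : B → B) (h : ∀ c, f c - g c ∈ J) (L : List B) :
    (L.map f).prod - (L.map g).prod ∈ J := by
  induction L with
  | nil => simp
  | cons c L ih =>
    rw [List.map_cons, List.map_cons, List.prod_cons, List.prod_cons]
    have h1 : f c * (L.map f).prod - g c * (L.map g).prod =
        (f c - g c) * (L.map f).prod + g c * ((L.map f).prod - (L.map g).prod) := by
      noncomm_ring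
    rw [h1]
    exact J.add_mem (hr _ _ (h c)) (hl _ _ ih)

theorem der_nil {δ : B →ₗ[k] B} (hδ : IsDer δ) (J : Submodule k B)
    (hl : ∀ c b, b ∈ J → c * b ∈ J) (hr : ∀ c b, b ∈ J → b * c ∈ J) (N : ℕ)
    (hN : ∀ L : List B, L.length = N → (∀ b ∈ L, b ∈ J) → L.prod = 0) {y : B} (hy : y ∈ J)
    (L : List B) (hL : L.length = N) : (L.map (fun c => c * δ y)).prod ∈ J := by
  have h1 := Dn_cong J hl hr (fun c => c * δ y) (fun c => δ (c * y)) (fun c => by
    change c * δ y - δ (c * y) ∈ J
    rw [hδ, show c * δ y - (δ c * y + c * δ y) = -(δ c * y) by abel]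
    exact J.neg_mem (hl _ _ hy)) L
  have hmem : ∀ b ∈ L.map (fun c => c * y), b ∈ J := by
    intro b hb
    obtain ⟨c, -, rfl⟩ := List.mem_map.1 hb
    exact hl _ _ hy
  have h2 := (Dn_main hδ J hl hr (L.map (fun c => c * y)) hmem).2
  rw [hN (L.map (fun c => c * y)) (by rw [List.length_map, hL]) hmem, map_zero, zero_sub,
    List.map_map] at h2
  have h3 : (L.length.factorial : k) • (L.map (fun c => δ (c * y))).prod ∈ J := by
    rw [Nat.cast_smul_eq_nsmul]
    have h4 := J.neg_mem h2
    rw [neg_neg, List.length_map] at h4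
    exact h4
  have h5 : (L.length.factorial : k) ≠ 0 := Nat.cast_ne_zero.2 (Nat.factorial_ne_zero _)
  have h6 : (L.map (fun c => δ (c * y))).prod ∈ J := by
    have h7 := J.smul_mem (L.length.factorial : k)⁻¹ h3
    rwa [smul_smul, inv_mul_cancel₀ h5, one_smul] at h7
  have h8 := J.add_mem h1 h6
  rwa [sub_add_cancel] at h8

end H37.UK
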