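import Pool.Agent.H37.UK.Ea
import Pool.Agent.H37.UK.Dg
import Pool.Agent.H60.KZ.GmD

/-!
# Row Ge: the components of degree at least `j`

`ge 𝒞 j = ⨆_{i ≥ j} 𝒞 i`.  Useful: `gr_ind` and `eul_mem` (Ea), `GmD_bdd` (Pool.Agent.H60.KZ.GmD), and for
`mem_ge_iff`: `c = ∑ decompose 𝒞 c i` (`DirectSum.sum_support_decompose`), for `c ∈ 𝒞 i`:
`decompose 𝒞 c i = c` and `decompose 𝒞 c j = 0` for `j ≠ i`.

* `ge_anti`, `mem_ge`: clear.
* `ge_ind`: induction on the supremum (`Submodule.iSup_induction'` or `mem_ge_iff`).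
* `ge_mul`: `ge_ind` for both factors; `mul_mem_graded`.
* `ge_zero`: `𝒞 i = ⊥` for `i < 0` and the `𝒞 i` span `C`.
* `ge_left`, `ge_right`: `ge_mul` and `ge_zero`.
* `ge_top`: `GmD_bdd`.
* `eul_ge`, `eul_sub_ge`: `ge_ind`; `eul_ge_one`: `eul 𝒞` kills `𝒞 0`, and `𝒞 i = ⊥` for `i < 0`
  (`gr_ind`).
* `ge_split`: `ge_ind`.
* `mulS_mem`, `mulS_le`: from the definition of `mulS` (a span).
* `nak`: (Nakayama) `mulS M (ge 𝒞 1)` is the span of the `c • x`, `c ∈ ge 𝒞 1`.  Let `L : Submodule C M`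
  with `∀ x, ∃ y ∈ L, x - y ∈ mulS M (ge 𝒞 1)`.  Claim: for all `j : ℕ`, `∀ x, ∃ y ∈ L,
  x - y ∈ mulS M (ge 𝒞 j)`: induction: `x = y + ∑ c_q • x_q` with `c_q ∈ ge 𝒞 j`, and
  `x_q = y_q + ∑_r c_{qr} • x_{qr}` with `c_{qr} ∈ ge 𝒞 1`, so
  `x = (y + ∑ c_q • y_q) + ∑ (c_q c_{qr}) • x_{qr}`, use `ge_mul`.  Take `j = s + 1` from `ge_top`.
-/

universe u

namespace H37.UK

open CategoryTheory H60.KZ

variable {k : Type u} [Field k] {C : Type u} [Ring C] [Algebra k C] {𝒞 : ℤ → Submodule k C}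

theorem ge_anti {i j : ℤ} (h : i ≤ j) : ge 𝒞 j ≤ ge 𝒞 i :=
  biSup_mono fun _ hl => h.trans hl

theorem mem_ge {i j : ℤ} (h : j ≤ i) {c : C} (hc : c ∈ 𝒞 i) : c ∈ ge 𝒞 j :=
  (le_biSup 𝒞 (Set.mem_Ici.2 h) : 𝒞 i ≤ ge 𝒞 j) hc

theorem ge_ind {j : ℤ} {p : C → Prop} (h0 : p 0) (hm : ∀ i, j ≤ i → ∀ c ∈ 𝒞 i, p c)
    (ha : ∀ a b, p a → p b → p (a + b)) {c : C} (hc : c ∈ ge 𝒞 j) : p c := by
  unfold ge at hc
  refine Submodule.iSup_induction (fun i => ⨆ _ : i ∈ Set.Ici j, 𝒞 i) (motive := p) hc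
    (fun i x hx => ?_) h0 ha
  by_cases hi : i ∈ Set.Ici j
  · rw [iSup_pos hi] at hx
    exact hm i hi x hx
  · rw [iSup_neg hi, Submodule.mem_bot] at hx
    rw [hx]
    exact h0

section

variable {M : Type u} [AddCommGroup M] [Module k M] [Module C M]

theorem mulS_mem {S : Submodule k C} {c : C} (hc : c ∈ S) (x : M) : c • x ∈ mulS M S :=
  Submodule.subset_span ⟨c, hc, x, rfl⟩

theorem mulS_le {S : Submodule k C} {L : Submodule k M} (h : ∀ c ∈ S, ∀ x : M, c • x ∈ L) :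
    mulS M S ≤ L := by
  refine Submodule.span_le.2 ?_
  rintro y ⟨c, hc, x, rfl⟩
  exact h c hc x

end

variable [GradedAlgebra 𝒞]

theorem mem_ge_iff {j : ℤ} {c : C} :
    c ∈ ge 𝒞 j ↔ ∀ i, i < j → (DirectSum.decompose 𝒞 c i : C) = 0 := by
  constructor
  · intro hc i hi
    refine ge_ind (𝒞 := 𝒞) (j := j) (p := fun c => (DirectSum.decompose 𝒞 c i : C) = 0)
      ?_ ?_ ?_ hc
    · simp
    · intro l hl c hc
      exact DirectSum.decompose_of_mem_ne 𝒞 hc (by omega)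
    · intro a b ha hb
      rw [DirectSum.decompose_add, DirectSum.add_apply, Submodule.coe_add, ha, hb, add_zero]
  · intro h
    classical
    rw [← DirectSum.sum_support_decompose 𝒞 c]
    refine Submodule.sum_mem _ fun i hi => ?_
    by_cases hij : j ≤ i
    · exact mem_ge hij (Submodule.coe_mem _)
    · rw [h i (not_le.1 hij)]
      exact Submodule.zero_mem _

theorem ge_mul {i j : ℤ} {a b : C} (ha : a ∈ ge 𝒞 i) (hb : b ∈ ge 𝒞 j) :
    a * b ∈ ge 𝒞 (i + j) := by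
  refine ge_ind (p := fun a => a * b ∈ ge 𝒞 (i + j)) ?_ ?_ ?_ ha
  · rw [zero_mul]
    exact Submodule.zero_mem _
  · intro l hl a ha
    refine ge_ind (p := fun b => a * b ∈ ge 𝒞 (i + j)) ?_ ?_ ?_ hb
    · rw [mul_zero]
      exact Submodule.zero_mem _
    · intro l' hl' b hb
      exact mem_ge (i := l + l') (by omega) (SetLike.mul_mem_graded ha hb)
    · intro b b' h h'
      rw [mul_add]
      exact Submodule.add_mem _ h h'
  · intro b b' h h'
    rw [add_mul]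
    exact Submodule.add_mem _ h h'

theorem ge_split {i : ℤ} {c : C} (hc : c ∈ ge 𝒞 i) :
    ∃ a ∈ 𝒞 i, ∃ b ∈ ge 𝒞 (i + 1), c = a + b := by
  refine ge_ind (p := fun c => ∃ a ∈ 𝒞 i, ∃ b ∈ ge 𝒞 (i + 1), c = a + b) ?_ ?_ ?_ hc
  · exact ⟨0, Submodule.zero_mem _, 0, Submodule.zero_mem _, (add_zero 0).symm⟩
  · intro l hl c hc
    rcases hl.eq_or_lt with rfl | hl
    · exact ⟨c, hc, 0, Submodule.zero_mem _, (add_zero c).symm⟩
    · exact ⟨0, Submodule.zero_mem _, c, mem_ge (by omega) hc, (zero_add c).symm⟩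
  · rintro _ _ ⟨a, ha, b, hb, rfl⟩ ⟨a', ha', b', hb', rfl⟩
    exact ⟨a + a', Submodule.add_mem _ ha ha', b + b', Submodule.add_mem _ hb hb', by abel⟩

theorem ge_top [Module.Finite k C] : ∃ s : ℕ, ge 𝒞 (s + 1) = ⊥ := by
  obtain ⟨a, b, hab⟩ := GmD_bdd 𝒞
  refine ⟨b.toNat, ?_⟩
  rw [eq_bot_iff]
  intro c hc
  refine ge_ind (p := fun c => c ∈ (⊥ : Submodule k C)) (Submodule.zero_mem _) ?_
    (fun a b ha hb => Submodule.add_mem _ ha hb) hc
  intro i hi c hc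
  rwa [hab i (Or.inr (by omega))] at hc

theorem eul_ge {j : ℤ} {c : C} (hc : c ∈ ge 𝒞 j) : eul 𝒞 c ∈ ge 𝒞 j := by
  refine ge_ind (p := fun c => eul 𝒞 c ∈ ge 𝒞 j) ?_ ?_ ?_ hc
  · rw [map_zero]
    exact Submodule.zero_mem _
  · intro i hi c hc
    rw [eul_mem 𝒞 hc]
    exact Submodule.smul_mem _ _ (mem_ge hi hc)
  · intro a b ha hb
    rw [map_add]
    exact Submodule.add_mem _ ha hb

theorem eul_sub_ge {i : ℤ} {c : C} (hc : c ∈ ge 𝒞 i) :
    eul 𝒞 c - (i : k) • c ∈ ge 𝒞 (i + 1) := by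
  obtain ⟨a, ha, b, hb, rfl⟩ := ge_split hc
  rw [map_add, eul_mem 𝒞 ha, smul_add, add_sub_add_left_eq_sub]
  exact Submodule.sub_mem _ (eul_ge hb) (Submodule.smul_mem _ _ hb)

variable [PosGr 𝒞]

variable (𝒞) in
theorem ge_zero : ge 𝒞 0 = ⊤ := by
  rw [eq_top_iff]
  intro c _
  rw [mem_ge_iff]
  intro i hi
  have h := (le_of_eq (PosGr.neg (ℬ := 𝒞) i hi)) (DirectSum.decompose 𝒞 c i).2
  exact (Submodule.mem_bot k).1 h

theorem ge_left {j : ℤ} (a : C) {c : C} (hc : c ∈ ge 𝒞 j) : a * c ∈ ge 𝒞 j := by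
  have ha : a ∈ ge 𝒞 0 := by
    rw [ge_zero]
    exact Submodule.mem_top
  have h := ge_mul ha hc
  rwa [zero_add] at h

theorem ge_right {j : ℤ} (a : C) {c : C} (hc : c ∈ ge 𝒞 j) : c * a ∈ ge 𝒞 j := by
  have ha : a ∈ ge 𝒞 0 := by
    rw [ge_zero]
    exact Submodule.mem_top
  have h := ge_mul hc ha
  rwa [add_zero] at h

theorem eul_ge_one (c : C) : eul 𝒞 c ∈ ge 𝒞 1 := by
  have hc : c ∈ ge 𝒞 0 := by
    rw [ge_zero]
    exact Submodule.mem_top
  have h := eul_sub_ge hc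
  rwa [Int.cast_zero, zero_smul, sub_zero, zero_add] at h

theorem nak [Module.Finite k C] {M : Type u} [AddCommGroup M] [Module k M] [Module C M]
    [IsScalarTower k C M] (L : Submodule C M)
    (h : ∀ x : M, ∃ y ∈ L, x - y ∈ mulS M (ge 𝒞 1)) : L = ⊤ := by
  have claim : ∀ j : ℕ, ∀ x : M, ∃ y ∈ L, x - y ∈ mulS M (ge 𝒞 (j : ℤ)) := by
    intro j
    induction j with
    | zero =>
      intro x
      refine ⟨0, L.zero_mem, ?_⟩
      have h1 : (1 : C) ∈ ge 𝒞 ((0 : ℕ) : ℤ) := by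
        rw [Nat.cast_zero, ge_zero]
        exact Submodule.mem_top
      have h2 := mulS_mem (M := M) h1 x
      rwa [one_smul, ← sub_zero x] at h2
    | succ j ih =>
      intro x
      obtain ⟨y, hy, hxy⟩ := ih x
      suffices hs : ∀ z ∈ mulS M (ge 𝒞 (j : ℤ)), ∃ y ∈ L, z - y ∈ mulS M (ge 𝒞 ((j + 1 : ℕ) : ℤ)) by
        obtain ⟨y', hy', hz⟩ := hs _ hxy
        exact ⟨y + y', L.add_mem hy hy', by rwa [← sub_sub]⟩
      intro z hz
      induction hz using Submodule.span_induction with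
      | zero => exact ⟨0, L.zero_mem, by rw [sub_zero]; exact Submodule.zero_mem _⟩
      | add z z' _ _ h1 h2 =>
        obtain ⟨y, hy, e⟩ := h1
        obtain ⟨y', hy', e'⟩ := h2
        refine ⟨y + y', L.add_mem hy hy', ?_⟩
        rw [add_sub_add_comm]
        exact Submodule.add_mem _ e e'
      | smul r z _ h1 =>
        obtain ⟨y, hy, e⟩ := h1
        refine ⟨algebraMap k C r • y, L.smul_mem _ hy, ?_⟩
        rw [algebraMap_smul, ← smul_sub]
        exact Submodule.smul_mem _ _ e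
      | mem z hz =>
        obtain ⟨c, hc, x, rfl⟩ := hz
        obtain ⟨y, hy, e⟩ := h x
        refine ⟨c • y, L.smul_mem _ hy, ?_⟩
        rw [← smul_sub]
        generalize x - y = w at e
        induction e using Submodule.span_induction with
        | zero => rw [smul_zero]; exact Submodule.zero_mem _
        | add z z' _ _ h1 h2 => rw [smul_add]; exact Submodule.add_mem _ h1 h2
        | smul r z _ h1 =>
          have e2 : c • r • z = r • c • z := by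
            rw [← algebraMap_smul C r z, ← algebraMap_smul C r (c • z), smul_smul, smul_smul,
              Algebra.commutes]
          rw [e2]
          exact Submodule.smul_mem _ _ h1
        | mem z hz =>
          obtain ⟨c', hc', x', rfl⟩ := hz
          rw [smul_smul]
          refine mulS_mem ?_ x'
          push_cast
          exact ge_mul hc hc'
  obtain ⟨s, hs⟩ := ge_top (𝒞 := 𝒞)
  rw [eq_top_iff]
  intro x _
  obtain ⟨y, hy, e⟩ := claim (s + 1) x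
  push_cast at e
  rw [hs] at e
  have h0 : mulS M (⊥ : Submodule k C) = ⊥ := by
    rw [eq_bot_iff]
    refine mulS_le fun c hc x => ?_
    rw [(Submodule.mem_bot k).1 hc, zero_smul]
    exact Submodule.zero_mem _
  rw [h0, Submodule.mem_bot, sub_eq_zero] at e
  rwa [e]

end H37.UK
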