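import Pool.Agent.H37.UK.Cg
import Pool.Agent.H37.UK.Ge
import Pool.Agent.H60.KZ.GmG

/-!
# Row Gn: generators of `gr M`

`Sj 𝒞 j` is `𝒞 0` in degree `j`; `Sj_supp`; `radN`, `radG`, `act_mem_radN` (Gm0); `sem_inAdd` (GmG);
`cmp (gr h) i = G δ i` by definition.

* `rad_of`: `x ∈ mulS M (ge 𝒞 1)` is a sum of terms `c • z`, `c ∈ ge 𝒞 1`; `c` is a sum of elements of the
  `𝒞 p`, `p ≥ 1` (`ge_ind`), `z` a sum of elements of the `G δ r` (`Gs_exists`, `htop`).  So `x` is a finite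
  sum of terms `c • z ∈ G δ (p + r)`, `c ∈ 𝒞 p`, `p ≥ 1`, `z ∈ G δ r`.  Precisely: show by induction that
  every `x ∈ mulS M (ge 𝒞 1)` is of the form `∑_{i ∈ s} y i` with `y i ∈ G δ i` and `y i` in the image of
  `radN (gr h) 1 i` (under the inclusion of `G δ i` in `M`; a submodule of `M`).  If moreover `x ∈ G δ j`,
  then `x = y j` by `G_unique`.
* `of_rad`: `radN (gr h) 1 j` is the sum of the ranges of the `act c : G δ l → G δ j`, `c ∈ 𝒞 (j - l)`,
  `1 ≤ j - l`, and `c • z ∈ mulS M (ge 𝒞 1)` (`mulS_mem`, `mem_ge`).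
* `hom_zero`: `hom_ext_cm`; for `i ≠ j` the target `cmp (Sj 𝒞 j) i` is zero (`Sj_supp`).  For `i = j`, by
  `rad_of` the element is in `radN (gr h) 1 j`, a sum of elements `act c z` with `z` of degree `l < j`;
  `cm φ j (act c z) = act c (cm φ l z)` (`cm_act`) and `cm φ l z = 0` by `Sj_supp`.
* `le_of_hom_zero`: let `Q = (radG (gr h) 1).quo`, `pr : gr h ⟶ Q` its projection (an epimorphism).
  `Q` is `Sem`: for `b` of degree `l - i ≠ 0`: if `l < i` `act_neg_deg`, if `l > i` then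
  `act b (pr x) = pr (act b x) = 0` by `act_mem_radN`.  `Q` is `Fd` (`Fd_ses`, `gr_fd`).  By
  `sem_inAdd`, `𝟙 Q = ∑_a α_a ≫ β_a` with `α_a : Q ⟶ Sj 𝒞 (j_a)`.  Let `x ∈ G δ j`, `y = pr x`.  Then
  `y = ∑ β_a (α_a y)`.  If `j_a ≠ j`, then `α_a y = 0` by `Sj_supp`.  If `j_a = j`, then `pr ≫ α_a = 0` by
  `hz` so `α_a y = 0`.  So `pr x = 0`, `x ∈ radN (gr h) 1 j`, and `of_rad`.
* `gen_of`: `nak` for `L = span C (Gs δ (Iic t))`: write `x = ∑_{i ∈ s} x i` (`Gs_exists`), the terms with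
  `i ≤ t` are in `L`, the others in `mulS M (ge 𝒞 1)`.
-/

universe u

namespace H37.UK

open CategoryTheory H60.KZ

variable {k : Type u} [Field k] [CharZero k] {C : Type u} [Ring C] [Algebra k C]
  {𝒞 : ℤ → Submodule k C} [GradedAlgebra 𝒞] [PosGr 𝒞]
  {M : Type u} [AddCommGroup M] [Module k M] [Module C M] [IsScalarTower k C M]
  {δ : M →ₗ[k] M}

/-- The inclusion of the component of degree `i` in `M`. -/
def Gn_i (h : IsGm 𝒞 δ) (i : ℤ) : cmp (gr h) i →ₗ[k] M where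
  toFun x := (show G δ i from x).1
  map_add' _ _ := rfl
  map_smul' _ _ := rfl

omit [CharZero k] [PosGr 𝒞] in
theorem Gn_i_inj (h : IsGm 𝒞 δ) (i : ℤ) : Function.Injective (Gn_i h i) :=
  fun _ _ e => Subtype.ext e

omit [CharZero k] [PosGr 𝒞] in
theorem Gn_act (h : IsGm 𝒞 δ) {p r : ℤ} (hp : 1 ≤ p) {c : C} (hc : c ∈ 𝒞 p) {z : M}
    (hz : z ∈ G δ r) :
    c • z ∈ (radN (gr h) 1 (p + r)).map (Gn_i h (p + r)) := by
  have hc' : c ∈ 𝒞 (p + r - r) := by rwa [add_sub_cancel_right]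
  refine ⟨act (gr h) (i := r) (j := p + r) ⟨c, hc'⟩ (show cmp (gr h) r from ⟨z, hz⟩), ?_, rfl⟩
  exact act_mem_radN (gr h) 1 (by omega) _ _

omit [CharZero k] [PosGr 𝒞] in
theorem Gn_le (h : IsGm 𝒞 δ) (htop : Gs δ Set.univ = ⊤) :
    mulS M (ge 𝒞 1) ≤ ⨆ i, (radN (gr h) 1 i).map (Gn_i h i) := by
  refine mulS_le fun c hc x => ?_
  obtain ⟨s, y, -, hy, rfl⟩ := Gs_exists (f := δ) (S := Set.univ) (x := x)
    (by rw [htop]; exact Submodule.mem_top)
  rw [Finset.smul_sum]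
  refine Submodule.sum_mem _ fun r _ => ?_
  refine ge_ind (p := fun c => c • y r ∈ ⨆ i, (radN (gr h) 1 i).map (Gn_i h i)) ?_ ?_ ?_ hc
  · rw [zero_smul]
    exact Submodule.zero_mem _
  · intro p hp c hc
    exact Submodule.mem_iSup_of_mem (p + r) (Gn_act h hp hc (hy r))
  · intro a b ha hb
    rw [add_smul]
    exact Submodule.add_mem _ ha hb

omit [CharZero k] [PosGr 𝒞] in
theorem Gn_map_le (h : IsGm 𝒞 δ) (i : ℤ) : (radN (gr h) 1 i).map (Gn_i h i) ≤ G δ i := by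
  rintro _ ⟨x, -, rfl⟩
  exact (show G δ i from x).2

set_option linter.unusedSectionVars false in
theorem rad_of (h : IsGm 𝒞 δ) (htop : Gs δ Set.univ = ⊤) {j : ℤ} (x : G δ j)
    (hr : x.1 ∈ mulS M (ge 𝒞 1)) : (x : cmp (gr h) j) ∈ radN (gr h) 1 j := by
  obtain ⟨y, hy, hyx⟩ := (Submodule.mem_iSup_iff_exists_finsupp _ _).1 (Gn_le h htop hr)
  have hy' : ∀ i, y i ∈ G δ i := fun i => Gn_map_le h i (hy i)
  have hz : ∀ i, (if i = j then x.1 else 0) ∈ G δ i := by
    intro i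
    split_ifs with hi
    · rw [hi]
      exact x.2
    · exact Submodule.zero_mem _
  have hs : ∑ i ∈ insert j y.support, y i =
      ∑ i ∈ insert j y.support, (if i = j then x.1 else 0) := by
    rw [Finset.sum_ite_eq' (insert j y.support) j (fun _ => x.1),
      if_pos (Finset.mem_insert_self j _), ← hyx, Finsupp.sum]
    symm
    refine Finset.sum_subset (Finset.subset_insert _ _) fun i _ hi => ?_
    exact Finsupp.notMem_support_iff.1 hi
  have h1 := G_unique (f := δ) (y := fun i => y i) (z := fun i => if i = j then x.1 else 0)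
    hy' hz hs (Finset.mem_insert_self j _)
  have h2 : y j = x.1 := by simpa using h1
  obtain ⟨w, hw, hwx⟩ := hy j
  have h3 : w = (show cmp (gr h) j from x) := Gn_i_inj h j (hwx.trans h2)
  rw [← h3]
  exact hw

set_option linter.unusedSectionVars false in
theorem of_rad (h : IsGm 𝒞 δ) {j : ℤ} (x : G δ j) (hx : (x : cmp (gr h) j) ∈ radN (gr h) 1 j) :
    x.1 ∈ mulS M (ge 𝒞 1) := by
  have key : radN (gr h) 1 j ≤ (mulS M (ge 𝒞 1)).comap (Gn_i h j) := by
    refine iSup_le fun l => iSup_le fun hl => iSup_le fun c => ?_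
    rintro _ ⟨z, rfl⟩
    exact mulS_mem (mem_ge hl c.2) (show G δ l from z).1
  exact key hx

theorem hom_zero (h : IsGm 𝒞 δ) (htop : Gs δ Set.univ = ⊤) {j : ℤ}
    (hj : ∀ x ∈ G δ j, x ∈ mulS M (ge 𝒞 1)) (φ : gr h ⟶ Sj 𝒞 j) : φ = 0 := by
  refine hom_ext_cm fun i x => ?_
  rw [cm_zero]
  by_cases hi : i = j
  · subst hi
    have hx := rad_of h htop (show G δ i from x) (hj _ (show G δ i from x).2)
    have key : radN (gr h) 1 i ≤ LinearMap.ker (cm φ i) := by
      refine iSup_le fun l => iSup_le fun hl => iSup_le fun c => ?_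
      rintro _ ⟨z, rfl⟩
      rw [LinearMap.mem_ker, cm_act, Sj_supp i l (Or.inl (by omega)) (cm φ l z), map_zero]
    exact LinearMap.mem_ker.1 (key hx)
  · exact Sj_supp j i (by omega) (cm φ i x)

variable [Module.Finite k C]

set_option linter.unusedSectionVars false in
theorem le_of_hom_zero [IsSemisimpleRing (𝒞 0)] [Module.Finite k M] (h : IsGm 𝒞 δ) {j : ℤ}
    (hz : ∀ φ : gr h ⟶ Sj 𝒞 j, φ = 0) : ∀ x ∈ G δ j, x ∈ mulS M (ge 𝒞 1) := by
  intro x hx
  have hsem : Sem (radG (gr h) 1).quo := by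
    intro i l b y hil
    rcases lt_or_gt_of_ne hil with h1 | h1
    · obtain ⟨w, rfl⟩ := Submodule.mkQ_surjective ((radG (gr h) 1).N i) y
      have h2 : cm (radG (gr h) 1).pr l (act (gr h) b w) = 0 :=
        (gmb_pr_eq (radG (gr h) 1) l _).2 (act_mem_radN (gr h) 1 (by omega) b w)
      rw [cm_act] at h2
      exact h2
    · exact act_neg_deg _ h1 b y
  have hfd : Fd (radG (gr h) 1).quo :=
    ((Fd_ses _ (radG (gr h) 1).shortExact).1 (gr_fd h)).2
  obtain ⟨n, ja, α, β, hid⟩ := sem_inAdd hsem hfd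
  have h0 : ∀ a, cm (α a) j (cm (radG (gr h) 1).pr j (show cmp (gr h) j from (⟨x, hx⟩ : G δ j)))
      = 0 := by
    intro a
    by_cases ha : ja a = j
    · have key : ∀ (i : ℤ) (f : (radG (gr h) 1).quo ⟶ Sj 𝒞 i), i = j →
          (radG (gr h) 1).pr ≫ f = 0 := by
        intro i f hi
        subst hi
        exact hz _
      rw [← cm_comp, key (ja a) (α a) ha, cm_zero]
    · exact Sj_supp (ja a) j (by omega) _
  have h1 : cm (radG (gr h) 1).pr j (show cmp (gr h) j from (⟨x, hx⟩ : G δ j)) = 0 := by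
    rw [← cm_id (radG (gr h) 1).quo j (cm (radG (gr h) 1).pr j _), hid, cm_sum]
    refine Finset.sum_eq_zero fun a _ => ?_
    rw [cm_comp, h0 a, map_zero]
  exact of_rad h (⟨x, hx⟩ : G δ j) ((gmb_pr_eq (radG (gr h) 1) j _).1 h1)

set_option linter.unusedSectionVars false in
theorem gen_of (htop : Gs δ Set.univ = ⊤) {t : ℤ}
    (hj : ∀ j, t < j → ∀ x ∈ G δ j, x ∈ mulS M (ge 𝒞 1)) :
    Submodule.span C (Gs δ (Set.Iic t) : Set M) = ⊤ := by
  refine nak (𝒞 := 𝒞) _ fun x => ?_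
  obtain ⟨s, y, -, hy, rfl⟩ := Gs_exists (f := δ) (S := Set.univ) (x := x)
    (by rw [htop]; exact Submodule.mem_top)
  refine ⟨∑ i ∈ s with i ≤ t, y i, ?_, ?_⟩
  · refine Submodule.sum_mem _ fun i hi => ?_
    have h1 : i ∈ Set.Iic t := (Finset.mem_filter.1 hi).2
    have h2 : y i ∈ Gs δ (Set.Iic t) := G_le_Gs h1 (hy i)
    exact Submodule.subset_span h2
  · rw [← Finset.sum_filter_add_sum_filter_not s (fun i => i ≤ t), add_sub_cancel_left]
    refine Submodule.sum_mem _ fun i hi => ?_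
    have h1 : t < i := not_le.1 (Finset.mem_filter.1 hi).2
    exact hj i h1 (y i) (hy i)

end H37.UK
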