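import Pool.Agent.H37.UK.Dh

/-!
# Row Tx: exactness of `T`

Use `T_induction` (every element of `T M` is a sum of elements `tm a x`), `tm_rel`, `Tmap_tm`, `Psi_tm`,
`TD_tm`, and `tmL` for sums.

* `psi_sum`: by `T_induction`; for `tm a x`: `tm a x = tm (a * ι 1) x` (`tm_rel` for `b = 1`)
  `= ∑ tm (u i * ι (φ i a)) x = ∑ tm (u i) (φ i a • x)` (`dual`, `tm_rel`).
* `psi_map`, `T_TD`: by `T_induction`.
* `T_inj`: if `Tmap f y = 0`, then `f (Psi i y) = Psi i (Tmap f y) = 0`, `Psi i y = 0`, `y = 0` by `psi_sum`.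
* `T_surj`: `tm a x = Tmap f (tm a x')`.
* `T_exact`: if `Tmap g y = 0`, then `g (Psi i y) = 0`, `Psi i y = f (x i)`, and
  `y = ∑ tm (u i) (f (x i)) = Tmap f (∑ tm (u i) (x i))`.  Conversely `g ∘ f = 0` gives `Tmap g ∘ Tmap f = 0`
  by `T_induction`.
-/

universe u

namespace H37.UK

open CategoryTheory H60.KZ

variable {k : Type u} [Field k]

namespace Desc

variable {A B : Type u} [Ring A] [Algebra k A] [Ring B] [Algebra k B] {m n : ℕ}
  (D : Desc k A B m n)
  {L M N : Type u} [AddCommGroup L] [Module k L] [Module B L] [IsScalarTower k B L]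
  [AddCommGroup M] [Module k M] [Module B M] [IsScalarTower k B M]
  [AddCommGroup N] [Module k N] [Module B N] [IsScalarTower k B N]

theorem psi_sum (y : D.T M) : y = ∑ i, D.tm (D.u i) (D.Psi i y) := by
  induction y using D.T_induction with
  | h0 =>
    symm
    refine Finset.sum_eq_zero fun i _ => ?_
    rw [map_zero]
    exact (D.tmL (D.u i)).map_zero
  | ha y z hy hz =>
    have h1 : ∀ i, D.tm (D.u i) (D.Psi i (y + z)) =
        D.tm (D.u i) (D.Psi i y) + D.tm (D.u i) (D.Psi i z) := by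
      intro i
      rw [map_add, D.tm_add]
    rw [Finset.sum_congr rfl fun i _ => h1 i, Finset.sum_add_distrib, ← hy, ← hz]
  | ht a x =>
    have h1 : D.tm a x = D.tm (a * D.ι 1) x := by
      rw [D.tm_rel, one_smul]
    have h2 : D.tm (∑ i, D.u i * D.ι (D.φ i a)) x = ∑ i, D.tm (D.u i * D.ι (D.φ i a)) x := by
      change D.tmL _ _ = ∑ i, D.tmL _ _
      rw [map_sum, LinearMap.sum_apply]
    have h3 : D.tm a x = ∑ i, D.tm (D.u i) (D.φ i a • x) := by
      rw [h1, D.dual, h2]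
      exact Finset.sum_congr rfl fun i _ => D.tm_rel _ _ _
    exact h3

theorem psi_map (f : M →ₗ[B] N) (i : Fin n) (y : D.T M) :
    D.Psi i (D.Tmap f y) = f (D.Psi i y) := by
  induction y using D.T_induction with
  | h0 => rw [map_zero, map_zero, map_zero, map_zero]
  | ha y z hy hz => rw [map_add, map_add, hy, hz, map_add, map_add]
  | ht a x => rw [D.Tmap_tm, D.Psi_tm, D.Psi_tm, map_smul]

theorem T_inj (f : M →ₗ[B] N) (hf : Function.Injective f) :
    Function.Injective (D.Tmap f) := by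
  rw [injective_iff_map_eq_zero]
  intro y hy
  rw [D.psi_sum y]
  refine Finset.sum_eq_zero fun i _ => ?_
  have h1 : f (D.Psi i y) = 0 := by
    rw [← D.psi_map, hy, map_zero]
  have h2 : D.Psi i y = 0 := hf (by rw [h1, map_zero])
  rw [h2]
  exact (D.tmL (D.u i)).map_zero

theorem T_surj (f : M →ₗ[B] N) (hf : Function.Surjective f) :
    Function.Surjective (D.Tmap f) := by
  intro y
  induction y using D.T_induction with
  | h0 => exact ⟨0, map_zero _⟩
  | ha y z hy hz =>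
    obtain ⟨y', rfl⟩ := hy
    obtain ⟨z', rfl⟩ := hz
    exact ⟨y' + z', map_add _ _ _⟩
  | ht a x =>
    obtain ⟨x', rfl⟩ := hf x
    exact ⟨D.tm a x', D.Tmap_tm f a x'⟩

theorem T_exact (f : L →ₗ[B] M) (g : M →ₗ[B] N) (h : ∀ y, g y = 0 ↔ ∃ x, f x = y)
    (y : D.T M) : D.Tmap g y = 0 ↔ ∃ x, D.Tmap f x = y := by
  constructor
  · intro hy
    have h1 : ∀ i, ∃ x, f x = D.Psi i y := by
      intro i
      rw [← h, ← D.psi_map, hy, map_zero]
    choose x hx using h1
    refine ⟨∑ i, D.tm (D.u i) (x i), ?_⟩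
    rw [map_sum]
    conv_rhs => rw [D.psi_sum y]
    exact Finset.sum_congr rfl fun i _ => by rw [D.Tmap_tm, hx]
  · rintro ⟨x, rfl⟩
    induction x using D.T_induction with
    | h0 => rw [map_zero, map_zero]
    | ha y z hy hz => rw [map_add, map_add, hy, hz, add_zero]
    | ht a x =>
      rw [D.Tmap_tm, D.Tmap_tm, (h (f x)).2 ⟨x, rfl⟩]
      exact (D.tmL a).map_zero

theorem T_TD {𝒜 : ℤ → Submodule k A} [GradedAlgebra 𝒜] (he : D.ι 1 ∈ 𝒜 0)
    {na : Fin (m + 1) → M →ₗ[k] M} (hna : ∀ l, IsCon (D.nu 𝒜 l) (na l))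
    {na' : Fin (m + 1) → N →ₗ[k] N} (hna' : ∀ l, IsCon (D.nu 𝒜 l) (na' l)) (f : M →ₗ[B] N)
    (hf : ∀ l x, f (na l x) = na' l (f x)) (y : D.T M) :
    D.Tmap f (D.TD he hna y) = D.TD he hna' (D.Tmap f y) := by
  induction y using D.T_induction with
  | h0 => rw [map_zero, map_zero, map_zero]
  | ha y z hy hz => rw [map_add, map_add, hy, hz, map_add, map_add]
  | ht a x =>
    rw [D.TD_tm, map_add, map_sum, D.Tmap_tm, D.Tmap_tm, D.TD_tm]
    congr 1
    exact Finset.sum_congr rfl fun l _ => by rw [D.Tmap_tm, hf]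

end Desc

end H37.UK
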