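import Pool.Agent.H37.UK.Tp
import Pool.Agent.H37.UK.Tx
import Pool.Agent.H37.UK.Gn

/-!
# Row Ex: the first syzygy

Let `(M, na)` be a `B`-module with connections, generated over `B` by `V = Gs (na 0) (Iic t)` (`gen_of`).

* `ex_V`: `V = Gs (na 0) (Iic t)`, `dV` the restriction of `na 0` to `V` (`Gs_stable`):
  `Gs dV (Iic t) = ⊤`: for `x ∈ V`, `x = ∑ x i`, `i ≤ t`, `x i ∈ G (na 0) i` (`Gs_exists`), `x i ∈ V` and
  `⟨x i, _⟩ ∈ G dV i` (`mem_G`, powers of `dV - i` are restrictions).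
* `ex_step`: let `ψ : V → M` be the inclusion, `π = piP ψ : P = B ⊗ V →ₗ[B] M`.  `π` is surjective by
  `hgen` (its range contains `V` and is a submodule).  Let `θ 0 v = 1 ⊗ dV v` and for `l ≠ 0` let `θ l`
  be a linear map with `π (θ l v) = na l v` (`π` is surjective and `V` is a vector space:
  `LinearMap.exists_rightInverse_of_surjective`).  Let `np l = naP (nu l) (θ l)`.
  `IsCon (nu l) (np l)` (`naP_con`, `nu_der`), `π (np l y) = na l (π y)` (`naP_pi`).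
  Let `Z = ker π` (a `B`-submodule of `P`, and a module over `k`), `nz l` the restriction of `np l` to
  `Z`; `IsCon (nu l) (nz l)`.  `Gs (np 0) univ = ⊤` (`naP_top`, with `hB'`), so `Gs (nz 0) univ = ⊤` (`Gs_inj` for
  the inclusion `Z → P`).  `Z` and `P` are finite dimensional.  `IsGm`: `gm_of`.
  The two short exact sequences: `gr_ses` for `0 → Z → P → M → 0` and for
  `0 → T Z → T P → T M → 0` (`T_inj`, `T_exact`, `T_surj`, `T_TD`, `td_top`).  `InAdd`: `np_inAdd`, `tp_inAdd`.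
-/

universe u

namespace H37.UK

open CategoryTheory H60.KZ TensorProduct

variable {k : Type u} [Field k] [CharZero k]

section

variable {M : Type u} [AddCommGroup M] [Module k M]

omit [CharZero k] in
/-- the restriction of `f` to the sum of its eigenspaces for `S` has only eigenvalues in `S` -/
theorem ex_V (f : M →ₗ[k] M) (S : Set ℤ) :
    Gs (f.restrict (p := Gs f S) (q := Gs f S) (fun _ hx => Gs_stable hx)) S = ⊤ := by
  classical
  rw [eq_top_iff]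
  rintro ⟨x, hx⟩ -
  obtain ⟨s, y, hs, hy, hxy⟩ := Gs_exists hx
  have hz : ∀ i : ℤ, ∃ z : Gs f S, i ∈ S → (z ∈ G (f.restrict (p := Gs f S) (q := Gs f S)
      (fun _ hx => Gs_stable hx)) i ∧ z.1 = y i) := by
    intro i
    by_cases hi : i ∈ S
    · refine ⟨⟨y i, G_le_Gs hi (hy i)⟩, fun _ => ⟨?_, rfl⟩⟩
      obtain ⟨n, hn⟩ := mem_G.1 (hy i)
      refine mem_G.2 ⟨n, Subtype.ext ?_⟩
      have h1 := Eg_key (f := f.restrict (p := Gs f S) (q := Gs f S)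
        (fun _ hx => Gs_stable hx)) (f' := f) (Gs f S).subtype (fun _ => rfl) (i : k) n
        ⟨y i, G_le_Gs hi (hy i)⟩
      exact h1.trans hn
    · exact ⟨0, fun h => absurd h hi⟩
  choose z hz using hz
  have h2 : (⟨x, hx⟩ : Gs f S) = ∑ i ∈ s, z i := by
    apply Subtype.ext
    rw [AddSubmonoidClass.coe_finset_sum]
    change x = _
    rw [hxy]
    exact Finset.sum_congr rfl fun i hi => ((hz i (hs i hi)).2).symm
  rw [h2]
  exact Submodule.sum_mem _ fun i hi => G_le_Gs (hs i hi) (hz i (hs i hi)).1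

end

section

variable {B : Type u} [Ring B] [Algebra k B] {V : Type u} [AddCommGroup V] [Module k V]
  {M : Type u} [AddCommGroup M] [Module k M] [Module B M] [IsScalarTower k B M]

omit [CharZero k] in
/-- the kernel of `piP ψ` is a finite-dimensional vector space -/
theorem Ex_fin [Module.Finite k B] [Module.Finite k V] (ψ : V →ₗ[k] M) :
    Module.Finite k (LinearMap.ker (piP (B := B) ψ)) :=
  Module.Finite.of_injective
    (((LinearMap.ker (piP (B := B) ψ)).subtype).restrictScalars k) Subtype.val_injective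

/-- the restriction of an endomorphism to the kernel -/
def Ex_res (ψ : V →ₗ[k] M) (g : B ⊗[k] V →ₗ[k] B ⊗[k] V)
    (hg : ∀ y, piP ψ y = 0 → piP ψ (g y) = 0) :
    LinearMap.ker (piP (B := B) ψ) →ₗ[k] LinearMap.ker (piP (B := B) ψ) where
  toFun z := ⟨g z.1, hg z.1 z.2⟩
  map_add' y z := Subtype.ext (map_add g y.1 z.1)
  map_smul' c z := Subtype.ext (map_smul g c z.1)

end

namespace Desc

variable {A B : Type u} [Ring A] [Algebra k A] [Ring B] [Algebra k B] {m n : ℕ}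
  (D : Desc k A B m n) {𝒜 : ℤ → Submodule k A} [GradedAlgebra 𝒜] [PosGr 𝒜]
  [IsSemisimpleRing (𝒜 0)] [Module.Finite k A] [Module.Finite k B]
  {ℬ : ℤ → Submodule k B} [GradedAlgebra ℬ]

theorem Ex_aux (he : D.ι 1 ∈ 𝒜 0) (hB : ∀ i, ℬ i ≤ G (D.nu 𝒜 0) i)
    {M : Type u} [AddCommGroup M] [Module k M] [Module B M] [IsScalarTower k B M]
    {na : Fin (m + 1) → M →ₗ[k] M}
    (hna : ∀ l, IsCon (D.nu 𝒜 l) (na l))
    (hM : IsGm ℬ (na 0)) (hT : IsGm 𝒜 (D.TD he hna)) (t : ℤ)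
    {V : Type u} [AddCommGroup V] [Module k V] [Module.Finite k V] (ψ : V →ₗ[k] M)
    (dV : V →ₗ[k] V) (hV : Gs dV (Set.Iic t) = ⊤) (θ : Fin (m + 1) → V →ₗ[k] B ⊗[k] V)
    (hθ0 : ∀ v, θ 0 v = 1 ⊗ₜ dV v) (hθ : ∀ l v, piP ψ (θ l v) = na l (ψ v))
    (hsurj : Function.Surjective (piP (B := B) ψ)) :
    ∃ (Z : Type u) (_ : AddCommGroup Z) (_ : Module k Z) (_ : Module B Z)
      (_ : IsScalarTower k B Z) (_ : Module.Finite k Z) (nz : Fin (m + 1) → Z →ₗ[k] Z)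
      (hnz : ∀ l, IsCon (D.nu 𝒜 l) (nz l)) (_ : Gs (nz 0) Set.univ = ⊤)
      (hZ : IsGm ℬ (nz 0)) (hTZ : IsGm 𝒜 (D.TD he hnz)),
      (∃ (P : GrMod ℬ) (f : gr hZ ⟶ P) (g : P ⟶ gr hM) (w : f ≫ g = 0),
        (ShortComplex.mk f g w).ShortExact ∧ ∃ (r : ℕ) (j : Fin r → ℤ), (∀ a, j a ≤ t) ∧
          InAdd (fun a : Fin r => Pj ℬ (j a)) P) ∧
      (∃ (P : GrMod 𝒜) (f : gr hTZ ⟶ P) (g : P ⟶ gr hT) (w : f ≫ g = 0),
        (ShortComplex.mk f g w).ShortExact ∧ ∃ (r : ℕ) (j : Fin r → ℤ), (∀ a, j a ≤ t) ∧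
          InAdd (fun a : Fin r => Pj 𝒜 (j a)) P) := by
  have hBt : Gs (D.nu 𝒜 0) Set.univ = ⊤ := by
    rw [eq_top_iff]
    intro b _
    induction b using gr_ind (𝒞 := ℬ) with
    | h0 => exact Submodule.zero_mem _
    | hm i c hc => exact G_le_Gs (Set.mem_univ i) (hB i hc)
    | ha a b ha hb => exact Submodule.add_mem _ (ha trivial) (hb trivial)
  have hVt : Gs dV Set.univ = ⊤ := by
    rw [eq_top_iff, ← hV]
    exact Gs_mono (Set.subset_univ _)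
  have hnp : ∀ l, IsCon (D.nu 𝒜 l) (naP (D.nu 𝒜 l) (θ l)) := fun l =>
    naP_con (D.nu_der 𝒜 he l) (θ l)
  have hpi : ∀ l y, piP ψ (naP (D.nu 𝒜 l) (θ l) y) = na l (piP ψ y) := fun l y =>
    naP_pi (hna l) ψ (hθ l) y
  have hker : ∀ l y, piP ψ y = 0 → piP ψ (naP (D.nu 𝒜 l) (θ l) y) = 0 := by
    intro l y hy
    rw [hpi, hy, map_zero]
  have hPt : Gs (naP (D.nu 𝒜 0) (θ 0)) Set.univ = ⊤ := naP_top (D.nu_der 𝒜 he 0) hθ0 hBt hVt
  have hnz : ∀ l, IsCon (M := LinearMap.ker (piP (B := B) ψ)) (D.nu 𝒜 l)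
      (Ex_res (B := B) ψ (naP (D.nu 𝒜 l) (θ l)) (hker l)) := by
    intro l c z
    exact Subtype.ext (hnp l c z.1)
  have hZt : Gs (M := LinearMap.ker (piP (B := B) ψ))
      (Ex_res (B := B) ψ (naP (D.nu 𝒜 0) (θ 0)) (hker 0)) Set.univ = ⊤ :=
    Gs_inj (g := ((LinearMap.ker (piP (B := B) ψ)).subtype).restrictScalars k)
      (f' := naP (D.nu 𝒜 0) (θ 0)) Subtype.val_injective (fun _ => rfl) hPt
  have hZ : IsGm (M := LinearMap.ker (piP (B := B) ψ)) ℬ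
      (Ex_res (B := B) ψ (naP (D.nu 𝒜 0) (θ 0)) (hker 0)) := gm_of (hnz 0) hB
  have hTZ : IsGm 𝒜 (D.TD he hnz) := gm_of (D.TD_con 𝒜 he hnz) (fun i => eul_G i)
  have hP : IsGm ℬ (naP (D.nu 𝒜 0) (θ 0)) := gm_of (hnp 0) hB
  have hTP : IsGm 𝒜 (D.TD he hnp) := gm_of (D.TD_con 𝒜 he hnp) (fun i => eul_G i)
  haveI := Ex_fin (B := B) ψ
  refine ⟨LinearMap.ker (piP (B := B) ψ), inferInstance, inferInstance, inferInstance,
    inferInstance, inferInstance, fun l => Ex_res ψ (naP (D.nu 𝒜 l) (θ l)) (hker l), hnz, hZt,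
    hZ, hTZ, ?_, ?_⟩
  · obtain ⟨w, hw⟩ := gr_ses hZ hP hM ((LinearMap.ker (piP (B := B) ψ)).subtype) (piP ψ)
      (fun _ => rfl) (hpi 0) Subtype.val_injective
      (fun y => ⟨fun hy => ⟨⟨y, hy⟩, rfl⟩, fun ⟨z, hz⟩ => hz ▸ z.2⟩) hsurj hPt
    exact ⟨gr hP, _, _, w, hw, np_inAdd (D.nu_der 𝒜 he 0) hθ0 hBt hV hP⟩
  · obtain ⟨w, hw⟩ := gr_ses hTZ hTP hT
      (D.Tmap ((LinearMap.ker (piP (B := B) ψ)).subtype)) (D.Tmap (piP ψ))
      (D.T_TD he hnz hnp ((LinearMap.ker (piP (B := B) ψ)).subtype) (fun _ _ => rfl))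
      (D.T_TD he hnp hna (piP ψ) hpi)
      (D.T_inj _ Subtype.val_injective)
      (D.T_exact _ _ (fun y => ⟨fun hy => ⟨⟨y, hy⟩, rfl⟩, fun ⟨z, hz⟩ => hz ▸ z.2⟩))
      (D.T_surj _ hsurj) (D.td_top he hnp hPt)
    exact ⟨gr hTP, _, _, w, hw, D.tp_inAdd he hθ0 hBt hV hnp hTP⟩

theorem ex_step (he : D.ι 1 ∈ 𝒜 0) (hB : ∀ i, ℬ i ≤ G (D.nu 𝒜 0) i)
    (M : Type u) [AddCommGroup M] [Module k M] [Module B M] [IsScalarTower k B M]
    [Module.Finite k M] (na : Fin (m + 1) → M →ₗ[k] M)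
    (hna : ∀ l, IsCon (D.nu 𝒜 l) (na l)) (htop : Gs (na 0) Set.univ = ⊤)
    (hM : IsGm ℬ (na 0)) (hT : IsGm 𝒜 (D.TD he hna)) (t : ℤ)
    (hgen : Submodule.span B (Gs (na 0) (Set.Iic t) : Set M) = ⊤) :
    ∃ (Z : Type u) (_ : AddCommGroup Z) (_ : Module k Z) (_ : Module B Z)
      (_ : IsScalarTower k B Z) (_ : Module.Finite k Z) (nz : Fin (m + 1) → Z →ₗ[k] Z)
      (hnz : ∀ l, IsCon (D.nu 𝒜 l) (nz l)) (_ : Gs (nz 0) Set.univ = ⊤)
      (hZ : IsGm ℬ (nz 0)) (hTZ : IsGm 𝒜 (D.TD he hnz)),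
      (∃ (P : GrMod ℬ) (f : gr hZ ⟶ P) (g : P ⟶ gr hM) (w : f ≫ g = 0),
        (ShortComplex.mk f g w).ShortExact ∧ ∃ (r : ℕ) (j : Fin r → ℤ), (∀ a, j a ≤ t) ∧
          InAdd (fun a : Fin r => Pj ℬ (j a)) P) ∧
      (∃ (P : GrMod 𝒜) (f : gr hTZ ⟶ P) (g : P ⟶ gr hT) (w : f ≫ g = 0),
        (ShortComplex.mk f g w).ShortExact ∧ ∃ (r : ℕ) (j : Fin r → ℤ), (∀ a, j a ≤ t) ∧
          InAdd (fun a : Fin r => Pj 𝒜 (j a)) P) := by
  classical
  have hVs : ∀ x ∈ Gs (na 0) (Set.Iic t), na 0 x ∈ Gs (na 0) (Set.Iic t) :=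
    fun _ hx => Gs_stable hx
  have hsurj : Function.Surjective
      (piP (B := B) (Gs (na 0) (Set.Iic t)).subtype) := by
    rw [← LinearMap.range_eq_top, eq_top_iff, ← hgen]
    refine Submodule.span_le.2 ?_
    intro x hx
    refine ⟨(1 : B) ⊗ₜ[k] ⟨x, hx⟩, ?_⟩
    rw [piP_tmul, one_smul]
    rfl
  obtain ⟨σ, hσ⟩ := LinearMap.exists_rightInverse_of_surjective
    ((piP (B := B) (Gs (na 0) (Set.Iic t)).subtype).restrictScalars k)
    (LinearMap.range_eq_top.2 hsurj)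
  refine D.Ex_aux he hB hna hM hT t (Gs (na 0) (Set.Iic t)).subtype
    ((na 0).restrict (p := Gs (na 0) (Set.Iic t)) (q := Gs (na 0) (Set.Iic t))
      (fun _ hx => Gs_stable hx)) (ex_V (na 0) (Set.Iic t))
    (fun l => if l = 0 then (TensorProduct.mk k B (Gs (na 0) (Set.Iic t)) 1) ∘ₗ
      ((na 0).restrict (p := Gs (na 0) (Set.Iic t)) (q := Gs (na 0) (Set.Iic t))
      (fun _ hx => Gs_stable hx)) else σ ∘ₗ na l ∘ₗ (Gs (na 0) (Set.Iic t)).subtype)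
    ?_ ?_ hsurj
  · intro v
    rw [if_pos rfl]
    rfl
  · intro l v
    by_cases hl : l = 0
    · rw [if_pos hl, hl]
      change piP _ ((1 : B) ⊗ₜ[k] _) = _
      rw [piP_tmul, one_smul]
      rfl
    · rw [if_neg hl]
      exact LinearMap.congr_fun hσ (na l v.1)

end Desc

end H37.UK
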