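import Pool.Agent.H37.UK.Ge
import Pool.Agent.H60.KZ.GmJ

/-!
# Row Fr: homogeneous symmetrising forms

`tr` is a symmetrising form of the connected algebra `B`.  Let `pjc ℬ i : B → ℬ i` be the projection
(GmJ: `pjc_same`, `pjc_ne`), `tr_i (b) = tr (pjc ℬ i b)`.

* `tr_i (a b) = tr_i (b a)`: for `a ∈ ℬ p`, `b ∈ ℬ q` both sides are `tr (a b) = tr (b a)` if `p + q = i` and `0`
  otherwise; in general by `gr_ind`.
* The map `B → (B →ₗ[k] k)`, `z ↦ tr (z * ·)` is injective (`hnd`), so bijective (finite dimension).  So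
  `tr_i = tr (z_i * ·)` with `z_i : B`, and `z_i` is central: `tr ((z_i a - a z_i) b) = tr_i (a b) - tr (z_i b a)
  = tr_i (a b) - tr_i (b a) = 0` for all `b` (using symmetry of `tr`).
* Only finitely many `ℬ i` are nonzero (`GmD_bdd`), `∑ tr_i = tr` so `∑ z_i = 1` (a finite sum).
* The centre `Z` of `B` is a finite dimensional commutative algebra in which `0`, `1` are the only
  idempotents, so it is a local ring (if `B` is nontrivial): for `z ∈ Z` by Fitting (`k[z]` is artinian, or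
  `B = ker z^N ⊕ im z^N`, and the projection is the multiplication by a central idempotent, namely a
  polynomial in `z`) `z` is nilpotent or invertible.  Nilpotent central elements form an ideal which does
  not contain `1 = ∑ z_i`, so some `z_i` is invertible (in `B`).
* For this `i`: `tr_i (y x) = 0` for all `y` gives `tr (z_i x y) = tr_i (x y) = tr_i (y x) = 0`, so
  `z_i x = 0`, `x = 0`.  `tr_i` vanishes on `ℬ p`, `p ≠ i`.  As `tr_i ≠ 0` (`B` nontrivial), `ℬ i ≠ ⊥`, `i ≥ 0`
  (`PosGr`), so `i = s : ℕ`.  If `B` is trivial take `s = 0`, `lam = 0`.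
-/

universe u

namespace H37.UK

open CategoryTheory H60.KZ

variable {k : Type u} [Field k] {B : Type u} [Ring B] [Algebra k B] [Module.Finite k B]

/-- The part of degree `i` of the form. -/
noncomputable def Fr_T (ℬ : ℤ → Submodule k B) [GradedAlgebra ℬ] (tr : B →ₗ[k] k) (i : ℤ) :
    B →ₗ[k] k := tr ∘ₗ (ℬ i).subtype ∘ₗ pjc ℬ i

lemma Fr_T_same (ℬ : ℤ → Submodule k B) [GradedAlgebra ℬ] (tr : B →ₗ[k] k) {i : ℤ} {x : B}
    (hx : x ∈ ℬ i) : Fr_T ℬ tr i x = tr x := by
  change tr (pjc ℬ i x : B) = tr x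
  exact congrArg tr (DirectSum.decompose_of_mem_same ℬ hx)

lemma Fr_T_ne (ℬ : ℤ → Submodule k B) [GradedAlgebra ℬ] (tr : B →ₗ[k] k) {i p : ℤ} {x : B}
    (hx : x ∈ ℬ p) (h : p ≠ i) : Fr_T ℬ tr i x = 0 := by
  have h1 : (pjc ℬ i x : B) = 0 := DirectSum.decompose_of_mem_ne ℬ hx h
  change tr (pjc ℬ i x : B) = 0
  rw [h1, map_zero]

lemma Fr_T_symm (ℬ : ℤ → Submodule k B) [GradedAlgebra ℬ] (tr : B →ₗ[k] k)
    (hsym : ∀ a b, tr (a * b) = tr (b * a)) (i : ℤ) (a b : B) :
    Fr_T ℬ tr i (a * b) = Fr_T ℬ tr i (b * a) := by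
  induction a using gr_ind (𝒞 := ℬ) with
  | h0 => rw [zero_mul, mul_zero]
  | ha a a' h h' => rw [add_mul, mul_add, map_add, map_add, h, h']
  | hm p a ha =>
    induction b using gr_ind (𝒞 := ℬ) with
    | h0 => rw [zero_mul, mul_zero]
    | ha b b' h h' => rw [add_mul, mul_add, map_add, map_add, h, h']
    | hm q b hb =>
      have h1 : a * b ∈ ℬ (p + q) := SetLike.mul_mem_graded ha hb
      have h2 : b * a ∈ ℬ (p + q) := by
        rw [add_comm]
        exact SetLike.mul_mem_graded hb ha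
      by_cases hi : p + q = i
      · subst hi
        rw [Fr_T_same ℬ tr h1, Fr_T_same ℬ tr h2, hsym]
      · rw [Fr_T_ne ℬ tr h1 hi, Fr_T_ne ℬ tr h2 hi]

lemma Fr_rep (tr : B →ₗ[k] k) (hnd : ∀ a, (∀ b, tr (a * b) = 0) → a = 0) (φ : B →ₗ[k] k) :
    ∃ z : B, ∀ b, φ b = tr (z * b) := by
  have hinj : Function.Injective ((LinearMap.mul k B).compr₂ tr) := by
    rw [injective_iff_map_eq_zero]
    intro x hx
    apply hnd
    intro y
    exact LinearMap.congr_fun hx y
  have hsur := (LinearMap.injective_iff_surjective_of_finrank_eq_finrank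
    (Subspace.dual_finrank_eq (K := k) (V := B)).symm).1 hinj
  obtain ⟨z, hz⟩ := hsur φ
  exact ⟨z, fun b => (LinearMap.congr_fun hz b).symm⟩

lemma Fr_local (k : Type u) [Field k] {B : Type u} [Ring B] [Algebra k B] [Module.Finite k B]
    (hconn : ∀ z : B, z * z = z → (∀ b, z * b = b * z) → z = 0 ∨ z = 1) (z : B)
    (hz : ∀ b, z * b = b * z) : IsNilpotent z ∨ IsUnit z := by
  obtain ⟨n, hn, hcompl⟩ : ∃ n, 1 ≤ n ∧ IsCompl (LinearMap.ker ((LinearMap.mulLeft k z) ^ n))
      (LinearMap.range ((LinearMap.mulLeft k z) ^ n)) := by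
    have h1 := LinearMap.eventually_isCompl_ker_pow_range_pow (LinearMap.mulLeft k z)
    rw [Filter.eventually_atTop] at h1
    obtain ⟨N, hN⟩ := h1
    exact ⟨N + 1, by omega, hN _ (by omega)⟩
  rw [LinearMap.pow_mulLeft] at hcompl
  obtain ⟨c, hc⟩ : ∃ c, c = z ^ n := ⟨_, rfl⟩
  rw [← hc] at hcompl
  have hcc : ∀ b, c * b = b * c := by
    intro b
    rw [hc]
    exact (Commute.pow_left (hz b) n)
  have hker : ∀ x : B, x ∈ LinearMap.ker (LinearMap.mulLeft k c) ↔ c * x = 0 := fun x => by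
    rw [LinearMap.mem_ker, LinearMap.mulLeft_apply]
  have hran : ∀ x : B, x ∈ LinearMap.range (LinearMap.mulLeft k c) ↔ ∃ w, c * w = x := fun x => by
    rw [LinearMap.mem_range]
    rfl
  have h1 : (1 : B) ∈ LinearMap.ker (LinearMap.mulLeft k c) ⊔
      LinearMap.range (LinearMap.mulLeft k c) := by
    rw [hcompl.sup_eq_top]
    exact Submodule.mem_top
  obtain ⟨e, he, f, hf, hef⟩ := Submodule.mem_sup.1 h1
  rw [hker] at he
  obtain ⟨w, hw⟩ := (hran f).1 hf
  have hdis : ∀ x : B, c * x = 0 → (∃ w, c * w = x) → x = 0 := by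
    intro x hx1 hx2
    have := hcompl.disjoint.le_bot (⟨(hker x).2 hx1, (hran x).2 hx2⟩ :
      x ∈ LinearMap.ker (LinearMap.mulLeft k c) ⊓ LinearMap.range (LinearMap.mulLeft k c))
    exact (Submodule.mem_bot k).1 this
  have hefz : e * f = 0 := by
    rw [← hw, ← mul_assoc, ← hcc e, he, zero_mul]
  have hee : e * e = e := by
    calc e * e = e * e + e * f := by rw [hefz, add_zero]
      _ = e * (e + f) := by rw [mul_add]
      _ = e := by rw [hef, mul_one]
  have hec : ∀ b, e * b = b * e := by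
    intro b
    have h2 : e * b - b * e = b * f - f * b := by
      have h3 : (e + f) * b = b * (e + f) := by rw [hef, one_mul, mul_one]
      rw [add_mul, mul_add] at h3
      rw [sub_eq_sub_iff_add_eq_add, h3]
      abel
    have h4 : e * b - b * e = 0 := by
      apply hdis
      · rw [mul_sub, ← mul_assoc, he, zero_mul, ← mul_assoc, hcc b, mul_assoc, he, mul_zero,
          sub_zero]
      · refine ⟨b * w - w * b, ?_⟩
        rw [h2, ← hw, mul_sub, ← mul_assoc, ← mul_assoc, ← mul_assoc, hcc b]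
    exact sub_eq_zero.1 h4
  rcases hconn e hee hec with h0 | h0
  · right
    rw [h0, zero_add] at hef
    have h5 : c * w = 1 := by rw [hw, hef]
    have h6 : w * c = 1 := by rw [← hcc, h5]
    have h7 : IsUnit c := ⟨⟨c, w, h5, h6⟩, rfl⟩
    rw [hc] at h7
    exact (isUnit_pow_iff (by omega)).1 h7
  · left
    rw [h0, mul_one, hc] at he
    exact ⟨n, he⟩

lemma Fr_sum_nil {B : Type u} [Ring B] {ι : Type*} (s : Finset ι) (z : ι → B) (hz : ∀ i ∈ s, ∀ b, z i * b = b * z i)
    (hn : ∀ i ∈ s, IsNilpotent (z i)) : IsNilpotent (∑ i ∈ s, z i) := by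
  classical
  induction s using Finset.induction_on with
  | empty =>
    rw [Finset.sum_empty]
    exact IsNilpotent.zero
  | insert a s ha ih =>
    rw [Finset.sum_insert ha]
    refine Commute.isNilpotent_add (hz a (Finset.mem_insert_self a s) _)
      (hn a (Finset.mem_insert_self a s)) (ih ?_ ?_)
    · exact fun i hi => hz i (Finset.mem_insert_of_mem hi)
    · exact fun i hi => hn i (Finset.mem_insert_of_mem hi)

theorem fr (ℬ : ℤ → Submodule k B) [GradedAlgebra ℬ] [PosGr ℬ] (tr : B →ₗ[k] k)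
    (hsym : ∀ a b, tr (a * b) = tr (b * a)) (hnd : ∀ a, (∀ b, tr (a * b) = 0) → a = 0)
    (hconn : ∀ z : B, z * z = z → (∀ b, z * b = b * z) → z = 0 ∨ z = 1) :
    ∃ (s : ℕ) (lam : B →ₗ[k] k), GrFrob ℬ s lam := by
  rcases subsingleton_or_nontrivial B with hB | hB
  · exact ⟨0, 0, ⟨fun _ _ _ _ => rfl, fun x _ => Subsingleton.elim _ _⟩⟩
  have hrep : ∀ i : ℤ, ∃ z : B, ∀ b, Fr_T ℬ tr i b = tr (z * b) := fun i =>
    Fr_rep tr hnd (Fr_T ℬ tr i)
  choose z hz using hrep
  have hzc : ∀ i b, z i * b = b * z i := by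
    intro i a
    have h0 : z i * a - a * z i = 0 := by
      apply hnd
      intro b
      rw [sub_mul, map_sub, mul_assoc, ← hz, mul_assoc, hsym a, mul_assoc, ← hz,
        Fr_T_symm ℬ tr hsym, sub_self]
    exact sub_eq_zero.1 h0
  obtain ⟨a0, b0, hab⟩ := GmD_bdd ℬ
  have hsum : ∑ i ∈ Finset.Icc a0 b0, z i = 1 := by
    have h0 : ∑ i ∈ Finset.Icc a0 b0, z i - 1 = 0 := by
      apply hnd
      intro b
      induction b using gr_ind (𝒞 := ℬ) with
      | h0 => rw [mul_zero, map_zero]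
      | ha b b' h h' => rw [mul_add, map_add, h, h', add_zero]
      | hm p b hb =>
        rw [sub_mul, one_mul, map_sub, Finset.sum_mul, map_sum]
        by_cases hp : p ∈ Finset.Icc a0 b0
        · rw [Finset.sum_eq_single p]
          · rw [← hz, Fr_T_same ℬ tr hb, sub_self]
          · intro q _ hq
            rw [← hz, Fr_T_ne ℬ tr hb (Ne.symm hq)]
          · exact fun h => absurd hp h
        · have hb0 : b = 0 := by
            rw [Finset.mem_Icc] at hp
            rw [hab p (by omega)] at hb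
            exact (Submodule.mem_bot k).1 hb
          simp [hb0]
    exact sub_eq_zero.1 h0
  obtain ⟨i, hi⟩ : ∃ i, IsUnit (z i) := by
    by_contra hcon
    push Not at hcon
    have h1 : IsNilpotent (∑ i ∈ Finset.Icc a0 b0, z i) :=
      Fr_sum_nil _ _ (fun i _ => hzc i) fun i _ =>
        (Fr_local k hconn (z i) (hzc i)).resolve_right (hcon i)
    rw [hsum] at h1
    exact not_isNilpotent_one h1
  have hi0 : 0 ≤ i := by
    by_contra hneg
    have h1 : z i = 0 := by
      apply hnd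
      intro b
      rw [← hz]
      change tr (pjc ℬ i b : B) = 0
      have h2 := (pjc ℬ i b).2
      have h3 := (Submodule.mem_bot k).1 ((le_of_eq (PosGr.neg (ℬ := ℬ) i (by omega))) h2)
      rw [h3, map_zero]
    rw [h1] at hi
    exact not_isUnit_zero hi
  obtain ⟨s, rfl⟩ := Int.eq_ofNat_of_zero_le hi0
  refine ⟨s, Fr_T ℬ tr s, ⟨fun p hp x hx => Fr_T_ne ℬ tr hx hp, fun x hx => ?_⟩⟩
  have h1 : z s * x = 0 := by
    apply hnd
    intro y
    rw [mul_assoc, ← hz, Fr_T_symm ℬ tr hsym]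
    exact hx y
  exact (hi.mul_right_eq_zero).1 h1

end H37.UK
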