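import Pool.Agent.H37.UK.Mn
import Pool.Agent.H37.UK.Bs
import Pool.Agent.H37.UK.Fr
import Pool.Agent.H60.KZ.St3

/-!
# Final assembly
-/

universe w u

namespace H37.UK

open CategoryTheory H60.KZ TensorProduct

variable {k : Type u} [Field k] [CharZero k]

namespace Desc

variable {A B : Type u} [Ring A] [Algebra k A] [Ring B] [Algebra k B] {m n : ℕ}
  (D : Desc k A B m n) {𝒜 : ℤ → Submodule k A} [GradedAlgebra 𝒜] [PosGr 𝒜]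
  [IsSemisimpleRing (𝒜 0)] [Module.Finite k A] [Module.Finite k B]
  {ℬ : ℤ → Submodule k B} [GradedAlgebra ℬ] [PosGr ℬ]

theorem finReg [HasDerivedCategory.{w} (GrMod 𝒜)] [HasDerivedCategory.{w} (GrMod ℬ)]
    (hA : IsKoszul 𝒜) (he : D.ι 1 ∈ 𝒜 0) (hB : ∀ i, ℬ i ≤ G (D.nu 𝒜 0) i)
    (hJ : ge ℬ 1 = D.J 𝒜) : FinReg ℬ := by
  obtain ⟨S, i1, i2, i3, i4, i5, na, hna, htop, hS, hT, ⟨iso⟩, hsupp⟩ := D.base he hB hJ
  obtain ⟨s, hs⟩ := ge_top (𝒞 := 𝒜)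
  refine ⟨s, fun q j hj => ?_⟩
  rcases lt_or_ge q 0 with hq | hq
  · exact vv_neg _ _ _ hq
  obtain ⟨i, rfl⟩ := Int.eq_ofNat_of_zero_le hq
  have hreg : ∀ i' : ℕ, i' ≤ i → ∀ j : ℤ, i' + (s : ℤ) < j → VV (gr hT) (Sj 𝒜 j) i' := by
    intro i' _ j hj
    exact vv_reg hA (gr hT) (gr_fd hT) 0 s (hsupp s hs) i' j (by lia)
  have h1 := D.main he hB hJ i S na hna htop hS hT s hreg j hj
  exact fx4_iso ((sg (C := GrMod ℬ)).mapIso iso.symm) (Iso.refl _) i h1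

end Desc

theorem descent {A B : Type u} [Ring A] [Algebra k A] [Ring B] [Algebra k B] {m n : ℕ}
    [Module.Finite k A] (𝒜 : ℤ → Submodule k A) [GradedAlgebra 𝒜] [PosGr 𝒜]
    [IsSemisimpleRing (𝒜 0)] (hA : Koszul 𝒜) (D : Desc k A B m n) (he : D.ι 1 ∈ 𝒜 0)
    (tr : B →ₗ[k] k) (hsym : ∀ a b, tr (a * b) = tr (b * a))
    (hnd : ∀ a, (∀ b, tr (a * b) = 0) → a = 0)
    (hconn : ∀ z : B, z * z = z → (∀ b, z * b = b * z) → z = 0 ∨ z = 1)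
    (hfg : ∀ (ℬ : ℤ → Submodule k B) [GradedAlgebra ℬ] [PosGr ℬ] [IsSemisimpleRing (ℬ 0)],
      ∃ (d c : ℕ) (e : Fin c → ℤ) (ζ : ∀ a, 𝟭 (DG ℬ) ⟶ Phi ℬ (e a) d), 1 ≤ d ∧
        (∀ a, e a = d → IsCent (kap ℬ (e a) d) (ζ a)) ∧ (∀ a b, Comm (ζ a) (ζ b)) ∧
        FgOver ζ) :
    ∃ (ℬ : ℤ → Submodule k B) (_ : GradedAlgebra ℬ) (_ : PosGr ℬ),
      IsSemisimpleRing (ℬ 0) ∧ Koszul ℬ := by
  have hfin : Module.Finite k B := Desc.fin_B k A D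
  obtain ⟨i1⟩ := D.gr_alg he
  let ℬ : ℤ → Submodule k B := fun i => G (D.nu 𝒜 0) i
  have i1 : GradedAlgebra ℬ := i1
  have i2 : PosGr ℬ := D.gr_pos he
  have i3 : IsSemisimpleRing (ℬ 0) := D.gr_ss he
  obtain ⟨s, lam, hfrob⟩ := fr ℬ tr hsym hnd hconn
  obtain ⟨d, c, e, ζ, hd, hcent, hcomm, hfg'⟩ := hfg ℬ
  refine ⟨ℬ, i1, i2, i3, ?_⟩
  refine (st3_iff hfrob d hd e ζ hcent hcomm hfg').2 ?_
  let _ : HasDerivedCategory.{u + 1} (GrMod ℬ) := instDerGrM ℬ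
  let _ : HasDerivedCategory.{u + 1} (GrMod 𝒜) := instDerGrM 𝒜
  exact reg_iff.2 (D.finReg (koszul_iff.1 hA) he (fun i => le_rfl) (D.gr_ge he))

end H37.UK
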