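import Pool.Agent.H37.UK.An
import Pool.Agent.H37.UK.Eh
import Mathlib.RingTheory.Artinian.Ring
import Mathlib.RingTheory.SimpleModule.WedderburnArtin

/-!
# Row Gr: the grading of `B`

`ν = D.nu 𝒜 0`, `Bg i = G ν i`.

* `gr_alg`: `1 ∈ G ν 0`: `ν 1 = 0` (`nu_der`: `ν 1 = ν 1 + ν 1`).  `G ν i * G ν j ≤ G ν (i + j)`: `con_G` for
  the module `B` over itself and `IsCon ν ν` (`nu_der`).  Decomposition: the `G ν i` are independent
  (`G_indep`) and their sum is everything (`an_top`, `Gs_mono`), so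
  `DirectSum.IsInternal` (`DirectSum.isInternal_submodule_of_iSupIndep_of_iSup_eq_top`), and
  `DirectSum.IsInternal.chooseDecomposition`; then
  `GradedAlgebra`/`GradedRing` from `SetLike.GradedMonoid` and `DirectSum.Decomposition`.
* `gr_pos`: `G_eq_bot` for `S = Ici 0` (`an_top`).
* `gr_ge`: `ge ℬ 1 = ⨆_{i ≥ 1} G ν i = Gs ν (Ici 1)`, `an_J`.
* `gr_ss`: `B` is finite dimensional (`ι_inj`), so `ℬ 0` is artinian (a finite dimensional algebra over
  `k`).  By `IsArtinianRing.isSemisimpleRing_iff_jacobson` it is enough that the Jacobson radical `R` of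
  `ℬ 0` is `⊥`.  `R` is nilpotent (`IsArtinianRing.isNilpotent_jacobson_bot` or similar): `R^N = ⊥`.
  Let `b ∈ R`.  Apply `J_semi` to `b`: for a list `L` of length `N` of elements of `B`, write each
  `a ∈ L` as `a₀ + a'`, `a₀ ∈ ℬ 0`, `a' ∈ ge ℬ 1 = J` (`ge_split`, `ge_zero`); modulo the ideal `J`
  (`J_left`, `J_right`) the product of the `a b` is the product of the `a₀ b ∈ R`, which is `0`.
  So `b ∈ J = ge ℬ 1`, and `b ∈ ℬ 0`, so `b = 0` (`mem_ge_iff`).
  (Alternatively: use that a finite dimensional algebra all of whose nilpotent left ideals vanish is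
  semisimple.)
-/

universe u

namespace H37.UK

open CategoryTheory H60.KZ

variable {k : Type u} [Field k] [CharZero k]

theorem Gr_ss {C : Type u} [Ring C] [Algebra k C] (𝒞 : ℤ → Submodule k C) [GradedAlgebra 𝒞]
    [PosGr 𝒞] [Module.Finite k C]
    (h : ∀ (b : C) (N : ℕ), (∀ L : List C, L.length = N →
      (L.map (fun a => a * b)).prod ∈ ge 𝒞 1) → b ∈ ge 𝒞 1) : IsSemisimpleRing (𝒞 0) := by
  haveI : IsScalarTower k (𝒞 0) (𝒞 0) :=
    ⟨fun r x y => Subtype.ext (smul_mul_assoc r (x : C) (y : C))⟩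
  haveI : IsArtinianRing (𝒞 0) := IsArtinianRing.of_finite k (𝒞 0)
  rw [IsArtinianRing.isSemisimpleRing_iff_jacobson]
  obtain ⟨N, hN⟩ := (inferInstance : IsSemiprimaryRing (𝒞 0)).isNilpotent
  rw [eq_bot_iff]
  intro b hb
  have claim : ∀ L : List C, ∃ c : 𝒞 0, c ∈ Ring.jacobson (𝒞 0) ^ L.length ∧
      (L.map (fun a => a * (b : C))).prod - (c : C) ∈ ge 𝒞 1 := by
    intro L
    induction L using List.reverseRecOn with
    | nil =>
      refine ⟨1, ?_, ?_⟩
      · rw [List.length_nil, Submodule.pow_zero]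
        exact Ideal.one_eq_top (R := 𝒞 0) ▸ Submodule.mem_top
      · rw [List.map_nil, List.prod_nil]
        have h1 : ((1 : 𝒞 0) : C) = 1 := rfl
        rw [h1, sub_self]
        exact Submodule.zero_mem _
    | append_singleton L a ih =>
      obtain ⟨c, hc, hcL⟩ := ih
      obtain ⟨a0, ha0, a1, ha1, haa⟩ := ge_split (𝒞 := 𝒞) (i := 0) (c := a)
        (by rw [ge_zero]; exact Submodule.mem_top)
      refine ⟨c * (⟨a0, ha0⟩ * b), ?_, ?_⟩
      · rw [List.length_append, List.length_singleton, Submodule.pow_succ]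
        exact Ideal.mul_mem_mul hc (Ideal.mul_mem_left _ _ hb)
      · rw [List.map_append, List.map_singleton, List.prod_append, List.prod_singleton]
        have h1 : ((c * (⟨a0, ha0⟩ * b) : 𝒞 0) : C) = (c : C) * (a0 * (b : C)) := rfl
        rw [h1]
        have h2 : (L.map (fun a => a * (b : C))).prod * (a * (b : C)) - (c : C) * (a0 * (b : C)) =
            ((L.map (fun a => a * (b : C))).prod - (c : C)) * (a * (b : C)) +
              (c : C) * (a1 * (b : C)) := by
          rw [haa]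
          noncomm_ring
        rw [h2]
        exact Submodule.add_mem _ (ge_right _ hcL) (ge_left _ (ge_right _ ha1))
  have h3 : (b : C) ∈ ge 𝒞 1 := by
    refine h b N fun L hL => ?_
    obtain ⟨c, hc, hcL⟩ := claim L
    rw [hL, hN] at hc
    have hc0 : c = 0 := hc
    rw [hc0] at hcL
    have h4 : ((0 : 𝒞 0) : C) = 0 := rfl
    rw [h4, sub_zero] at hcL
    exact hcL
  have h5 := mem_ge_iff.1 h3 0 zero_lt_one
  rw [DirectSum.decompose_of_mem_same 𝒞 b.2] at h5
  have h6 : b = 0 := Subtype.ext h5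
  rw [h6]
  exact Submodule.zero_mem _

namespace Desc

variable {A B : Type u} [Ring A] [Algebra k A] [Ring B] [Algebra k B] {m n : ℕ}
  (D : Desc k A B m n) {𝒜 : ℤ → Submodule k A} [GradedAlgebra 𝒜] [PosGr 𝒜]
  [IsSemisimpleRing (𝒜 0)] [Module.Finite k A]

include D in
variable (k A) in
omit [CharZero k] in
theorem fin_B : Module.Finite k B := by
  exact Module.Finite.of_injective D.ι D.ι_inj

theorem gr_alg (he : D.ι 1 ∈ 𝒜 0) : Nonempty (GradedAlgebra (fun i => G (D.nu 𝒜 0) i)) := by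
  have hder := D.nu_der 𝒜 he 0
  have hcon : IsCon (D.nu 𝒜 0) (D.nu 𝒜 0) := fun c m => hder c m
  have h1 : D.nu 𝒜 0 1 = 0 := by
    have h2 := hder 1 1
    rw [mul_one, one_mul, mul_one] at h2
    exact left_eq_add.1 h2
  have hone : (1 : B) ∈ G (D.nu 𝒜 0) 0 := by
    refine mem_G.2 ⟨1, ?_⟩
    rw [pow_one, LinearMap.sub_apply, h1, LinearMap.smul_apply, Int.cast_zero, zero_smul, sub_self]
  have htop : iSup (fun i => G (D.nu 𝒜 0) i) = ⊤ := by
    rw [eq_top_iff, ← D.an_top he]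
    exact iSup₂_le fun i _ => le_iSup (fun i => G (D.nu 𝒜 0) i) i
  have hint : DirectSum.IsInternal (fun i => G (D.nu 𝒜 0) i) :=
    DirectSum.isInternal_submodule_of_iSupIndep_of_iSup_eq_top (G_indep (D.nu 𝒜 0)) htop
  letI hdec : DirectSum.Decomposition (fun i => G (D.nu 𝒜 0) i) := hint.chooseDecomposition
  haveI hmon : SetLike.GradedMonoid (fun i => G (D.nu 𝒜 0) i) :=
    { one_mem := hone
      mul_mem := fun i j gi gj hi hj => con_G hcon hi hj }
  exact ⟨{ hmon, hdec with }⟩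

theorem gr_pos (he : D.ι 1 ∈ 𝒜 0) : PosGr (fun i => G (D.nu 𝒜 0) i) := by
  refine ⟨fun i hi => G_eq_bot (D.an_top he) ?_⟩
  rw [Set.mem_Ici]
  exact not_le.2 hi

theorem gr_ge (he : D.ι 1 ∈ 𝒜 0) : ge (fun i => G (D.nu 𝒜 0) i) 1 = D.J 𝒜 := by
  exact (D.an_J he).symm

theorem gr_ss (he : D.ι 1 ∈ 𝒜 0) [GradedAlgebra (fun i => G (D.nu 𝒜 0) i)] :
    IsSemisimpleRing (G (D.nu 𝒜 0) 0) := by
  haveI : Module.Finite k B := D.fin_B
  haveI : PosGr (fun i => G (D.nu 𝒜 0) i) := D.gr_pos he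
  refine Gr_ss (fun i => G (D.nu 𝒜 0) i) fun b N h => ?_
  have hge := D.gr_ge he
  rw [hge] at h ⊢
  exact D.J_semi N h

end Desc

end H37.UK
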