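import Pool.Agent.H37.UK.Ex
import Pool.Agent.H60.KZ.Dr1
import Pool.Agent.H60.KZ.GmF

/-!
# Row Mn: the main induction

`VV X Y n` says `Ext^n(X, Y) = 0`; see Pool.Agent.H60.KZ.Dr1 for `vv_zero`, `vv_proj`, `vv_dim`, `vv_syz`,
`vv_hom_zero`, `vv_inAdd_left`, `vv_ses_left`, and GmD for `inAdd_proj`, `Pj_proj`.

* `mn_inAdd`: let `P` be in `InAdd (fun a => Pj 𝒞 (j a))`, `j a ≤ t`.  Then `VV P N n` for `n > 0`
  (`inAdd_proj`, `vv_proj`), and `VV P (Sj 𝒞 i) 0` for `i > t`: by `vv_inAdd_left` and `vv_zero` it is enough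
  that every `φ : Pj 𝒞 q ⟶ Sj 𝒞 i`, `q ≤ t < i`, is zero: `yon_ext` and `Sj_supp` (the component of
  `Sj 𝒞 i` in degree `q ≠ i` is zero).
* `main`: induction on `i`, for all `M`.  By `hv` for `i' = 0` and `vv_hom_zero`, every morphism
  `gr hT ⟶ Sj 𝒜 j`, `j > t`, is zero, so `G TD j ≤ mulS (T M) (ge 𝒜 1)` (`le_of_hom_zero`) and
  `x ∈ mulS M (D.J 𝒜) = mulS M (ge ℬ 1)` for `x ∈ G (na 0) j`, `j > t` (`tau_G`, `hJ`).
  `i = 0`: `hom_zero` and `vv_zero`.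
  `i + 1`: `gen_of` gives `hgen` of `ex_step`; take `Z`, `P`, `P'` from `ex_step`.  For `i' ≤ i` and
  `j > i' + (t + 1)`: `VV (gr hTZ) (Sj 𝒜 j) i'` by `vv_syz` for `0 → gr hTZ → P' → gr hT → 0`:
  `VV P' (Sj 𝒜 j) i'` by `mn_inAdd` (for `i' = 0` as `j > t`), `VV (gr hT) (Sj 𝒜 j) (i' + 1)` by `hv`.
  By induction for `Z`, `t + 1`: `VV (gr hZ) (Sj ℬ j) i` for `j > i + (t + 1)`.  Then
  `VV (gr hM) (Sj ℬ j) (i + 1)` by `vv_dim` (`P` is projective).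
-/

universe w u

namespace H37.UK

open CategoryTheory H60.KZ TensorProduct

variable {k : Type u} [Field k] [CharZero k]

section mn_aux

variable {C : Type u} [Ring C] [Algebra k C] {𝒞 : ℤ → Submodule k C} [GradedAlgebra 𝒞] [PosGr 𝒞]
  {r : ℕ} {ja : Fin r → ℤ} {P : GrMod 𝒞}

omit [CharZero k] [PosGr 𝒞] in
theorem mn_proj (h : InAdd (fun a : Fin r => Pj 𝒞 (ja a)) P) : Projective P :=
  inAdd_proj (fun a => Pj_proj (ja a)) h

variable [HasDerivedCategory.{w} (GrMod 𝒞)]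

omit [CharZero k] in
theorem mn_inAdd (h : InAdd (fun a : Fin r => Pj 𝒞 (ja a)) P) {t : ℤ} (hj : ∀ a, ja a ≤ t)
    {i : ℤ} (hi : t < i) (l : ℕ) : VV P (Sj 𝒞 i) l := by
  rcases Nat.eq_zero_or_pos l with h0 | h0
  · subst h0
    refine vv_inAdd_left h _ _ fun a => vv_zero _ _ fun φ => yon_ext ?_
    rw [cm_zero]
    exact Sj_supp i (ja a) (Or.inl (by have := hj a; omega)) _
  · have := mn_proj h
    exact vv_proj P _ _ (by exact_mod_cast h0)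

end mn_aux

namespace Desc

section mn_key

variable {A B : Type u} [Ring A] [Algebra k A] [Ring B] [Algebra k B] {m n : ℕ}
  (D : Desc k A B m n) {𝒜 : ℤ → Submodule k A} [GradedAlgebra 𝒜] [PosGr 𝒜]
  {ℬ : ℤ → Submodule k B} [HasDerivedCategory.{w} (GrMod 𝒜)]

theorem mn_key [IsSemisimpleRing (𝒜 0)] [Module.Finite k A] (he : D.ι 1 ∈ 𝒜 0)
    (hJ : ge ℬ 1 = D.J 𝒜) {M : Type u} [AddCommGroup M] [Module k M] [Module B M]
    [IsScalarTower k B M] [Module.Finite k M] {na : Fin (m + 1) → M →ₗ[k] M}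
    (hna : ∀ l, IsCon (D.nu 𝒜 l) (na l)) (htop : Gs (na 0) Set.univ = ⊤)
    (hT : IsGm 𝒜 (D.TD he hna)) {t : ℤ}
    (hv : ∀ j : ℤ, t < j → VV (gr hT) (Sj 𝒜 j) 0) (j : ℤ) (hj : t < j) :
    ∀ x ∈ G (na 0) j, x ∈ mulS M (ge ℬ 1) := by
  intro x hx
  rw [hJ]
  exact D.tau_G he hna htop (le_of_hom_zero hT fun φ => vv_hom_zero (hv j hj) φ) x hx

end mn_key

variable {A B : Type u} [Ring A] [Algebra k A] [Ring B] [Algebra k B] {m n : ℕ}
  (D : Desc k A B m n) {𝒜 : ℤ → Submodule k A} [GradedAlgebra 𝒜] [PosGr 𝒜]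
  [IsSemisimpleRing (𝒜 0)] [Module.Finite k A] [Module.Finite k B]
  {ℬ : ℤ → Submodule k B} [GradedAlgebra ℬ] [PosGr ℬ]
  [HasDerivedCategory.{w} (GrMod 𝒜)] [HasDerivedCategory.{w} (GrMod ℬ)]

theorem main (he : D.ι 1 ∈ 𝒜 0) (hB : ∀ i, ℬ i ≤ G (D.nu 𝒜 0) i) (hJ : ge ℬ 1 = D.J 𝒜)
    (i : ℕ) : ∀ (M : Type u) [AddCommGroup M] [Module k M] [Module B M] [IsScalarTower k B M]
    [Module.Finite k M] (na : Fin (m + 1) → M →ₗ[k] M)
    (hna : ∀ l, IsCon (D.nu 𝒜 l) (na l)) (_ : Gs (na 0) Set.univ = ⊤)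
    (hM : IsGm ℬ (na 0)) (hT : IsGm 𝒜 (D.TD he hna)) (t : ℤ)
    (_ : ∀ i' : ℕ, i' ≤ i → ∀ j : ℤ, i' + t < j → VV (gr hT) (Sj 𝒜 j) i') (j : ℤ)
    (_ : i + t < j), VV (gr hM) (Sj ℬ j) i := by
  induction i with
  | zero =>
    intro M _ _ _ _ _ na hna htop hM hT t hv j hj
    have hv0 : ∀ j : ℤ, t < j → VV (gr hT) (Sj 𝒜 j) 0 := by
      intro j hj
      have h1 := hv 0 le_rfl j (by push_cast; omega)
      exact h1
    have hj' : t < j := by push_cast at hj; omega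
    exact vv_zero _ _ (hom_zero hM htop (D.mn_key he hJ hna htop hT hv0 j hj'))
  | succ i ih =>
    intro M _ _ _ _ _ na hna htop hM hT t hv j hj
    have hv0 : ∀ j : ℤ, t < j → VV (gr hT) (Sj 𝒜 j) 0 := by
      intro j hj
      have h1 := hv 0 (Nat.zero_le _) j (by push_cast; omega)
      exact h1
    obtain ⟨Z, _, _, _, _, _, nz, hnz, hZtop, hZ, hTZ, ⟨P, f, g, w0, hs, r, ja, hja, hin⟩,
      ⟨P', f', g', w', hs', r', ja', hja', hin'⟩⟩ := D.ex_step he hB M na hna htop hM hT t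
        (gen_of htop (D.mn_key he hJ hna htop hT hv0))
    have hvZ : ∀ i' : ℕ, i' ≤ i → ∀ j : ℤ, i' + (t + 1) < j → VV (gr hTZ) (Sj 𝒜 j) i' := by
      intro i' hi' j hj
      have h3 : VV (gr hT) (Sj 𝒜 j) ((i' : ℤ) + 1) := by
        have h4 := hv (i' + 1) (by omega) j (by push_cast; omega)
        rw [Nat.cast_succ] at h4
        exact h4
      exact vv_syz (ShortComplex.mk f' g' w') hs' (Sj 𝒜 j) i'
        (mn_inAdd hin' hja' (by omega) i') h3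
    have h5 : VV (gr hZ) (Sj ℬ j) i :=
      ih Z nz hnz hZtop hZ hTZ (t + 1) hvZ j (by push_cast at hj; omega)
    have hP : Projective P := mn_proj hin
    have hP' : Projective (ShortComplex.mk f g w0).X₂ := hP
    have h6 : VV (gr hZ) (Sj ℬ j) (((i + 1 : ℕ) : ℤ) - 1) := by
      rw [Nat.cast_succ, add_sub_cancel_right]
      exact h5
    exact vv_dim (ShortComplex.mk f g w0) hs (Sj ℬ j) ((i + 1 : ℕ) : ℤ) (by push_cast; omega) h6

end Desc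

end H37.UK
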