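import Pool.Agent.H37.UK.Eh
import Pool.Agent.H37.UK.Dh

/-!
# Row Nb: the modules `B ⊗ V`

`naP ν θ (b ⊗ v) = ν b ⊗ v + b • θ v` (`naP_tmul`), `piP ψ (b ⊗ v) = b • ψ v` (`piP_tmul`).  The `B`-module structure
of `B ⊗[k] V` is `b • (b' ⊗ v) = (b b') ⊗ v` (`TensorProduct.smul_tmul'`).

* `naP_con`: for `c : B`, `y = b ⊗ v`: `naP (c • y) = ν (c b) ⊗ v + (c b) • θ v`, and
  `ν (c b) = ν c b + c ν b`.  `TensorProduct.induction_on`.
* `naP_pi`: by induction on the tensor: `ψ' (naP ν θ (b ⊗ v)) = ν b • ψ v + b • piP ψ (θ v)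
  = ν b • ψ v + b • δ (ψ v) = δ (b • ψ v)` by `IsCon`.
* `naP_top`: let `θ v = 1 ⊗ dV v`.  For `b ∈ G ν i`, `v ∈ G dV j`: `b ⊗ v ∈ G (naP ν θ) (i + j)`: `1 ⊗ v` is in
  `G (naP ν θ) j` (`G_map` for the map `v ↦ 1 ⊗ v`; `ν 1 = 0` for a derivation) and `b ⊗ v = b • (1 ⊗ v)`,
  `con_G`.  These tensors span `B ⊗ V` (`Gs_exists` for `b` and `v`); `G_le_Gs`.
* `naP_one`: see above.
* `adapted`: `V` is finite dimensional and `Gs dV (Iic t) = ⊤`.  By `G_indep` the `G dV i`, `i ≤ t` (those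
  `i` with `G dV i ≠ ⊥`, a finite set by `G_bdd`) form an internal direct sum of `V`: collect bases of
  them (`DirectSum.IsInternal.collectedBasis`), and reindex by `Fin r`.  (Or: the union of the
  sets `G dV i`, `i ≤ t`, spans `V`, so it contains a basis: `Module.Basis.ofSpan` or
  `exists_linearIndependent`, `Submodule.exists_fun_fin_finrank_span_eq`.)
* `fin_tens`: a general fact.
-/

universe u

namespace H37.UK

open CategoryTheory H60.KZ TensorProduct

variable {k : Type u} [Field k] [CharZero k] {B : Type u} [Ring B] [Algebra k B]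
  {V : Type u} [AddCommGroup V] [Module k V] {ν : B →ₗ[k] B}
  {M : Type u} [AddCommGroup M] [Module k M] [Module B M] [IsScalarTower k B M]

omit [CharZero k] in
theorem naP_con (hν : IsDer ν) (θ : V →ₗ[k] B ⊗[k] V) : IsCon ν (naP ν θ) := by
  intro c y
  induction y using TensorProduct.induction_on with
  | zero => simp
  | tmul b v =>
    rw [TensorProduct.smul_tmul', naP_tmul, naP_tmul, smul_eq_mul, hν c b, add_tmul, smul_add,
      TensorProduct.smul_tmul', TensorProduct.smul_tmul', smul_eq_mul, smul_eq_mul, mul_smul]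
    abel
  | add y z hy hz => rw [smul_add, map_add, hy, hz, map_add, smul_add, smul_add]; abel

omit [CharZero k] in
theorem naP_pi {δ : M →ₗ[k] M} (hδ : IsCon ν δ) (ψ : V →ₗ[k] M) {θ : V →ₗ[k] B ⊗[k] V}
    (hθ : ∀ v, piP ψ (θ v) = δ (ψ v)) (y : B ⊗[k] V) :
    piP ψ (naP ν θ y) = δ (piP ψ y) := by
  induction y using TensorProduct.induction_on with
  | zero => simp
  | tmul b v => rw [naP_tmul, map_add, piP_tmul, piP_tmul, map_smul, hθ, hδ b (ψ v)]
  | add y z hy hz => rw [map_add, map_add, hy, hz, map_add, map_add]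

omit [CharZero k] in
theorem naP_one (hν : IsDer ν) {dV : V →ₗ[k] V} {θ : V →ₗ[k] B ⊗[k] V}
    (hθ : ∀ v, θ v = 1 ⊗ₜ dV v) {j : ℤ} {v : V} (hv : v ∈ G dV j) :
    (1 : B) ⊗ₜ[k] v ∈ G (naP ν θ) j := by
  have h1 : ν 1 = 0 := by
    have h2 := hν 1 1
    rw [mul_one, mul_one, one_mul] at h2
    exact (left_eq_add.1 h2)
  refine G_map (f := dV) (f' := naP ν θ) (TensorProduct.mk k B V 1) ?_ hv
  intro x
  rw [TensorProduct.mk_apply, TensorProduct.mk_apply, naP_tmul, h1, zero_tmul, zero_add, one_smul, hθ]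

omit [CharZero k] in
theorem naP_top (hν : IsDer ν) {dV : V →ₗ[k] V} {θ : V →ₗ[k] B ⊗[k] V}
    (hθ : ∀ v, θ v = 1 ⊗ₜ dV v) (hB : Gs ν Set.univ = ⊤) (hV : Gs dV Set.univ = ⊤) :
    Gs (naP ν θ) Set.univ = ⊤ := by
  rw [eq_top_iff]
  intro y _
  induction y using TensorProduct.induction_on with
  | zero => exact Submodule.zero_mem _
  | tmul b v =>
    obtain ⟨s, x, -, hx, hb⟩ := Gs_exists (f := ν) (S := Set.univ) (x := b)
      (by rw [hB]; exact Submodule.mem_top)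
    obtain ⟨s', w, -, hw, hv⟩ := Gs_exists (f := dV) (S := Set.univ) (x := v)
      (by rw [hV]; exact Submodule.mem_top)
    rw [hb, hv, TensorProduct.sum_tmul]
    refine Submodule.sum_mem _ fun i _ => ?_
    rw [TensorProduct.tmul_sum]
    refine Submodule.sum_mem _ fun j _ => ?_
    have h1 : x i ⊗ₜ[k] w j = x i • ((1 : B) ⊗ₜ[k] w j) := by
      rw [TensorProduct.smul_tmul', smul_eq_mul, mul_one]
    rw [h1]
    exact G_le_Gs (Set.mem_univ (i + j)) (con_G (naP_con hν θ) (hx i) (naP_one hν hθ (hw j)))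
  | add y z hy hz => exact Submodule.add_mem _ (hy trivial) (hz trivial)

theorem adapted [Module.Finite k V] {dV : V →ₗ[k] V} {t : ℤ} (hV : Gs dV (Set.Iic t) = ⊤) :
    ∃ (r : ℕ) (v : Module.Basis (Fin r) k V) (j : Fin r → ℤ), (∀ a, v a ∈ G dV (j a)) ∧
      ∀ a, j a ≤ t := by
  have hs : ⊤ ≤ Submodule.span k {x : V | ∃ i : ℤ, i ≤ t ∧ x ∈ G dV i} := by
    rw [← hV]
    refine iSup₂_le fun i hi => ?_
    intro x hx
    exact Submodule.subset_span ⟨i, hi, hx⟩
  obtain ⟨ι, b, hb⟩ : ∃ (ι : Type u) (b : Module.Basis ι k V), ∀ a, ∃ i : ℤ, i ≤ t ∧ b a ∈ G dV i :=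
    ⟨_, Module.Basis.ofSpan hs, fun a => Module.Basis.ofSpan_subset hs ⟨a, rfl⟩⟩
  have : Finite ι := Module.Finite.finite_basis b
  have : Fintype ι := Fintype.ofFinite ι
  have h1 : ∀ a : Fin (Fintype.card ι), ∃ i : ℤ, i ≤ t ∧
      (b.reindex (Fintype.equivFin ι)) a ∈ G dV i := by
    intro a
    rw [Module.Basis.reindex_apply]
    exact hb _
  choose j hj1 hj2 using h1
  exact ⟨Fintype.card ι, b.reindex (Fintype.equivFin ι), j, hj2, hj1⟩

end H37.UK
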