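import Pool.Agent.H37.UK.Ge

/-!
# Row Ng: elements which generate a nilpotent left ideal have positive degree

* `ng_top`: for `a, b : A` the component of degree `0` of `a b` is the product of the components of
  degree `0` (as `𝒜` is positively graded): write `a = a₀ + a'`, `b = b₀ + b'` with `a', b' ∈ ge 𝒜 1`
  (`ge_split` for `i = 0`, `ge_zero`); `a b - a₀ b₀ ∈ ge 𝒜 1`.
* `ng_ss`: in a semisimple ring `R`, if `r` satisfies: all products `a₁ r a₂ r ⋯ a_N r` are `0`, then
  `r = 0`: the left ideal `R r` is generated by an idempotent `ε = c r`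
  (`IsSemisimpleRing.exists_...idempotent`, or: `R r` has a complement `L'`; write `1 = ε + ε'`,
  `ε ∈ R r`, `ε' ∈ L'`; then `x = x ε` for `x ∈ R r` since `x - x ε = x ε' ∈ R r ⊓ L' = ⊥`).  So
  `ε = ε^N = c r c r ⋯ c r = 0` (for `N ≥ 1`; for `N = 0` we get `1 = 0`) and `r = r ε = 0`.
* `nil_ge`: let `r₀ : 𝒜 0` be the component of degree `0` of `r`: `r = r₀ + r'`, `r' ∈ ge 𝒜 1`
  (`ge_split`, `ge_zero`).  For `a_i ∈ 𝒜 0` the product of the `a_i r` is congruent modulo the two-sided
  ideal `ge 𝒜 1` (`ge_left`, `ge_right`) to the product of the `a_i r₀ ∈ 𝒜 0`, which therefore is in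
  `ge 𝒜 1`; an element of `𝒜 0` in `ge 𝒜 1` is `0` (`mem_ge_iff`).  So `r₀ = 0` by `ng_ss` for the ring
  `𝒜 0`.
-/

universe u

namespace H37.UK

open CategoryTheory H60.KZ

variable {k : Type u} [Field k] {A : Type u} [Ring A] [Algebra k A]

theorem ng_ss {R : Type*} [Ring R] [IsSemisimpleRing R] {r : R} (N : ℕ)
    (h : ∀ L : List R, L.length = N → (L.map (fun a => a * r)).prod = 0) : r = 0 := by
  obtain ⟨L', hL'⟩ := exists_isCompl (Submodule.span R {r})
  have h1 : (1 : R) ∈ Submodule.span R {r} ⊔ L' := by rw [hL'.sup_eq_top]; trivial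
  obtain ⟨ε, hε, ε', hε', hsum⟩ := Submodule.mem_sup.1 h1
  obtain ⟨c, rfl⟩ := Submodule.mem_span_singleton.1 hε
  rw [smul_eq_mul] at hsum
  have hr : r * (c * r) = r := by
    have h2 : r * ε' ∈ Submodule.span R {r} ⊓ L' := by
      refine ⟨?_, L'.smul_mem r hε'⟩
      have h3 : r * ε' = r - (r * c) * r := by
        rw [← sub_eq_iff_eq_add'.2 hsum.symm, mul_sub, mul_one, mul_assoc]
      rw [h3]
      exact Submodule.sub_mem _ (Submodule.mem_span_singleton_self r)
        (Submodule.smul_mem _ (r * c) (Submodule.mem_span_singleton_self r))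
    rw [hL'.inf_eq_bot, Submodule.mem_bot] at h2
    calc r * (c * r) = r * (c * r) + r * ε' := by rw [h2, add_zero]
      _ = r * (c * r + ε') := by rw [mul_add]
      _ = r := by rw [hsum, mul_one]
  have hpow : ∀ n : ℕ, r * ((List.replicate n c).map (fun a => a * r)).prod = r := by
    intro n
    induction n with
    | zero => simp
    | succ n ih =>
      rw [List.replicate_succ, List.map_cons, List.prod_cons, ← mul_assoc, hr, ih]
  have h4 := hpow N
  rw [h _ List.length_replicate, mul_zero] at h4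
  exact h4.symm

variable (𝒜 : ℤ → Submodule k A) [GradedAlgebra 𝒜] [PosGr 𝒜] [IsSemisimpleRing (𝒜 0)]

theorem nil_ge {r : A} (N : ℕ)
    (h : ∀ L : List A, L.length = N → (L.map (fun a => a * r)).prod ∈ ge 𝒜 1) :
    r ∈ ge 𝒜 1 := by
  have hr0 : r ∈ ge 𝒜 0 := by rw [ge_zero]; trivial
  obtain ⟨r0, hr0', r', hr', hr⟩ := ge_split hr0
  rw [zero_add] at hr'
  have h0 : (⟨r0, hr0'⟩ : 𝒜 0) = 0 := by
    refine ng_ss N fun L hL => ?_
    have h1 := h (L.map (fun a : 𝒜 0 => a.1)) (by simpa using hL)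
    have h2 : ∀ L : List (𝒜 0), ((L.map (fun a : 𝒜 0 => a.1)).map (fun a => a * r)).prod -
        ((L.map (fun a => a * (⟨r0, hr0'⟩ : 𝒜 0))).prod : 𝒜 0).1 ∈ ge 𝒜 1 := by
      intro L
      induction L with
      | nil => simp
      | cons a L ih =>
        simp only [List.map_cons, List.prod_cons]
        set P := ((L.map (fun a : 𝒜 0 => a.1)).map (fun a => a * r)).prod
        set Q := (L.map (fun a => a * (⟨r0, hr0'⟩ : 𝒜 0))).prod
        have h3 : a.1 * r * P - ((a * (⟨r0, hr0'⟩ : 𝒜 0) * Q : 𝒜 0)).1 =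
            a.1 * r0 * (P - Q.1) + a.1 * (r' * P) := by
          change a.1 * r * P - a.1 * r0 * Q.1 = _
          rw [hr]
          noncomm_ring
        rw [h3]
        exact Submodule.add_mem _ (ge_left _ ih) (ge_left _ (ge_right _ hr'))
    have h3 : (((L.map (fun a => a * (⟨r0, hr0'⟩ : 𝒜 0))).prod : 𝒜 0)).1 ∈ ge 𝒜 1 := by
      have := Submodule.sub_mem _ h1 (h2 L)
      rwa [sub_sub_cancel] at this
    have h4 := mem_ge_iff.1 h3 0 (by norm_num)
    rw [DirectSum.decompose_of_mem_same 𝒜 (Subtype.prop _)] at h4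
    exact Subtype.ext h4
  have h1 : r0 = 0 := congrArg Subtype.val h0
  rw [hr, h1, zero_add]
  exact hr'

end H37.UK
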