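import Pool.Agent.H37.UK.Cg
import Pool.Agent.H37.UK.Ge

/-!
# Row Pr: a criterion for `gr M` to be projective

`f ∈ 𝒞 0` is idempotent.  `cmp (gr h) i = G δ i`, `cmp (Pj 𝒞 j) i = 𝒞 (i - j)` by definition.

* `pr_exact`: every `x : M` has unique coordinates `c_a(x)`, `c_a f = c_a`, `x = ∑ c_a • y a`.  By uniqueness
  `x ↦ c_a(x)` is `k`-linear and `c_a(b • x) = b * c_a(x)`.  Claim: if `x ∈ G δ i`, then
  `c_a(x) ∈ 𝒞 (i - j a)`: let `(c_a)_p` be the homogeneous components of `c_a = c_a(x)`;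
  `(c_a)_p f = (c_a)_p` since `f ∈ 𝒞 0` (`DirectSum.decompose_mul` or: the component of degree `p` of `c f`
  is `c_p f`).  `x = ∑_a ∑_p (c_a)_p • y a` with `(c_a)_p • y a ∈ G δ (p + j a)`, so by independence of the
  eigenspaces (`G_unique`) `x = ∑_a (c_a)_{i - j a} • y a` and by uniqueness of coordinates
  `c_a = (c_a)_{i - j a}`.  So `α a : gr h ⟶ Pj 𝒞 (j a)`, `x ↦ c_a(x)`, is a morphism (`mkHom`),
  `β a : Pj 𝒞 (j a) ⟶ gr h`, `c ↦ c • y a`, too (or `yon`), and `𝟙 = ∑ α a ≫ β a` (`hom_ext_cm`).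
  `InAdd F M` with `F = fun a : Fin r => Pj 𝒞 (j a)`: take `n = r` and the identity of `Fin r`.
* `pr_add`: choose `z a ∈ G δ (j a)` with `y a - z a ∈ mulS M (ge 𝒞 1)` and put `y' a = f • z a`, in
  `G δ (j a)` (`IsGm`, `f ∈ 𝒞 0`), `f • y' a = y' a`.  `y a - y' a = f • (y a - z a) ∈ mulS M (ge 𝒞 1)`
  (`hfy`, `ge_left`).  Let `L` be the `C`-span of the `y' a`; for all `x`, `x = ∑ c_a • y a`
  and `x - ∑ c_a • y' a ∈ mulS M (ge 𝒞 1)`, so `L = ⊤` by `nak`.  Let `Cf = {c | c * f = c}`, a subspace of `C`, and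
  `Φ, Φ' : (Fin r → Cf) →ₗ[k] M` the maps `c ↦ ∑ c_a • y a`, `c ↦ ∑ c_a • y' a`.  `Φ` is bijective by `hu`,
  `Φ'` is surjective (`∑ c_a • y' a = ∑ (c_a f) • y' a`), so bijective as the dimensions agree
  (`LinearMap.injective_iff_surjective_of_finrank_eq_finrank` or so).  Apply `pr_exact`.
-/

universe u

namespace H37.UK

open CategoryTheory H60.KZ

variable {k : Type u} [Field k] [CharZero k] {C : Type u} [Ring C] [Algebra k C]
  {𝒞 : ℤ → Submodule k C} [GradedAlgebra 𝒞]
  {M : Type u} [AddCommGroup M] [Module k M] [Module C M] [IsScalarTower k C M]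
  {δ : M →ₗ[k] M}

omit [CharZero k] in
theorem Pr_sum (c : C) (q : ℤ) (s : Finset ℤ)
    (hs : ∀ p, (DirectSum.decompose 𝒞 c p : C) ≠ 0 → p + q ∈ s) :
    ∑ i ∈ s, (DirectSum.decompose 𝒞 c (i - q) : C) = c := by
  classical
  conv_rhs => rw [← DirectSum.sum_support_decompose 𝒞 c]
  symm
  refine Finset.sum_of_injOn (fun p => p + q) ?_ ?_ ?_ ?_
  · intro p _ p' _ h
    exact add_right_cancel h
  · intro p hp
    refine Finset.mem_coe.2 (hs p ?_)
    have := DFinsupp.mem_support_iff.1 (Finset.mem_coe.1 hp)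
    intro h
    exact this (Subtype.ext h)
  · intro i _ hi
    by_contra hne
    apply hi
    refine ⟨i - q, Finset.mem_coe.2 (DFinsupp.mem_support_iff.2 ?_), sub_add_cancel i q⟩
    intro h
    apply hne
    rw [h]
    rfl
  · intro p _
    rw [add_sub_cancel_right]

omit [IsScalarTower k C M] in
/-- homogeneous elements have homogeneous coordinates -/
theorem Pr_hom (h : IsGm 𝒞 δ) {f : C} (hf : f ∈ 𝒞 0) {r : ℕ} (y : Fin r → M) (j : Fin r → ℤ)
    (hy : ∀ a, y a ∈ G δ (j a))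
    (hu : ∀ x : M, ∃! c : Fin r → C, (∀ a, c a * f = c a) ∧ x = ∑ a, c a • y a) {i : ℤ} {x : M}
    (hx : x ∈ G δ i) {c : Fin r → C} (hc : ∀ a, c a * f = c a) (hcx : x = ∑ a, c a • y a)
    (a : Fin r) : c a ∈ 𝒞 (i - j a) := by
  classical
  set Y : ℤ → M := fun q => ∑ a, (DirectSum.decompose 𝒞 (c a) (q - j a) : C) • y a with hY
  set s : Finset ℤ := insert i (Finset.univ.biUnion fun a =>
    (DirectSum.decompose 𝒞 (c a)).support.image fun p => p + j a) with hs
  have hYG : ∀ q, Y q ∈ G δ q := by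
    intro q
    refine Submodule.sum_mem _ fun a _ => ?_
    have h1 := h (q - j a) (j a) _ _ (DirectSum.decompose 𝒞 (c a) (q - j a)).2 (hy a)
    rwa [sub_add_cancel] at h1
  have hsum : ∑ q ∈ s, Y q = x := by
    rw [hY, Finset.sum_comm, hcx]
    refine Finset.sum_congr rfl fun a _ => ?_
    rw [← Finset.sum_smul, Pr_sum (c a) (j a) s]
    intro p hp
    refine Finset.mem_insert_of_mem (Finset.mem_biUnion.2 ⟨a, Finset.mem_univ _,
      Finset.mem_image.2 ⟨p, DFinsupp.mem_support_iff.2 ?_, rfl⟩⟩)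
    intro h0
    apply hp
    rw [h0]
    rfl
  have hz : ∀ q, (if q = i then x else 0) ∈ G δ q := by
    intro q
    split_ifs with hq
    · rw [hq]; exact hx
    · exact Submodule.zero_mem _
  have hsum2 : ∑ q ∈ s, (if q = i then x else 0) = x := by
    rw [Finset.sum_ite_eq' s i, if_pos (Finset.mem_insert_self _ _)]
  have hxY := G_unique (f := δ) hYG hz (hsum.trans hsum2.symm) (Finset.mem_insert_self i _)
  rw [if_pos rfl] at hxY
  have hd : ∀ a, (DirectSum.decompose 𝒞 (c a) (i - j a) : C) * f =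
      (DirectSum.decompose 𝒞 (c a) (i - j a) : C) := by
    intro a
    have h1 := DirectSum.coe_decompose_mul_add_of_right_mem 𝒞 (a := c a) (i := i - j a) hf
    rw [hc a, add_zero] at h1
    exact h1.symm
  have he := (hu x).unique ⟨hc, hcx⟩ ⟨hd, hxY.symm⟩
  rw [congrFun he a]
  exact (DirectSum.decompose 𝒞 (c a) (i - j a)).2

theorem pr_exact (h : IsGm 𝒞 δ) (htop : Gs δ Set.univ = ⊤) {f : C} (hf : f ∈ 𝒞 0)
    (hff : f * f = f) {r : ℕ} (y : Fin r → M) (j : Fin r → ℤ) (hy : ∀ a, y a ∈ G δ (j a))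
    (hfy : ∀ a, f • y a = y a)
    (hu : ∀ x : M, ∃! c : Fin r → C, (∀ a, c a * f = c a) ∧ x = ∑ a, c a • y a) :
    InAdd (fun a : Fin r => Pj 𝒞 (j a)) (gr h) := by
  choose co hco huniq using hu
  have hu' : ∀ x : M, ∃! c : Fin r → C, (∀ a, c a * f = c a) ∧ x = ∑ a, c a • y a :=
    fun x => ⟨co x, hco x, huniq x⟩
  have hadd : ∀ x x', co (x + x') = co x + co x' := by
    intro x x'
    symm
    apply huniq
    constructor
    · intro a
      rw [Pi.add_apply, add_mul, (hco x).1, (hco x').1]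
    · simp only [Pi.add_apply, add_smul]
      rw [Finset.sum_add_distrib, ← (hco x).2, ← (hco x').2]
  have hmul : ∀ (b : C) x, co (b • x) = fun a => b * co x a := by
    intro b x
    symm
    apply huniq
    constructor
    · intro a
      rw [mul_assoc, (hco x).1]
    · simp only [mul_smul]
      rw [← Finset.smul_sum, ← (hco x).2]
  have hsmul : ∀ (b : k) x, co (b • x) = b • co x := by
    intro b x
    rw [← algebraMap_smul C b x, hmul]
    funext a
    rw [Pi.smul_apply, Algebra.smul_def]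
  have hhom : ∀ i (x : G δ i) a, co x.1 a ∈ 𝒞 (i - j a) := fun i x a =>
    Pr_hom h hf y j hy hu' x.2 (hco x.1).1 (hco x.1).2 a
  let α : ∀ a, gr h ⟶ Pj 𝒞 (j a) := fun a =>
    mkHom (M := gr h) (N := Pj 𝒞 (j a))
      (fun i => ({ toFun := fun x => ⟨co x.1 a, hhom i x a⟩
                   map_add' := fun x x' => Subtype.ext (congrFun (hadd x.1 x'.1) a)
                   map_smul' := fun b x => Subtype.ext (congrFun (hsmul b x.1) a) } :
          G δ i →ₗ[k] 𝒞 (i - j a)))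
      (fun i l b x => Subtype.ext (congrFun (hmul b.1 (x : G δ i).1) a))
  let β : ∀ a, Pj 𝒞 (j a) ⟶ gr h := fun a => yon (M := gr h) (⟨y a, hy a⟩ : G δ (j a))
  refine ⟨r, id, α, β, ?_⟩
  refine hom_ext_cm fun i x => ?_
  rw [cm_sum, cm_id]
  refine Subtype.ext ?_
  have e : ∀ (s : Finset (Fin r)), ((∑ a ∈ s, cm (α a ≫ β a) i x : cmp (gr h) i) : G δ i).1 =
      ∑ a ∈ s, co (x : G δ i).1 a • y a := by
    intro s
    induction s using Finset.induction_on with
    | empty => rfl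
    | insert a s ha ih =>
      rw [Finset.sum_insert ha, Finset.sum_insert ha, ← ih]
      rfl
  rw [e]
  exact (hco _).2

theorem pr_add [PosGr 𝒞] [Module.Finite k C] [Module.Finite k M] (h : IsGm 𝒞 δ)
    (htop : Gs δ Set.univ = ⊤) {f : C} (hf : f ∈ 𝒞 0) (hff : f * f = f) {r : ℕ}
    (y : Fin r → M) (j : Fin r → ℤ)
    (hy : ∀ a, ∃ z ∈ G δ (j a), y a - z ∈ mulS M (ge 𝒞 1)) (hfy : ∀ a, f • y a = y a)
    (hu : ∀ x : M, ∃! c : Fin r → C, (∀ a, c a * f = c a) ∧ x = ∑ a, c a • y a) :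
    InAdd (fun a : Fin r => Pj 𝒞 (j a)) (gr h) := by
  choose z hz hyz using hy
  have hleft : ∀ (b : C) (x : M), x ∈ mulS M (ge 𝒞 1) → b • x ∈ mulS M (ge 𝒞 1) := by
    intro b x hx
    induction hx using Submodule.span_induction with
    | zero => rw [smul_zero]; exact Submodule.zero_mem _
    | add z z' _ _ h1 h2 => rw [smul_add]; exact Submodule.add_mem _ h1 h2
    | smul r z _ h1 =>
      have e2 : b • r • z = r • b • z := by
        rw [← algebraMap_smul C r z, ← algebraMap_smul C r (b • z), smul_smul, smul_smul,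
          Algebra.commutes]
      rw [e2]
      exact Submodule.smul_mem _ _ h1
    | mem z hz =>
      obtain ⟨c, hc, x, rfl⟩ := hz
      rw [smul_smul]
      exact mulS_mem (ge_left b hc) x
  set y' : Fin r → M := fun a => f • z a with hy'
  have hy'G : ∀ a, y' a ∈ G δ (j a) := by
    intro a
    have h1 := h 0 (j a) f (z a) hf (hz a)
    rwa [zero_add] at h1
  have hfy' : ∀ a, f • y' a = y' a := by
    intro a
    simp only [hy']
    rw [smul_smul, hff]
  have hyy' : ∀ a, y a - y' a ∈ mulS M (ge 𝒞 1) := by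
    intro a
    have h1 := hleft f _ (hyz a)
    rwa [smul_sub, hfy a] at h1
  set L : Submodule C M := Submodule.span C (Set.range y') with hL
  have hLtop : L = ⊤ := by
    apply nak (𝒞 := 𝒞)
    intro x
    obtain ⟨c, ⟨-, hcx⟩, -⟩ := hu x
    refine ⟨∑ a, c a • y' a, Submodule.sum_mem _ fun a _ =>
      Submodule.smul_mem _ _ (Submodule.subset_span ⟨a, rfl⟩), ?_⟩
    rw [hcx, ← Finset.sum_sub_distrib]
    refine Submodule.sum_mem _ fun a _ => ?_
    rw [← smul_sub]
    exact hleft _ _ (hyy' a)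
  have hex : ∀ x : M, ∃ c : Fin r → C, (∀ a, c a * f = c a) ∧ x = ∑ a, c a • y' a := by
    intro x
    have hx : x ∈ L := hLtop ▸ Submodule.mem_top
    obtain ⟨c, hc⟩ := (Submodule.mem_span_range_iff_exists_fun C).1 hx
    refine ⟨fun a => c a * f, fun a => by rw [mul_assoc, hff], ?_⟩
    rw [← hc]
    refine Finset.sum_congr rfl fun a _ => ?_
    rw [mul_smul, hfy']
  let Cf : Submodule k C := LinearMap.ker (LinearMap.mulRight k f - LinearMap.id)
  have hCf : ∀ c : C, c ∈ Cf ↔ c * f = c := by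
    intro c
    rw [LinearMap.mem_ker, LinearMap.sub_apply, sub_eq_zero]
    rfl
  let Φ : (Fin r → M) → (Fin r → Cf) →ₗ[k] M := fun w =>
    { toFun := fun c => ∑ a, (c a).1 • w a
      map_add' := fun c c' => by
        rw [← Finset.sum_add_distrib]
        exact Finset.sum_congr rfl fun a _ => add_smul _ _ _
      map_smul' := fun b c => by
        rw [RingHom.id_apply, Finset.smul_sum]
        exact Finset.sum_congr rfl fun a _ => smul_assoc b (c a).1 (w a) }
  have hΦ : Function.Bijective (Φ y) := by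
    constructor
    · intro c c' hcc
      have h1 := (hu (∑ a, (c a).1 • y a)).unique (y₁ := fun a => (c a).1)
        (y₂ := fun a => (c' a).1) ⟨fun a => (hCf _).1 (c a).2, rfl⟩
        ⟨fun a => (hCf _).1 (c' a).2, hcc⟩
      funext a
      exact Subtype.ext (congrFun h1 a)
    · intro x
      obtain ⟨c, ⟨hc, hcx⟩, -⟩ := hu x
      exact ⟨fun a => ⟨c a, (hCf _).2 (hc a)⟩, hcx.symm⟩
  have hΦs : Function.Surjective (Φ y') := by
    intro x
    obtain ⟨c, hc, hcx⟩ := hex x
    exact ⟨fun a => ⟨c a, (hCf _).2 (hc a)⟩, hcx.symm⟩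
  have hfin : Module.finrank k (Fin r → Cf) = Module.finrank k M :=
    (LinearEquiv.ofBijective (Φ y) hΦ).finrank_eq
  have hΦi : Function.Injective (Φ y') :=
    (LinearMap.injective_iff_surjective_of_finrank_eq_finrank hfin).2 hΦs
  refine pr_exact h htop hf hff y' j hy'G hfy' fun x => ?_
  obtain ⟨c, hc, hcx⟩ := hex x
  refine ⟨c, ⟨hc, hcx⟩, ?_⟩
  rintro c' ⟨hc', hcx'⟩
  have h1 : Φ y' (fun a => ⟨c' a, (hCf _).2 (hc' a)⟩) = Φ y' (fun a => ⟨c a, (hCf _).2 (hc a)⟩) :=
    hcx'.symm.trans hcx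
  have h2 := hΦi h1
  funext a
  exact congrArg Subtype.val (congrFun h2 a)

end H37.UK
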