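import Pool.Agent.H37.UK.Dh
import Pool.Agent.H37.UK.Ng
import Pool.Agent.H37.UK.Dn

/-!
# Row Rd: the ideal `J` of `B`

`e = ι 1`.  See Dh for the rules (`co_spec`, `co_mul`, `mul_co`, `co_ι_zero`, `x_ι`, `x_comm`, `x_left`,
`x_right`, `eul_ι`, `nu_der`) and Ge, Ng, Dn.

* `x_ge`: `nil_ge` for `r = c := x l`.  Let `c^N = 0` (`x_nil`), `N ≥ 1`.  For all `y : A`:
  `c * y * c = c * (e y e) * c = (e y e) * c * c` (`x_left`, `x_right`, `x_comm`).  Claim: for every list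
  `L` of length `n` there is `w` with `c * (L.map (· * c)).prod = w * c^(n+1)`.  For `[]` take `w = 1`.
  For `a :: L'` with `P' = (L'.map (· * c)).prod`, `c * P' = w' * c^(n'+1)`:
  `c * ((a * c) * P') = c * a * (c * P') = c * (a w') * c^(n'+1) = (e (a w') e) * c^(n'+2)`.
  So for a list `a :: L'` of length `N`, `(a * c) * P' = a * (c * P') = a w' c^N = 0`.
* `J_left`, `J_right`: `ι (c * b) = ι c * ι b`, `ge_left`, `ge_right`.
* `co_ge`: let `a ∈ ge 𝒜 1`.  `e a e = ∑ x_l ι (co l a)` is in `ge 𝒜 1`, the terms with `l ≠ 0` are in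
  `ge 𝒜 1` (`x_ge`, `ge_right`), so `x_0 ι (co 0 a) = ι (co 0 a) ∈ ge 𝒜 1`.
* `nu_zero_J`: `nu 0 b = co 0 (eul (ι b))`, `eul_ge_one`, `co_ge`.
* `Jp_left`: for `j = 0` clear, `J * Jp j` is a left ideal as `J` is (`J_left`,
  `Submodule.mul_induction_on`).  `Jp_anti`: `J * Jp j ≤ Jp j` by `Jp_left`.  `Jp_one`: `J * ⊤ = J` by `J_right`
  and `b = b * 1`.
* `Jp_ι`: by induction on `j`, `ι b ∈ ge 𝒜 j` for `b ∈ Jp j` (`Submodule.mul_induction_on`, `ge_mul`,
  `ge_zero`).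
* `Jp_nil`: `Jp_ι`, `ge_top`, `ι_inj`.
* `J_prod`: the product of a list of `N` elements of `J` is in `Jp N` (induction), `Jp_nil`.
* `J_semi`: `nil_ge` for `r = ι b`: let `L` be a list of length `N` in `A`.  Claim (induction on `L`):
  `(L.map (fun a => a * ι b)).prod` for `L = a :: L'` is congruent modulo `ge 𝒜 1` to
  `a * ι (b * (L'.map (fun a' => co 0 a' * b)).prod)`: because `ι b * a' * ι b = ι b * (e a' e) * ι b` and
  `e a' e - ι (co 0 a') = ∑_{l ≠ 0} x_l ι (co l a') ∈ ge 𝒜 1` (`co_spec`, `x_ge`).  As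
  `(1 * b) * (L'.map …).prod ∈ J` by the hypothesis for the list `1 :: L'.map (co 0)`, the product is in
  `ge 𝒜 1`.  (For `N = 0` the hypothesis says `1 ∈ J`, so `b = b * 1 ∈ J` by `J_left`.)
* `nu_J`: `der_nil` for `δ = nu l`, `J`, gives the hypothesis of `J_semi` for `nu l b`.
* `nu_Jp`: from `nu_J` and the derivation property: `nu l (a b) = nu l a * b + a * nu l b` for `a ∈ J`,
  `b ∈ Jp j` (induction on `j`).
-/

universe u

namespace H37.UK

open CategoryTheory H60.KZ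

variable {k : Type u} [Field k]

namespace Desc

variable {A B : Type u} [Ring A] [Algebra k A] [Ring B] [Algebra k B] {m n : ℕ}
  (D : Desc k A B m n) {𝒜 : ℤ → Submodule k A} [GradedAlgebra 𝒜] [PosGr 𝒜]

theorem J_left (c : B) {b : B} (hb : b ∈ D.J 𝒜) : c * b ∈ D.J 𝒜 := by
  change D.ι (c * b) ∈ ge 𝒜 1
  rw [D.mul]
  exact ge_left _ hb

theorem J_right (c : B) {b : B} (hb : b ∈ D.J 𝒜) : b * c ∈ D.J 𝒜 := by
  change D.ι (b * c) ∈ ge 𝒜 1
  rw [D.mul]
  exact ge_right _ hb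

theorem Jp_left (j : ℕ) (c : B) {b : B} (hb : b ∈ D.Jp 𝒜 j) : c * b ∈ D.Jp 𝒜 j := by
  cases j with
  | zero => exact Submodule.mem_top
  | succ j =>
    change b ∈ D.J 𝒜 * D.Jp 𝒜 j at hb
    change c * b ∈ D.J 𝒜 * D.Jp 𝒜 j
    refine Submodule.mul_induction_on hb ?_ ?_
    · intro x hx y hy
      rw [← mul_assoc]
      exact Submodule.mul_mem_mul (D.J_left c hx) hy
    · intro x y hx hy
      rw [mul_add]
      exact Submodule.add_mem _ hx hy

theorem Jp_anti (j : ℕ) : D.Jp 𝒜 (j + 1) ≤ D.Jp 𝒜 j := by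
  change D.J 𝒜 * D.Jp 𝒜 j ≤ D.Jp 𝒜 j
  exact Submodule.mul_le.2 fun x _ y hy => D.Jp_left j x hy

theorem Jp_one : D.Jp 𝒜 1 = D.J 𝒜 := by
  change D.J 𝒜 * (⊤ : Submodule k B) = D.J 𝒜
  apply le_antisymm
  · exact Submodule.mul_le.2 fun x hx y _ => D.J_right y hx
  · intro b hb
    have h := Submodule.mul_mem_mul hb (Submodule.mem_top : (1 : B) ∈ (⊤ : Submodule k B))
    rwa [mul_one] at h

theorem Jp_ι (j : ℕ) {b : B} (hb : b ∈ D.Jp 𝒜 j) : D.ι b ∈ ge 𝒜 j := by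
  induction j generalizing b with
  | zero =>
    rw [Nat.cast_zero, ge_zero]
    exact Submodule.mem_top
  | succ j ih =>
    change b ∈ D.J 𝒜 * D.Jp 𝒜 j at hb
    refine Submodule.mul_induction_on (C := fun b => D.ι b ∈ ge 𝒜 ((j + 1 : ℕ) : ℤ)) hb ?_ ?_
    · intro x hx y hy
      rw [D.mul]
      have h := ge_mul (𝒞 := 𝒜) (i := 1) (j := (j : ℤ)) (a := D.ι x) (b := D.ι y) hx (ih hy)
      have e : ((j + 1 : ℕ) : ℤ) = 1 + (j : ℤ) := by push_cast; ring
      rw [e]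
      exact h
    · intro x y hx hy
      rw [map_add]
      exact Submodule.add_mem _ hx hy

theorem Jp_nil [Module.Finite k A] : ∃ N, D.Jp 𝒜 N = ⊥ := by
  obtain ⟨s, hs⟩ := ge_top (𝒞 := 𝒜)
  refine ⟨s + 1, ?_⟩
  rw [eq_bot_iff]
  intro b hb
  have h := D.Jp_ι (s + 1) hb
  have e : ((s + 1 : ℕ) : ℤ) = (s : ℤ) + 1 := by push_cast; ring
  rw [e, hs, Submodule.mem_bot] at h
  rw [Submodule.mem_bot]
  apply D.ι_inj
  rw [h, map_zero]

theorem J_prod [Module.Finite k A] :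
    ∃ N, ∀ L : List B, L.length = N → (∀ b ∈ L, b ∈ D.J 𝒜) → L.prod = 0 := by
  obtain ⟨N, hN⟩ := D.Jp_nil (𝒜 := 𝒜)
  have claim : ∀ L : List B, (∀ b ∈ L, b ∈ D.J 𝒜) → L.prod ∈ D.Jp 𝒜 L.length := by
    intro L
    induction L with
    | nil =>
      intro _
      exact Submodule.mem_top
    | cons c L ih =>
      intro h
      rw [List.prod_cons, List.length_cons]
      change c * L.prod ∈ D.J 𝒜 * D.Jp 𝒜 L.length
      exact Submodule.mul_mem_mul (h c List.mem_cons_self)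
        (ih fun b hb => h b (List.mem_cons_of_mem c hb))
  refine ⟨N, fun L hL h => ?_⟩
  have h1 := claim L h
  rw [hL, hN, Submodule.mem_bot] at h1
  exact h1

variable [IsSemisimpleRing (𝒜 0)]

omit [GradedAlgebra 𝒜] [PosGr 𝒜] [IsSemisimpleRing (𝒜 0)] in
theorem Rd_swap (l : Fin (m + 1)) (y : A) :
    D.x l * y * D.x l = (D.ι 1 * y * D.ι 1) * D.x l * D.x l := by
  rw [← D.x_comm l y]
  conv_lhs => rw [← D.x_right l]
  conv_lhs => enter [2]; rw [D.x_right, ← D.x_left l]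
  simp only [mul_assoc]

omit [GradedAlgebra 𝒜] [PosGr 𝒜] [IsSemisimpleRing (𝒜 0)] in
theorem Rd_pow (l : Fin (m + 1)) (L : List A) :
    ∃ w, D.x l * (L.map (fun a => a * D.x l)).prod = w * D.x l ^ (L.length + 1) := by
  induction L with
  | nil =>
    refine ⟨1, ?_⟩
    simp
  | cons a L ih =>
    obtain ⟨w, hw⟩ := ih
    refine ⟨D.ι 1 * (a * w) * D.ι 1, ?_⟩
    rw [List.map_cons, List.prod_cons, List.length_cons]
    have h1 : D.x l * (a * D.x l * (L.map (fun a => a * D.x l)).prod) =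
        D.x l * a * (D.x l * (L.map (fun a => a * D.x l)).prod) := by
      simp only [mul_assoc]
    rw [h1, hw]
    have h2 : D.x l * a * (w * D.x l ^ (L.length + 1)) =
        (D.x l * (a * w) * D.x l) * D.x l ^ L.length := by
      rw [pow_succ']
      simp only [mul_assoc]
    rw [h2, D.Rd_swap]
    have h3 : D.x l ^ (L.length + 1 + 1) = D.x l * D.x l * D.x l ^ L.length := by
      rw [pow_succ', pow_succ', mul_assoc]
    rw [h3]
    simp only [mul_assoc]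

theorem x_ge {l : Fin (m + 1)} (hl : l ≠ 0) : D.x l ∈ ge 𝒜 1 := by
  obtain ⟨N, hN⟩ := D.x_nil l hl
  refine nil_ge 𝒜 (N + 1) ?_
  intro L hL
  cases L with
  | nil => exact absurd hL (by simp)
  | cons a L =>
    rw [List.length_cons] at hL
    have hL' : L.length = N := by omega
    obtain ⟨w, hw⟩ := D.Rd_pow l L
    rw [List.map_cons, List.prod_cons, mul_assoc, hw, hL', pow_succ, hN, zero_mul, mul_zero,
      mul_zero]
    exact Submodule.zero_mem _

theorem Rd_dec (a : A) : D.ι 1 * a * D.ι 1 - D.ι (D.co 0 a) ∈ ge 𝒜 1 := by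
  rw [D.co_spec, ← Finset.add_sum_erase _ _ (Finset.mem_univ (0 : Fin (m + 1))), D.x_zero, D.one_ι,
    add_sub_cancel_left]
  refine Submodule.sum_mem _ fun l hl => ?_
  exact ge_right _ (D.x_ge (Finset.ne_of_mem_erase hl))

theorem co_ge {a : A} (ha : a ∈ ge 𝒜 1) : D.co 0 a ∈ D.J 𝒜 := by
  change D.ι (D.co 0 a) ∈ ge 𝒜 1
  have h1 := D.Rd_dec (𝒜 := 𝒜) a
  have h2 : D.ι 1 * a * D.ι 1 ∈ ge 𝒜 1 := ge_right _ (ge_left _ ha)
  have h3 := Submodule.sub_mem _ h2 h1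
  rwa [sub_sub_cancel] at h3

theorem nu_zero_J (b : B) : D.nu 𝒜 0 b ∈ D.J 𝒜 :=
  D.co_ge (eul_ge_one (𝒞 := 𝒜) (D.ι b))

theorem Rd_list (b : B) (L : List A) :
    D.ι b * (L.map (fun a => a * D.ι b)).prod -
      D.ι (b * ((L.map (D.co 0)).map (fun a => a * b)).prod) ∈ ge 𝒜 1 := by
  induction L with
  | nil =>
    simp only [List.map_nil, List.prod_nil, mul_one, sub_self]
    exact Submodule.zero_mem _
  | cons a L ih =>
    simp only [List.map_cons, List.prod_cons]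
    set P := (L.map (fun a => a * D.ι b)).prod with hP
    set Q := ((L.map (D.co 0)).map (fun a => a * b)).prod with hQ
    have h1 := ge_left (𝒞 := 𝒜) (D.ι b * a) ih
    have h2 := ge_left (𝒞 := 𝒜) (D.ι b)
      (ge_right (𝒞 := 𝒜) (D.ι (b * Q)) (D.Rd_dec (𝒜 := 𝒜) a))
    have e1 : D.ι b * a * (D.ι b * P - D.ι (b * Q)) + D.ι b *
        ((D.ι 1 * a * D.ι 1 - D.ι (D.co 0 a)) * D.ι (b * Q)) =
        D.ι b * (a * D.ι b * P) - D.ι (b * (D.co 0 a * b * Q)) := by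
      have e2 : D.ι b * ((D.ι 1 * a * D.ι 1) * D.ι (b * Q)) = D.ι b * a * D.ι (b * Q) := by
        have : D.ι b * ((D.ι 1 * a * D.ι 1) * D.ι (b * Q)) =
            (D.ι b * D.ι 1) * a * (D.ι 1 * D.ι (b * Q)) := by simp only [mul_assoc]
        rw [this, D.ι_one, D.one_ι]
      have e3 : D.ι b * (D.ι (D.co 0 a) * D.ι (b * Q)) = D.ι (b * (D.co 0 a * b * Q)) := by
        rw [← D.mul, ← D.mul]
        simp only [mul_assoc]
      rw [sub_mul, mul_sub, mul_sub, e2, e3]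
      simp only [mul_assoc]
      abel
    rw [← e1]
    exact Submodule.add_mem _ h1 h2

theorem J_semi {b : B} (N : ℕ)
    (h : ∀ L : List B, L.length = N → (L.map (fun a => a * b)).prod ∈ D.J 𝒜) : b ∈ D.J 𝒜 := by
  change D.ι b ∈ ge 𝒜 1
  refine nil_ge 𝒜 (N + 1) ?_
  intro L hL
  cases L with
  | nil => exact absurd hL (by simp)
  | cons a L =>
    rw [List.length_cons] at hL
    have hL' : (L.map (D.co 0)).length = N := by
      rw [List.length_map]
      omega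
    rw [List.map_cons, List.prod_cons, mul_assoc]
    refine ge_left _ ?_
    have h1 := D.Rd_list (𝒜 := 𝒜) b L
    have h2 : D.ι (b * ((L.map (D.co 0)).map (fun a => a * b)).prod) ∈ ge 𝒜 1 :=
      D.J_left b (h _ hL')
    have h3 := Submodule.add_mem _ h1 h2
    rwa [sub_add_cancel] at h3

variable [CharZero k] [Module.Finite k A]

theorem nu_J (he : D.ι 1 ∈ 𝒜 0) (l : Fin (m + 1)) {b : B} (hb : b ∈ D.J 𝒜) :
    D.nu 𝒜 l b ∈ D.J 𝒜 := by
  obtain ⟨N, hN⟩ := D.J_prod (𝒜 := 𝒜)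
  refine D.J_semi N fun L hL => ?_
  exact der_nil (D.nu_der 𝒜 he l) (D.J 𝒜) (fun c b hb => D.J_left c hb)
    (fun c b hb => D.J_right c hb) N hN hb L hL

theorem nu_Jp (he : D.ι 1 ∈ 𝒜 0) (l : Fin (m + 1)) (j : ℕ) {b : B} (hb : b ∈ D.Jp 𝒜 j) :
    D.nu 𝒜 l b ∈ D.Jp 𝒜 j := by
  induction j generalizing b with
  | zero => exact Submodule.mem_top
  | succ j ih =>
    change b ∈ D.J 𝒜 * D.Jp 𝒜 j at hb
    change D.nu 𝒜 l b ∈ D.J 𝒜 * D.Jp 𝒜 j
    refine Submodule.mul_induction_on (C := fun b => D.nu 𝒜 l b ∈ D.J 𝒜 * D.Jp 𝒜 j) hb ?_ ?_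
    · intro x hx y hy
      rw [D.nu_der 𝒜 he l]
      exact Submodule.add_mem _ (Submodule.mul_mem_mul (D.nu_J he l hx) hy)
        (Submodule.mul_mem_mul hx (ih hy))
    · intro x y hx hy
      rw [map_add]
      exact Submodule.add_mem _ hx hy

end Desc

end H37.UK
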