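import Pool.Agent.H37.UK.Pr
import Pool.Agent.H37.UK.Nb
import Pool.Agent.H37.UK.Ts

/-!
# Row Tp: `gr (B ⊗ V)` and `gr (T (B ⊗ V))` are projective

`V` is finite dimensional with an endomorphism `dV` with `Gs dV (Iic t) = ⊤`, `θ 0 v = 1 ⊗ dV v`.
Let `v a`, `j a`, `a : Fin r`, be an adapted basis (`adapted`).

* `tp_coord`: every `y : X ⊗[k] V` is uniquely `∑ c a ⊗ v a` (`TensorProduct.equivFinsuppOfBasisRight` or
  `Module.Basis.tensorProduct`-like facts), for every vector space `X`.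
* `np_inAdd`: `pr_exact` for `f = 1`, `y a = 1 ⊗ v a` (`naP_one`), `htop` from `naP_top`
  (`Gs dV univ = ⊤` by `Gs_mono`).  Coordinates: `c • (1 ⊗ v) = c ⊗ v` and `tp_coord` for `X = B`.
* `tp_inAdd`: `pr_add` for `f = e = ι 1`, `y a = tm 1 (1 ⊗ v a)`.  `e • y a = tm (1 * ι 1) (1 ⊗ v a) = y a`
  (`mul_tm`, `tm_rel`).  `hy`: `te_one` (with `htop` for `na 0` from `naP_top`) for
  `1 ⊗ v a ∈ G (na 0) (j a)` (`naP_one`).  `htop` for `TD`: `td_top`.  Coordinates: existence: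
  `tm a (b ⊗ v) = tm a (b • (1 ⊗ v)) = tm (a ι b) (1 ⊗ v)` (`tm_rel`) `= (a ι b) • tm 1 (1 ⊗ v)`, write `v` in the
  basis, and `a ι b e = a ι b` (`ι_one`); sums: `T_induction`, `TensorProduct.induction_on`.
  Uniqueness: the bilinear map `A → B ⊗ V → A ⊗ V`, `(a, b ⊗ v) ↦ (a ι b) ⊗ v` induces by `Tlift` a linear
  map `ρ : D.T (B ⊗ V) →ₗ[k] A ⊗ V` with `ρ (c • tm 1 (1 ⊗ v)) = (c e) ⊗ v`; apply `tp_coord` for `X = A`:
  `∑ c_a • y a = ∑ c'_a • y a` with `c_a e = c_a`, `c'_a e = c'_a` gives `c_a = c'_a`.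
-/

universe u

namespace H37.UK

open CategoryTheory H60.KZ TensorProduct

variable {k : Type u} [Field k] [CharZero k]

/-- coordinates of a tensor -/
theorem Tp_ex {X V : Type u} [AddCommGroup X] [Module k X] [AddCommGroup V] [Module k V] {r : ℕ}
    (v : Module.Basis (Fin r) k V) (x : X) (w : V) :
    x ⊗ₜ[k] w = ∑ a, (v.repr w a • x) ⊗ₜ[k] v a := by
  conv_lhs => rw [← v.sum_repr w]
  rw [TensorProduct.tmul_sum]
  exact Finset.sum_congr rfl fun a _ => by rw [TensorProduct.tmul_smul, TensorProduct.smul_tmul']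

theorem Tp_coord {X V : Type u} [AddCommGroup X] [Module k X] [AddCommGroup V] [Module k V]
    {r : ℕ} (v : Module.Basis (Fin r) k V) (y : X ⊗[k] V) :
    ∃! c : Fin r → X, y = ∑ a, c a ⊗ₜ[k] v a := by
  have hex : ∃ c : Fin r → X, y = ∑ a, c a ⊗ₜ[k] v a := by
    induction y using TensorProduct.induction_on with
    | zero => exact ⟨0, by simp⟩
    | tmul x w => exact ⟨fun a => v.repr w a • x, Tp_ex v x w⟩
    | add y z hy hz =>
      obtain ⟨c, hc⟩ := hy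
      obtain ⟨d, hd⟩ := hz
      refine ⟨c + d, ?_⟩
      rw [hc, hd, ← Finset.sum_add_distrib]
      exact Finset.sum_congr rfl fun a _ => by rw [Pi.add_apply, TensorProduct.add_tmul]
  obtain ⟨c, hc⟩ := hex
  have key : ∀ (d : Fin r → X) (b : Fin r),
      TensorProduct.rid k X (TensorProduct.map LinearMap.id (v.coord b)
        (∑ a, d a ⊗ₜ[k] v a)) = d b := by
    intro d b
    rw [map_sum, map_sum, Finset.sum_eq_single b]
    · rw [TensorProduct.map_tmul, TensorProduct.rid_tmul, Module.Basis.coord_apply,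
        Module.Basis.repr_self, Finsupp.single_eq_same, one_smul]
      rfl
    · intro a _ hab
      rw [TensorProduct.map_tmul, TensorProduct.rid_tmul, Module.Basis.coord_apply,
        Module.Basis.repr_self, Finsupp.single_eq_of_ne (Ne.symm hab), zero_smul]
    · intro hb
      exact absurd (Finset.mem_univ b) hb
  refine ⟨c, hc, fun d hd => ?_⟩
  funext b
  rw [← key d b, ← key c b, ← hc, ← hd]

section

variable {B : Type u} [Ring B] [Algebra k B] [Module.Finite k B]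
  {ℬ : ℤ → Submodule k B} [GradedAlgebra ℬ]
  {V : Type u} [AddCommGroup V] [Module k V] [Module.Finite k V] {ν : B →ₗ[k] B}

theorem np_inAdd (hν : IsDer ν) {dV : V →ₗ[k] V} {θ : V →ₗ[k] B ⊗[k] V}
    (hθ : ∀ v, θ v = 1 ⊗ₜ dV v) (hB : Gs ν Set.univ = ⊤) {t : ℤ} (hV : Gs dV (Set.Iic t) = ⊤)
    (h : IsGm ℬ (naP ν θ)) :
    ∃ (r : ℕ) (j : Fin r → ℤ), (∀ a, j a ≤ t) ∧
      InAdd (fun a : Fin r => Pj ℬ (j a)) (gr h) := by
  obtain ⟨r, v, j, hvj, hjt⟩ := adapted hV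
  have hV' : Gs dV Set.univ = ⊤ := top_unique (by rw [← hV]; exact Gs_mono (Set.subset_univ _))
  refine ⟨r, j, hjt, pr_exact h (naP_top hν hθ hB hV') (f := 1) SetLike.GradedOne.one_mem
    (one_mul 1) (fun a => (1 : B) ⊗ₜ[k] v a) j (fun a => naP_one hν hθ (hvj a))
    (fun a => one_smul _ _) fun x => ?_⟩
  obtain ⟨c, hc, hu⟩ := Tp_coord v x
  have hs : ∀ (d : B) (a : Fin r), d • ((1 : B) ⊗ₜ[k] v a) = d ⊗ₜ[k] v a := fun d a => by
    rw [TensorProduct.smul_tmul', smul_eq_mul, mul_one]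
  refine ⟨c, ⟨fun a => mul_one _, ?_⟩, ?_⟩
  · simp only [hs]
    exact hc
  · rintro d ⟨-, hd⟩
    simp only [hs] at hd
    exact hu d hd

end

omit [CharZero k] in
theorem Tp_F {A B : Type u} [Ring A] [Algebra k A] [Ring B] [Algebra k B] {m n : ℕ}
    (D : Desc k A B m n) {V : Type u} [AddCommGroup V] [Module k V] (a : A) (b : B)
    (x : B ⊗[k] V) :
    ((LinearMap.rTensorHom V) ∘ₗ (LinearMap.lcomp k A D.ι) ∘ₗ (LinearMap.mul k A))
        (a * D.ι b) x =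
      ((LinearMap.rTensorHom V) ∘ₗ (LinearMap.lcomp k A D.ι) ∘ₗ (LinearMap.mul k A)) a
        (b • x) := by
  induction x using TensorProduct.induction_on with
  | zero => rw [smul_zero, map_zero, map_zero]
  | tmul b' v =>
    change (a * D.ι b * D.ι b') ⊗ₜ[k] v = (a * D.ι (b * b')) ⊗ₜ[k] v
    rw [D.mul, mul_assoc]
  | add y z hy hz => rw [smul_add, map_add, map_add, hy, hz]

/-- The map `T (B ⊗ V) → A ⊗ V`. -/
noncomputable def Tp_rho {A B : Type u} [Ring A] [Algebra k A] [Ring B] [Algebra k B] {m n : ℕ}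
    (D : Desc k A B m n) {V : Type u} [AddCommGroup V] [Module k V] :
    D.T (B ⊗[k] V) →ₗ[k] A ⊗[k] V :=
  D.Tlift ((LinearMap.rTensorHom V) ∘ₗ (LinearMap.lcomp k A D.ι) ∘ₗ (LinearMap.mul k A))
    (Tp_F D)

omit [CharZero k] in
theorem Tp_rho_tm {A B : Type u} [Ring A] [Algebra k A] [Ring B] [Algebra k B] {m n : ℕ}
    (D : Desc k A B m n) {V : Type u} [AddCommGroup V] [Module k V] (a : A) (v : V) :
    Tp_rho D (D.tm a ((1 : B) ⊗ₜ[k] v)) = (a * D.ι 1) ⊗ₜ[k] v := rfl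

omit [CharZero k] in
/-- Existence of coordinates in `T (B ⊗ V)`. -/
theorem Tp_T {A B : Type u} [Ring A] [Algebra k A] [Ring B] [Algebra k B] {m n : ℕ}
    (D : Desc k A B m n) {V : Type u} [AddCommGroup V] [Module k V] {r : ℕ}
    (v : Module.Basis (Fin r) k V) (x : D.T (B ⊗[k] V)) :
    ∃ c : Fin r → A, (∀ a, c a * D.ι 1 = c a) ∧
      x = ∑ a, c a • D.tm 1 ((1 : B) ⊗ₜ[k] v a) := by
  have hadd : ∀ y z : D.T (B ⊗[k] V),
      (∃ c : Fin r → A, (∀ a, c a * D.ι 1 = c a) ∧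
        y = ∑ a, c a • D.tm 1 ((1 : B) ⊗ₜ[k] v a)) →
      (∃ c : Fin r → A, (∀ a, c a * D.ι 1 = c a) ∧
        z = ∑ a, c a • D.tm 1 ((1 : B) ⊗ₜ[k] v a)) →
      ∃ c : Fin r → A, (∀ a, c a * D.ι 1 = c a) ∧
        y + z = ∑ a, c a • D.tm 1 ((1 : B) ⊗ₜ[k] v a) := by
    rintro y z ⟨c, hc1, hc2⟩ ⟨d, hd1, hd2⟩
    refine ⟨c + d, fun a => by rw [Pi.add_apply, add_mul, hc1, hd1], ?_⟩
    rw [hc2, hd2, ← Finset.sum_add_distrib]
    exact Finset.sum_congr rfl fun a _ => by rw [Pi.add_apply, add_smul]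
  have hzero : ∃ c : Fin r → A, (∀ a, c a * D.ι 1 = c a) ∧
      (0 : D.T (B ⊗[k] V)) = ∑ a, c a • D.tm 1 ((1 : B) ⊗ₜ[k] v a) :=
    ⟨0, fun a => zero_mul _, by simp⟩
  induction x using D.T_induction with
  | h0 => exact hzero
  | ha y z hy hz => exact hadd y z hy hz
  | ht a y =>
    induction y using TensorProduct.induction_on with
    | zero =>
      have h1 : D.tm a (0 : B ⊗[k] V) = 0 := by
        have h2 := D.tm_add a (0 : B ⊗[k] V) 0
        rw [add_zero] at h2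
        exact left_eq_add.1 h2
      rw [h1]
      exact hzero
    | add y z hy hz =>
      rw [D.tm_add]
      exact hadd _ _ hy hz
    | tmul b w =>
      refine ⟨fun i => v.repr w i • (a * D.ι b), fun i => ?_, ?_⟩
      · rw [smul_mul_assoc, mul_assoc, D.ι_one]
      · have h1 : b ⊗ₜ[k] w = b • ((1 : B) ⊗ₜ[k] w) := by
          rw [TensorProduct.smul_tmul', smul_eq_mul, mul_one]
        rw [h1, ← D.tm_rel]
        conv_lhs => rw [← v.sum_repr w, TensorProduct.tmul_sum]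
        change D.tmL (a * D.ι b) _ = _
        rw [map_sum]
        refine Finset.sum_congr rfl fun i _ => ?_
        change D.tm (a * D.ι b) _ = _
        rw [TensorProduct.tmul_smul, D.tm_smul, ← D.smul_tm, ← D.mul_tm, mul_one]

namespace Desc

variable {A B : Type u} [Ring A] [Algebra k A] [Ring B] [Algebra k B] {m n : ℕ}
  (D : Desc k A B m n) {𝒜 : ℤ → Submodule k A} [GradedAlgebra 𝒜] [PosGr 𝒜]
  [IsSemisimpleRing (𝒜 0)] [Module.Finite k A] [Module.Finite k B]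
  {V : Type u} [AddCommGroup V] [Module k V] [Module.Finite k V]

theorem tp_inAdd (he : D.ι 1 ∈ 𝒜 0) {dV : V →ₗ[k] V} {θ : Fin (m + 1) → V →ₗ[k] B ⊗[k] V}
    (hθ : ∀ v, θ 0 v = 1 ⊗ₜ dV v) (hB : Gs (D.nu 𝒜 0) Set.univ = ⊤) {t : ℤ}
    (hV : Gs dV (Set.Iic t) = ⊤)
    (hna : ∀ l, IsCon (D.nu 𝒜 l) (naP (D.nu 𝒜 l) (θ l))) (h : IsGm 𝒜 (D.TD he hna)) :
    ∃ (r : ℕ) (j : Fin r → ℤ), (∀ a, j a ≤ t) ∧
      InAdd (fun a : Fin r => Pj 𝒜 (j a)) (gr h) := by
  obtain ⟨r, v, j, hvj, hjt⟩ := adapted hV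
  have hV' : Gs dV Set.univ = ⊤ := top_unique (by rw [← hV]; exact Gs_mono (Set.subset_univ _))
  have htop : Gs (naP (D.nu 𝒜 0) (θ 0)) Set.univ = ⊤ := naP_top (D.nu_der 𝒜 he 0) hθ hB hV'
  refine ⟨r, j, hjt, pr_add h (D.td_top he hna htop) (f := D.ι 1) he (D.one_ι 1)
    (fun a => D.tm 1 ((1 : B) ⊗ₜ[k] v a)) j
    (fun a => D.te_one he hna htop (naP_one (D.nu_der 𝒜 he 0) hθ (hvj a))) (fun a => ?_)
    fun x => ?_⟩
  · rw [← D.mul_tm, mul_one, ← one_mul (D.ι 1), D.tm_rel, one_smul]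
  · obtain ⟨c, hc1, hc2⟩ := Tp_T D v x
    refine ⟨c, ⟨hc1, hc2⟩, ?_⟩
    rintro d ⟨hd1, hd2⟩
    have h1 : ∀ e : Fin r → A, (∀ a, e a * D.ι 1 = e a) →
        Tp_rho D (∑ a, e a • D.tm 1 ((1 : B) ⊗ₜ[k] v a)) = ∑ a, e a ⊗ₜ[k] v a := by
      intro e he1
      rw [map_sum]
      refine Finset.sum_congr rfl fun a _ => ?_
      rw [← D.mul_tm, mul_one, Tp_rho_tm, he1]
    have h2 := h1 c hc1
    rw [← hc2] at h2
    have h3 := h1 d hd1
    rw [← hd2] at h3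
    exact (Tp_coord v (Tp_rho D x)).unique h3 h2

end Desc

end H37.UK
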